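import Mathlib

namespace Pool.Agent.Lib.MP_bdc574_al

open Cardinal Polynomial

theorem exists_equiv_ext {R L : Type} [CommRing R] [IsDomain R] [Countable R] [Field L]
    [IsAlgClosed L] (hL : #L = 𝔠) (f : R →+* ℂ) (g : R →+* L) (hf : Function.Injective f)
    (hg : Function.Injective g) : ∃ e : ℂ ≃+* L, ∀ r, e (f r) = g r := by
  let := f.toAlgebra
  let := g.toAlgebra
  have : FaithfulSMul R ℂ := (faithfulSMul_iff_algebraMap_injective R ℂ).2 hf
  have : FaithfulSMul R L := (faithfulSMul_iff_algebraMap_injective R L).2 hg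
  obtain ⟨s, hs⟩ := exists_isTranscendenceBasis R ℂ
  obtain ⟨t, ht⟩ := exists_isTranscendenceBasis R L
  have h1 := IsAlgClosed.cardinal_eq_cardinal_transcendence_basis_of_aleph0_lt _ hs
    mk_le_aleph0 (by rw [mk_complex]; exact aleph0_lt_continuum)
  have h2 := IsAlgClosed.cardinal_eq_cardinal_transcendence_basis_of_aleph0_lt _ ht
    mk_le_aleph0 (by rw [hL]; exact aleph0_lt_continuum)
  simp only [lift_id, mk_complex, hL] at h1 h2
  obtain ⟨e0⟩ := Cardinal.eq.1 (h1.symm.trans h2)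
  let := IsAlgClosed.isAlgClosure_of_transcendence_basis _ hs
  let := IsAlgClosed.isAlgClosure_of_transcendence_basis _ ht
  let e1 := (hs.1.aevalEquiv.symm.trans (MvPolynomial.renameEquiv R e0)).trans ht.1.aevalEquiv
  refine ⟨IsAlgClosure.equivOfEquiv ℂ L e1.toRingEquiv, fun r => ?_⟩
  have h3 := IsAlgClosure.equivOfEquiv_algebraMap ℂ L e1.toRingEquiv (algebraMap R _ r)
  have h4 : e1.toRingEquiv (algebraMap R _ r) = algebraMap R _ r := e1.commutes r
  rw [h4] at h3
  exact h3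

instance countable_poly {K : Type} [CommRing K] [Countable K] : Countable K[X] :=
  Cardinal.mk_le_aleph0_iff.1 (Polynomial.cardinalMk_le_max.trans (max_le mk_le_aleph0 le_rfl))

theorem exists_move {K : Type} [CommRing K] [IsDomain K] [Countable K] [Algebra K ℂ] {a b : ℂ}
    (ha : Transcendental K a) (hb : Transcendental K b) :
    ∃ θ : ℂ ≃+* ℂ, θ a = b ∧ ∀ x : K, θ (algebraMap K ℂ x) = algebraMap K ℂ x := by
  obtain ⟨θ, hθ⟩ := exists_equiv_ext mk_complex (aeval a : K[X] →ₐ[K] ℂ).toRingHom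
    (aeval b : K[X] →ₐ[K] ℂ).toRingHom (transcendental_iff_injective.1 ha)
    (transcendental_iff_injective.1 hb)
  exact ⟨θ, by simpa using hθ X, fun x => by simpa using hθ (C x)⟩

noncomputable def absOf {L : Type} [NormedField L] (e : ℂ ≃+* L) : AbsoluteValue ℂ ℝ where
  toFun x := ‖e x‖
  map_mul' x y := by simp
  nonneg' x := norm_nonneg _
  eq_zero' x := by simp
  add_le' x y := by simpa using norm_add_le _ _

@[simp] theorem absOf_apply {L : Type} [NormedField L] (e : ℂ ≃+* L) (x : ℂ) :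
    absOf e x = ‖e x‖ := rfl

noncomputable def absTwist (v : AbsoluteValue ℂ ℝ) (e : ℂ ≃+* ℂ) : AbsoluteValue ℂ ℝ where
  toFun x := v (e x)
  map_mul' x y := by simp
  nonneg' x := v.nonneg _
  eq_zero' x := by simp
  add_le' x y := by simpa using v.add_le _ _

@[simp] theorem absTwist_apply (v : AbsoluteValue ℂ ℝ) (e : ℂ ≃+* ℂ) (x : ℂ) :
    absTwist v e x = v (e x) := rfl

theorem mk_padicAlgCl (p : ℕ) [Fact p.Prime] : #(PadicAlgCl p) = 𝔠 := by
  have h1 : 𝔠 ≤ #ℚ_[p] := continuum_le_cardinal_of_nontriviallyNormedField _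
  have h2 : #ℚ_[p] ≤ 𝔠 := by
    refine (mk_le_of_surjective (f := (Padic.mk : PadicSeq p → ℚ_[p]))
      (fun x => Quotient.inductionOn' x fun f => ⟨f, rfl⟩)).trans ?_
    refine (mk_subtype_le _).trans ?_
    simp
  refine le_antisymm ?_ (h1.trans (mk_le_of_injective (algebraMap ℚ_[p] _).injective))
  exact (Algebra.IsAlgebraic.cardinalMk_le_max ℚ_[p] _).trans
    (max_le h2 aleph0_le_continuum)

theorem exists_padic_root {r : ℂ} (hr : IsIntegral ℚ r) (hi : ¬ IsIntegral ℤ r) :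
    ∃ (p : ℕ) (_ : Fact p.Prime) (β : PadicAlgCl p),
      β ∈ (minpoly ℚ r).aroots (PadicAlgCl p) ∧ 1 < ‖β‖ := by
  by_contra hcon
  push Not at hcon
  apply hi
  have hden : ∀ n, ((minpoly ℚ r).coeff n).den = 1 := by
    intro n
    by_contra hne
    obtain ⟨p, hp, hd⟩ := Nat.exists_prime_and_dvd hne
    have : Fact p.Prime := ⟨hp⟩
    let O : Subring (PadicAlgCl p) := (Valued.v (R := PadicAlgCl p)).integer
    have h1 := (IsAlgClosed.splits ((minpoly ℚ r).map (algebraMap ℚ (PadicAlgCl p))))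
      |>.mem_lift_of_roots_mem_range ((minpoly.monic hr).map _) O.subtype (by
        intro a ha
        refine ⟨⟨a, ?_⟩, rfl⟩
        have := hcon p inferInstance a ha
        change ‖a‖₊ ≤ 1
        exact_mod_cast this)
    obtain ⟨y, hy⟩ := (lifts_iff_coeff_lifts _).1 h1 n
    have h2 : ‖(y : PadicAlgCl p)‖ ≤ 1 := by
      have : ‖(y : PadicAlgCl p)‖₊ ≤ 1 := y.2
      exact_mod_cast this
    have h3 : (y : PadicAlgCl p) = (((minpoly ℚ r).coeff n : ℚ_[p]) : PadicAlgCl p) := by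
      have : (y : PadicAlgCl p) = _ := hy
      rw [this, coeff_map]
      simp
    rw [h3, PadicAlgCl.norm_extends, Padic.norm_rat_le_one_iff_padicValuation_le_one,
      Rat.padicValuation_le_one_iff] at h2
    exact h2 hd
  have h4 : minpoly ℚ r ∈ lifts (algebraMap ℤ ℚ) := by
    rw [lifts_iff_coeff_lifts]
    intro n
    exact ⟨((minpoly ℚ r).coeff n).num, by simpa using (Rat.den_eq_one_iff _).1 (hden n)⟩
  obtain ⟨q, hq, -, hm⟩ := lifts_and_natDegree_eq_and_monic h4 (minpoly.monic hr)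
  refine ⟨q, hm, ?_⟩
  rw [← aeval_def, ← aeval_map_algebraMap ℚ, hq, minpoly.aeval]

theorem transcendental_two_mul {r : ℂ} (h : Transcendental ℚ r) : Transcendental ℚ (2 * r) := by
  intro h'
  refine h (IsAlgebraic.of_mul (y := 2) (mem_nonZeroDivisors_of_ne_zero two_ne_zero) ?_ h')
  simpa using isAlgebraic_algebraMap (R := ℚ) (A := ℂ) 2

open IntermediateField in
theorem exists_abs_ne_one {r : ℂ} (hr : ∀ n, 0 < n → r ^ n ≠ 1) :
    ∃ v : AbsoluteValue ℂ ℝ, v r ≠ 1 := by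
  by_cases ha : IsAlgebraic ℚ r
  · have hint := ha.isIntegral
    have : FiniteDimensional ℚ ℚ⟮r⟯ := adjoin.finiteDimensional hint
    have : NumberField ℚ⟮r⟯ := {}
    have : Countable ℚ⟮r⟯ := Countable.of_equiv _ (Module.finBasis ℚ ℚ⟮r⟯).equivFun.symm.toEquiv
    by_cases hi : IsIntegral ℤ r
    · have h1 : IsIntegral ℤ (AdjoinSimple.gen ℚ r) :=
        (isIntegral_algHom_iff (ℚ⟮r⟯.val.toRingHom.toIntAlgHom) Subtype.val_injective).1 hi
      have h2 : ∃ φ : ℚ⟮r⟯ →+* ℂ, ‖φ (AdjoinSimple.gen ℚ r)‖ ≠ 1 := by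
        by_contra hcon
        push Not at hcon
        obtain ⟨n, hn, h⟩ := NumberField.Embeddings.pow_eq_one_of_norm_eq_one _ ℂ h1 hcon
        exact hr n hn (by simpa using congrArg Subtype.val h)
      obtain ⟨φ, hφ⟩ := h2
      obtain ⟨e, he⟩ := exists_equiv_ext mk_complex (algebraMap ℚ⟮r⟯ ℂ) φ
        (RingHom.injective _) φ.injective
      refine ⟨absOf e, ?_⟩
      have := he (AdjoinSimple.gen ℚ r)
      rw [AdjoinSimple.algebraMap_gen] at this
      rwa [absOf_apply, this]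
    · obtain ⟨p, _, β, hβ, hn⟩ := exists_padic_root hint hi
      let φ := (algHomAdjoinIntegralEquiv ℚ hint).symm ⟨β, hβ⟩
      have hφ : φ (AdjoinSimple.gen ℚ r) = β := algHomAdjoinIntegralEquiv_symm_apply_gen ℚ hint _
      obtain ⟨e, he⟩ := exists_equiv_ext (mk_padicAlgCl p) (algebraMap ℚ⟮r⟯ ℂ) φ.toRingHom
        (RingHom.injective _) φ.toRingHom.injective
      refine ⟨absOf e, ?_⟩
      have := he (AdjoinSimple.gen ℚ r)
      rw [AdjoinSimple.algebraMap_gen] at this
      rw [absOf_apply, this]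
      exact (hφ ▸ hn).ne'
  · by_cases h1 : ‖r‖ = 1
    · obtain ⟨θ, hθ, -⟩ := exists_move ha (transcendental_two_mul ha)
      exact ⟨absOf θ, by simp [hθ, h1]⟩
    · exact ⟨absOf (RingEquiv.refl ℂ), h1⟩

def Alg (a x : ℂ) : Prop := IsAlgebraic (Algebra.adjoin ℚ {a}) x

theorem alg_iff {a x : ℂ} : Alg a x ↔ x ∈ (AlgebraicIndependent.matroid ℚ ℂ).closure {a} := by
  rw [AlgebraicIndependent.matroid_closure_eq]
  rfl

theorem alg_empty_iff {x : ℂ} :
    IsAlgebraic ℚ x ↔ x ∈ (AlgebraicIndependent.matroid ℚ ℂ).closure ∅ := by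
  rw [AlgebraicIndependent.matroid_closure_eq, Algebra.adjoin_empty]
  change _ ↔ IsAlgebraic (⊥ : Subalgebra ℚ ℂ) x
  exact (Subalgebra.isAlgebraic_bot_iff (algebraMap ℚ ℂ).injective).symm

theorem Alg.symm {a x : ℂ} (h : Alg a x) (hx : Transcendental ℚ x) : Alg x a := by
  have := Matroid.closure_exchange (M := AlgebraicIndependent.matroid ℚ ℂ) (X := ∅) (e := x)
    (f := a) ⟨by simpa using alg_iff.1 h, fun h' => hx (alg_empty_iff.2 h')⟩
  exact alg_iff.2 (by simpa using this.1)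

theorem Alg.trans {a b c : ℂ} (h1 : Alg a b) (h2 : Alg b c) : Alg a c := by
  rw [alg_iff] at *
  exact (AlgebraicIndependent.matroid ℚ ℂ).closure_subset_closure_of_subset_closure
    (Set.singleton_subset_iff.2 h1) h2

theorem Alg.refl (a : ℂ) : Alg a a :=
  isAlgebraic_algebraMap (⟨a, Algebra.self_mem_adjoin_singleton ℚ a⟩ : Algebra.adjoin ℚ {a})

theorem Alg.of_isAlgebraic (a : ℂ) {x : ℂ} (h : IsAlgebraic ℚ x) : Alg a x :=
  alg_iff.2 ((AlgebraicIndependent.matroid ℚ ℂ).closure_subset_closure (Set.empty_subset _)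
    (alg_empty_iff.1 h))

theorem Alg.map {a x : ℂ} (h : Alg a x) (θ : ℂ →+* ℂ) : Alg (θ a) (θ x) := by
  have hm : ∀ y : Algebra.adjoin ℚ {a}, θ y ∈ Algebra.adjoin ℚ {θ a} := by
    intro y
    have : θ.toRatAlgHom y ∈ (Algebra.adjoin ℚ {a}).map θ.toRatAlgHom := ⟨y, y.2, rfl⟩
    rwa [AlgHom.map_adjoin_singleton] at this
  let f : Algebra.adjoin ℚ {a} →+* Algebra.adjoin ℚ {θ a} :=
    (θ.comp (Algebra.adjoin ℚ {a}).val.toRingHom).codRestrict _ hm
  refine IsAlgebraic.ringHom_of_comp_eq f θ h (fun y z hyz => ?_) rfl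
  exact Subtype.ext (θ.injective (congrArg Subtype.val hyz))

instance countable_adjoin (a : ℂ) : Countable (Algebra.adjoin ℚ {a}) := by
  rw [Algebra.adjoin_singleton_eq_range_aeval]
  exact (Set.countable_range (aeval a : ℚ[X] → ℂ)).to_subtype

theorem exists_real_not_alg (a : ℂ) : ∃ y : ℝ, ¬ Alg a y := by
  by_contra h
  push Not at h
  have h1 : Set.Countable {x : ℂ | IsAlgebraic (Algebra.adjoin ℚ {a}) x} := Algebraic.countable _ _
  have h2 := h1.preimage Complex.ofReal_injective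
  exact Set.not_countable_univ (h2.mono fun y _ => h y)

theorem exists_generic : ∃ z : ℂ, ¬ Alg ((starRingEnd ℂ) z) z := by
  obtain ⟨x, hx⟩ := exists_real_not_alg 0
  obtain ⟨y, hy⟩ := exists_real_not_alg x
  have hx' : Transcendental ℚ (x : ℂ) := fun h => hx (Alg.of_isAlgebraic _ h)
  refine ⟨x + y * Complex.I, fun h => hy ?_⟩
  set w := (starRingEnd ℂ) (x + y * Complex.I) with hw
  have hw' : w = x - y * Complex.I := by simp [hw, sub_eq_add_neg]
  have hhalf : IsAlgebraic ℚ (1 / 2 : ℂ) := by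
    simpa using isAlgebraic_algebraMap (R := ℚ) (A := ℂ) (1 / 2)
  have hI : IsAlgebraic ℚ Complex.I :=
    IsAlgebraic.of_pow two_pos (by simpa using (isAlgebraic_one (R := ℚ) (A := ℂ)).neg)
  have h1 : Alg w x := by
    have := IsAlgebraic.mul (Alg.of_isAlgebraic w hhalf) (IsAlgebraic.add h (Alg.refl w))
    have e : (x : ℂ) = 1 / 2 * (x + y * Complex.I + w) := by rw [hw']; ring
    rw [← e] at this
    exact this
  have h2 : Alg w y := by
    have := IsAlgebraic.mul (IsAlgebraic.mul (Alg.of_isAlgebraic w hhalf)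
      (Alg.of_isAlgebraic w hI)) (IsAlgebraic.sub (Alg.refl w) h)
    have e : (y : ℂ) = 1 / 2 * Complex.I * (w - (x + y * Complex.I)) := by
      rw [hw']
      linear_combination (y : ℂ) * Complex.I_mul_I
    rw [← e] at this
    exact this
  exact (h1.symm hx').trans h2

theorem alg_conj_of_norm_one {a w : ℂ} (h : Alg a ((starRingEnd ℂ) w)) (hw : ‖w‖ = 1) :
    Alg a w := by
  have := IsAlgebraic.inv h
  rwa [← Complex.inv_eq_conj hw, inv_inv] at this

theorem exists_abs_two {l r : ℂ} (hl : Transcendental ℚ l) (h0 : r ≠ 0)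
    (hr : ∀ n, 0 < n → r ^ n ≠ 1) : ∃ v : AbsoluteValue ℂ ℝ, v l ≠ 1 ∧ v r ≠ 1 := by
  by_cases h : Alg r l
  · obtain ⟨z, hz⟩ := exists_generic
    have hrt : Transcendental ℚ r := fun h' =>
      hl (alg_empty_iff.2 ((AlgebraicIndependent.matroid ℚ ℂ).closure_subset_closure_of_subset_closure
        (Set.singleton_subset_iff.2 (alg_empty_iff.1 h')) (alg_iff.1 h)))
    have hzt : Transcendental ℚ z := fun h' => hz (Alg.of_isAlgebraic _ h')
    obtain ⟨θ, hθ, -⟩ := exists_move hrt hzt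
    refine ⟨absOf θ, fun h1 => hz ?_, fun h1 => hz ?_⟩
    · have h2 : Alg z (θ l) := hθ ▸ h.map θ.toRingHom
      have h3 : Transcendental ℚ (θ l) := fun h' => hl
        ((isAlgebraic_algHom_iff θ.toRingHom.toRatAlgHom θ.injective).1 h')
      exact (alg_conj_of_norm_one (h2.map (starRingEnd ℂ)) h1).trans (h2.symm h3)
    · rw [absOf_apply, hθ] at h1
      exact alg_conj_of_norm_one (Alg.refl _) h1
  · obtain ⟨v, hv⟩ := exists_abs_ne_one hr
    by_cases h1 : v l = 1
    · have h2 : Transcendental (Algebra.adjoin ℚ {r}) (r * l) := fun h' =>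
        h (IsAlgebraic.of_mul (mem_nonZeroDivisors_of_ne_zero h0) (Alg.refl r) h')
      obtain ⟨θ, hθ, hθ'⟩ := exists_move h h2
      have h3 : θ r = r := hθ' ⟨r, Algebra.self_mem_adjoin_singleton ℚ r⟩
      exact ⟨absTwist v θ, by simpa [hθ, h1] using hv, by simpa [h3] using hv⟩
    · exact ⟨v, h1, hv⟩

end Pool.Agent.Lib.MP_bdc574_al
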