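import Mathlib

namespace Pool.Agent.Lib.MP_bdc574_al

/-- The orthogonal group `O_4(R)` as the group of linear isometries of Euclidean 4-space. -/
abbrev O4 := EuclideanSpace ℝ (Fin 4) ≃ₗᵢ[ℝ] EuclideanSpace ℝ (Fin 4)

/-- The group structure of `O_4(R)`: composition of isometries. -/
noncomputable instance grpO4 : Group O4 := LinearIsometryEquiv.instGroup

/-- `g` fixes the point `x`. -/
def Fixes (g : O4) (x : EuclideanSpace ℝ (Fin 4)) : Prop := g x = x

/-- The unit sphere `S^3`. -/
def S3 : Set (EuclideanSpace ℝ (Fin 4)) := Metric.sphere 0 1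

/-- A group is amenable if it has a finitely additive left-invariant probability measure
defined on all of its subsets. -/
def Amenable (Q : Type) [Group Q] : Prop :=
  ∃ μ : Set Q → ℝ, μ Set.univ = 1 ∧ (∀ A : Set Q, 0 ≤ μ A) ∧
    (∀ A B : Set Q, Disjoint A B → μ (A ∪ B) = μ A + μ B) ∧
    (∀ (g : Q) (A : Set Q), μ ((fun y => g * y) ⁻¹' A) = μ A)

/-- No normal subgroup with amenable quotient has a common fixed point on the sphere. -/
def NoCoamenableFixedPoint (G : Subgroup O4) : Prop :=
  ∀ (H : Subgroup G) [H.Normal], Amenable (G ⧸ H) → ¬ ∃ x ∈ S3, ∀ h : G, h ∈ H → Fixes h.1 x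

/-- `z` is a complex eigenvalue of `g`, that is, a root of its characteristic polynomial. -/
def Eig (g : O4) (z : ℂ) : Prop :=
  Polynomial.aeval z (LinearMap.charpoly g.toLinearEquiv.toLinearMap) = 0

end Pool.Agent.Lib.MP_bdc574_al
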