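import Mathlib

-- part Pool.Agent.Lib.MP_bdc574_al.Mean
section

namespace Pool.Agent.Lib.MP_bdc574_al

open Filter Topology

def Bdd {Q : Type*} (f : Q → ℝ) : Prop := ∃ C, ∀ x, |f x| ≤ C

theorem Bdd.comp {Q Q' : Type*} {f : Q → ℝ} (h : Bdd f) (φ : Q' → Q) : Bdd (fun x => f (φ x)) :=
  let ⟨C, hC⟩ := h; ⟨C, fun _ => hC _⟩

theorem Bdd.add {Q : Type*} {f g : Q → ℝ} (hf : Bdd f) (hg : Bdd g) :
    Bdd (fun x => f x + g x) :=
  let ⟨C, hC⟩ := hf; let ⟨D, hD⟩ := hg
  ⟨C + D, fun x => (abs_add_le _ _).trans (add_le_add (hC x) (hD x))⟩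

structure IsMean {Q : Type*} [Group Q] (m : (Q → ℝ) → ℝ) : Prop where
  add : ∀ f g, Bdd f → Bdd g → m (fun x => f x + g x) = m f + m g
  mem : ∀ f a b, (∀ x, a ≤ f x ∧ f x ≤ b) → a ≤ m f ∧ m f ≤ b
  inv : ∀ f g, Bdd f → m (fun x => f (g * x)) = m f

def HasMean (Q : Type*) [Group Q] : Prop := ∃ m : (Q → ℝ) → ℝ, IsMean m

variable {Q Q' : Type*} [Group Q] [Group Q']

theorem IsMean.abs_le {m : (Q → ℝ) → ℝ} (h : IsMean m) {f : Q → ℝ} {C : ℝ}
    (hf : ∀ x, |f x| ≤ C) : |m f| ≤ C :=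
  _root_.abs_le.2 (h.mem f _ _ fun x => _root_.abs_le.1 (hf x))

theorem HasMean.measure (h : HasMean Q) : ∃ μ : Set Q → ℝ, μ Set.univ = 1 ∧
    (∀ A : Set Q, 0 ≤ μ A) ∧ (∀ A B : Set Q, Disjoint A B → μ (A ∪ B) = μ A + μ B) ∧
    (∀ (g : Q) (A : Set Q), μ ((fun y => g * y) ⁻¹' A) = μ A) := by
  obtain ⟨m, hm⟩ := h
  have hb : ∀ A : Set Q, ∀ x, 0 ≤ A.indicator (fun _ => (1 : ℝ)) x ∧
      A.indicator (fun _ => (1 : ℝ)) x ≤ 1 := by
    intro A x
    by_cases hx : x ∈ A <;> simp [hx]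
  have hB : ∀ A : Set Q, Bdd (A.indicator (fun _ => (1 : ℝ))) := fun A =>
    ⟨1, fun x => abs_le.2 ⟨by linarith [(hb A x).1], (hb A x).2⟩⟩
  refine ⟨fun A => m (A.indicator fun _ => 1), ?_, fun A => (hm.mem _ 0 1 (hb A)).1, ?_, ?_⟩
  · have := hm.mem (Set.univ.indicator fun _ => (1 : ℝ)) 1 1 (by simp)
    exact le_antisymm this.2 this.1
  · intro A B hAB
    simp only
    rw [← hm.add _ _ (hB A) (hB B), Set.indicator_union_of_disjoint hAB]
  · intro g A
    simp only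
    rw [← hm.inv _ g (hB A)]
    rfl

theorem HasMean.of_surjective (h : HasMean Q) (φ : Q →* Q') (hφ : Function.Surjective φ) :
    HasMean Q' := by
  obtain ⟨m, hm⟩ := h
  refine ⟨fun f => m (fun x => f (φ x)), fun f g hf hg => hm.add _ _ (hf.comp φ) (hg.comp φ),
    fun f a b h => hm.mem _ a b fun x => h _, fun f g hf => ?_⟩
  obtain ⟨g, rfl⟩ := hφ g
  rw [← hm.inv (fun x => f (φ x)) g (hf.comp φ)]
  simp

theorem hasMean_of_finite [Finite Q] : HasMean Q := by
  have := Fintype.ofFinite Q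
  have hc : (0 : ℝ) < Fintype.card Q := by exact_mod_cast Fintype.card_pos
  refine ⟨fun f => (∑ x, f x) / Fintype.card Q, fun f g _ _ => ?_, fun f a b h => ⟨?_, ?_⟩,
    fun f g _ => ?_⟩
  · rw [Finset.sum_add_distrib, add_div]
  · rw [le_div_iff₀ hc]
    have := Finset.sum_le_sum (s := Finset.univ) fun x _ => (h x).1
    simpa [mul_comm] using this
  · rw [div_le_iff₀ hc]
    have := Finset.sum_le_sum (s := Finset.univ) fun x _ => (h x).2
    simpa [mul_comm] using this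
  · simp only
    rw [← Equiv.sum_comp (Equiv.mulLeft g) f]
    rfl

theorem HasMean.extension (N : Subgroup Q) [N.Normal] (h1 : HasMean N) (h2 : HasMean (Q ⧸ N)) :
    HasMean Q := by
  obtain ⟨m1, hm1⟩ := h1
  obtain ⟨m2, hm2⟩ := h2
  let F : (Q → ℝ) → Q ⧸ N → ℝ := fun f y => m1 (fun n => f (y.out * n))
  have hF : ∀ f, Bdd f → ∀ x : Q, F f (x : Q ⧸ N) = m1 (fun n => f (x * n)) := by
    intro f hf x
    obtain ⟨n, hn⟩ := QuotientGroup.mk_out_eq_mul N x
    simp only [F, hn]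
    rw [← hm1.inv (fun n : N => f (x * n)) n (hf.comp _)]
    simp [mul_assoc]
  have hB : ∀ f, Bdd f → Bdd (F f) := by
    rintro f ⟨C, hC⟩
    exact ⟨C, fun y => hm1.abs_le fun n => hC _⟩
  refine ⟨fun f => m2 (F f), fun f g hf hg => ?_,
    fun f a b h => hm2.mem _ a b fun y => hm1.mem _ a b fun n => h _, fun f g hf => ?_⟩
  · rw [← hm2.add _ _ (hB f hf) (hB g hg)]
    congr 1
    funext y
    exact hm1.add _ _ (hf.comp _) (hg.comp _)
  · rw [← hm2.inv (F f) (g : Q ⧸ N) (hB f hf)]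
    congr 1
    funext y
    obtain ⟨x, rfl⟩ := QuotientGroup.mk_surjective y
    rw [hF _ (hf.comp _), ← QuotientGroup.mk_mul, hF _ hf]
    simp [mul_assoc]

theorem hasMean_of_limit {ι : Type*} (l : Filter ι) [l.NeBot] (m : ι → (Q → ℝ) → ℝ)
    (hadd : ∀ i f g, Bdd f → Bdd g → m i (fun x => f x + g x) = m i f + m i g)
    (hmem : ∀ i f a b, (∀ x, a ≤ f x ∧ f x ≤ b) → a ≤ m i f ∧ m i f ≤ b)
    (hinv : ∀ f g, Bdd f → Tendsto (fun i => m i (fun x => f (g * x)) - m i f) l (𝓝 0)) :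
    HasMean Q := by
  let U : Ultrafilter ι := Ultrafilter.of l
  have hU : (U : Filter ι) ≤ l := Ultrafilter.of_le l
  have hex : ∀ f a b, (∀ x, a ≤ f x ∧ f x ≤ b) →
      ∃ y ∈ Set.Icc a b, Tendsto (fun i => m i f) U (𝓝 y) := by
    intro f a b h
    exact isCompact_Icc.ultrafilter_le_nhds (U.map fun i => m i f)
      (by
        rw [Ultrafilter.coe_map, le_principal_iff, mem_map]
        exact univ_mem' fun i => hmem i f a b h)
  have hlim : ∀ f, Bdd f → Tendsto (fun i => m i f) U (𝓝 (limUnder U fun i => m i f)) := by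
    rintro f ⟨C, hC⟩
    obtain ⟨y, -, hy⟩ := hex f (-C) C fun x => abs_le.1 (hC x)
    exact tendsto_nhds_limUnder ⟨y, hy⟩
  refine ⟨fun f => limUnder U fun i => m i f, fun f g hf hg => ?_, fun f a b h => ?_,
    fun f g hf => ?_⟩
  · refine tendsto_nhds_unique (hlim _ (hf.add hg)) ?_
    exact ((hlim f hf).add (hlim g hg)).congr fun i => (hadd i f g hf hg).symm
  · obtain ⟨y, hy, hy'⟩ := hex f a b h
    rw [hy'.limUnder_eq]
    exact hy
  · refine tendsto_nhds_unique (hlim _ (hf.comp _)) ?_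
    have := ((hinv f g hf).mono_left hU).add (hlim f hf)
    simpa using this

theorem hasMean_of_local (h : ∀ S : Finset Q, HasMean (Subgroup.closure (S : Set Q))) :
    HasMean Q := by
  classical
  choose m hm using h
  refine hasMean_of_limit (atTop : Filter (Finset Q)) (fun S f => m S fun x => f x)
    (fun S f g hf hg => (hm S).add _ _ (hf.comp _) (hg.comp _))
    (fun S f a b h => (hm S).mem _ a b fun x => h _) fun f g hf => ?_
  refine tendsto_const_nhds.congr' ?_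
  filter_upwards [eventually_ge_atTop {g}] with S hS
  have hg : g ∈ Subgroup.closure (S : Set Q) :=
    Subgroup.subset_closure (Finset.singleton_subset_iff.1 hS)
  rw [← (hm S).inv (fun x => f x) ⟨g, hg⟩ (hf.comp _)]
  simp

theorem hasMean_zpowers (s : Q) : HasMean (Subgroup.zpowers s) := by
  let t : Subgroup.zpowers s := ⟨s, Subgroup.mem_zpowers s⟩
  let m : ℕ → (Subgroup.zpowers s → ℝ) → ℝ := fun n f =>
    (∑ k ∈ Finset.range (n + 1), f (t ^ k)) / (n + 1)
  have hstep : ∀ f, Bdd f → Tendsto (fun n => m n (fun x => f (t * x)) - m n f) atTop (𝓝 0) := by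
    rintro f ⟨C, hC⟩
    have h1 : ∀ n, m n (fun x => f (t * x)) - m n f = (f (t ^ (n + 1)) - f 1) / (n + 1) := by
      intro n
      simp only [m, ← pow_succ']
      rw [← sub_div, ← Finset.sum_sub_distrib, Finset.sum_range_sub (fun k => f (t ^ k)), pow_zero]
    simp only [h1]
    refine squeeze_zero_norm (a := fun n : ℕ => (2 * C) / (n + 1 : ℝ)) (fun n => ?_) ?_
    · rw [norm_div, Real.norm_eq_abs, Real.norm_eq_abs, abs_of_pos (a := (n + 1 : ℝ))
        (by positivity)]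
      gcongr
      have h2 := abs_le.1 (hC (t ^ (n + 1)))
      have h3 := abs_le.1 (hC 1)
      exact abs_le.2 ⟨by linarith, by linarith⟩
    · exact tendsto_const_nhds.div_atTop
        (tendsto_atTop_add_const_right _ _ tendsto_natCast_atTop_atTop)
  refine hasMean_of_limit atTop m (fun n f g _ _ => ?_) (fun n f a b h => ⟨?_, ?_⟩) ?_
  · simp only [m]
    rw [Finset.sum_add_distrib, add_div]
  · simp only [m]
    rw [le_div_iff₀ (by positivity)]
    have := Finset.sum_le_sum (s := Finset.range (n + 1)) fun k _ => (h (t ^ k)).1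
    simpa [mul_comm] using this
  · simp only [m]
    rw [div_le_iff₀ (by positivity)]
    have := Finset.sum_le_sum (s := Finset.range (n + 1)) fun k _ => (h (t ^ k)).2
    simpa [mul_comm] using this
  · intro f g hf
    obtain ⟨k, rfl⟩ : ∃ k : ℤ, g = t ^ k := by
      obtain ⟨k, hk⟩ := Subgroup.mem_zpowers_iff.1 g.2
      exact ⟨k, Subtype.ext (by simp [t, hk])⟩
    induction k using Int.induction_on with
    | zero => simp
    | succ k ih =>
      have := (hstep (fun x => f (t ^ (k : ℤ) * x)) (hf.comp _)).add ih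
      simpa [zpow_add_one, mul_assoc] using this
    | pred k ih =>
      have := ih.sub (hstep (fun x => f (t ^ (-(k : ℤ) - 1) * x)) (hf.comp _))
      simp only [← mul_assoc, ← zpow_add_one, sub_add_cancel] at this
      simpa using this

theorem HasMean.prod (h1 : HasMean Q) (h2 : HasMean Q') : HasMean (Q × Q') := by
  obtain ⟨m1, hm1⟩ := h1
  obtain ⟨m2, hm2⟩ := h2
  have hB : ∀ f : Q × Q' → ℝ, Bdd f → Bdd (fun a => m2 fun b => f (a, b)) := by
    rintro f ⟨C, hC⟩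
    exact ⟨C, fun y => hm2.abs_le fun n => hC _⟩
  refine ⟨fun f => m1 fun a => m2 fun b => f (a, b), fun f g hf hg => ?_,
    fun f a b h => hm1.mem _ a b fun y => hm2.mem _ a b fun n => h _, fun f g hf => ?_⟩
  · rw [← hm1.add _ _ (hB f hf) (hB g hg)]
    congr 1
    funext y
    exact hm2.add _ _ (hf.comp _) (hg.comp _)
  · rw [← hm1.inv _ g.1 (hB f hf)]
    congr 1
    funext y
    exact hm2.inv (fun b => f (g.1 * y, b)) g.2 (hf.comp _)

theorem hasMean_of_commGroup (A : Type*) [CommGroup A] : HasMean A := by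
  classical
  refine hasMean_of_local fun S => ?_
  induction S using Finset.induction_on with
  | empty =>
    have : Finite (Subgroup.closure ((∅ : Finset A) : Set A)) := by
      simp only [Finset.coe_empty, Subgroup.closure_empty]
      infer_instance
    exact hasMean_of_finite
  | insert s S _ ih =>
    have h1 : Subgroup.zpowers s ≤ Subgroup.closure ((insert s S : Finset A) : Set A) :=
      Subgroup.zpowers_le.2 (Subgroup.subset_closure (by simp))
    have h2 : Subgroup.closure (S : Set A) ≤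
        Subgroup.closure ((insert s S : Finset A) : Set A) :=
      Subgroup.closure_mono (by simp)
    refine ((hasMean_zpowers s).prod ih).of_surjective
      ((Subgroup.inclusion h1).coprod (Subgroup.inclusion h2)) ?_
    rintro ⟨x, hx⟩
    have hx' : x ∈ Subgroup.zpowers s ⊔ Subgroup.closure (S : Set A) := by
      rwa [Finset.coe_insert, Set.insert_eq, Subgroup.closure_union,
        ← Subgroup.zpowers_eq_closure] at hx
    obtain ⟨a, ha, b, hb, rfl⟩ := Subgroup.mem_sup.1 hx'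
    exact ⟨(⟨a, ha⟩, ⟨b, hb⟩), rfl⟩

theorem hasMean_of_comm (h : ∀ a b : Q, a * b = b * a) : HasMean Q :=
  @hasMean_of_commGroup Q { (inferInstance : Group Q) with mul_comm := h }

theorem HasMean.of_index_two (N : Subgroup Q) (hN : HasMean N)
    (h : ∀ a b, a ∉ N → b ∉ N → a * b ∈ N) : HasMean Q := by
  have hn : N.Normal := by
    refine ⟨fun n hn g => ?_⟩
    by_cases hg : g ∈ N
    · exact N.mul_mem (N.mul_mem hg hn) (N.inv_mem hg)
    · refine h _ _ (fun h' => hg ?_) (fun h' => hg (by simpa using h'))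
      exact (N.mul_mem_cancel_right hn).1 h'
  refine hN.extension N (hasMean_of_comm fun a b => ?_)
  obtain ⟨a, rfl⟩ := QuotientGroup.mk_surjective a
  obtain ⟨b, rfl⟩ := QuotientGroup.mk_surjective b
  by_cases ha : a ∈ N
  · simp [(QuotientGroup.eq_one_iff a).2 ha]
  · by_cases hb : b ∈ N
    · simp [(QuotientGroup.eq_one_iff b).2 hb]
    · rw [← QuotientGroup.mk_mul, ← QuotientGroup.mk_mul,
        (QuotientGroup.eq_one_iff _).2 (h a b ha hb), (QuotientGroup.eq_one_iff _).2 (h b a hb ha)]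

theorem HasMean.of_ker_range (φ : Q →* Q') (h1 : HasMean φ.ker) (h2 : HasMean φ.range) :
    HasMean Q :=
  h1.extension φ.ker (h2.of_surjective (QuotientGroup.quotientKerEquivRange φ).symm.toMonoidHom
    (QuotientGroup.quotientKerEquivRange φ).symm.surjective)

end Pool.Agent.Lib.MP_bdc574_al
end

-- part Pool.Agent.Lib.MP_bdc574_al.PingPong
section

namespace Pool.Agent.Lib.MP_bdc574_al

open Quaternion Filter
open scoped ComplexConjugate

noncomputable abbrev U := unitary ℍ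

def p0 (u : ℍ) : ℂ := ⟨u.re, u.imI⟩
def p1 (u : ℍ) : ℂ := ⟨u.imJ, -u.imK⟩
def jj : ℍ := ⟨0, 0, 1, 0⟩

theorem p0_mul (a b : ℍ) : p0 (a * b) = p0 a * p0 b - conj (p1 a) * p1 b := by
  apply Complex.ext <;> simp [p0, p1] <;> ring

theorem p1_mul (a b : ℍ) : p1 (a * b) = p1 a * p0 b + conj (p0 a) * p1 b := by
  apply Complex.ext <;> simp [p0, p1] <;> ring

@[simp] theorem p0_coe (z : ℂ) : p0 (z : ℍ) = z := rfl
@[simp] theorem p1_coe (z : ℂ) : p1 (z : ℍ) = 0 := by apply Complex.ext <;> simp [p1]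
@[simp] theorem p0_zero : p0 0 = 0 := rfl
@[simp] theorem p1_zero : p1 0 = 0 := by apply Complex.ext <;> simp [p1]
@[simp] theorem p0_one : p0 1 = 1 := rfl
@[simp] theorem p1_one : p1 1 = 0 := by apply Complex.ext <;> simp [p1]
@[simp] theorem p0_jj : p0 jj = 0 := rfl
@[simp] theorem p1_jj : p1 jj = 1 := by apply Complex.ext <;> simp [p1, jj]
@[simp] theorem p0_star (u : ℍ) : p0 (star u) = conj (p0 u) := by
  apply Complex.ext <;> simp [p0]
@[simp] theorem p1_star (u : ℍ) : p1 (star u) = -p1 u := by apply Complex.ext <;> simp [p1]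
@[simp] theorem p0_neg (u : ℍ) : p0 (-u) = -p0 u := by apply Complex.ext <;> simp [p0]
@[simp] theorem p1_neg (u : ℍ) : p1 (-u) = -p1 u := by apply Complex.ext <;> simp [p1]

theorem p0_coe_mul (z : ℂ) (b : ℍ) : p0 (z * b) = z * p0 b := by simp [p0_mul]
theorem p1_coe_mul (z : ℂ) (b : ℍ) : p1 (z * b) = conj z * p1 b := by simp [p1_mul]

theorem ext_p {a b : ℍ} (h0 : p0 a = p0 b) (h1 : p1 a = p1 b) : a = b := by
  simp only [p0, p1, Complex.mk.injEq, neg_inj] at h0 h1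
  ext <;> simp [h0.1, h0.2, h1.1, h1.2]

theorem unit_p (u : U) : p0 u * conj (p0 u) + p1 u * conj (p1 u) = 1 := by
  have := congrArg p0 (Unitary.coe_star_mul_self u)
  rw [p0_mul] at this
  simp only [p0_star, p1_star, map_neg, p0_one] at this
  linear_combination this

theorem conj_eq_inv {u : U} {z : ℂ} (h : (u : ℍ) = z) : conj z = z⁻¹ := by
  have := unit_p u
  rw [h] at this
  exact eq_inv_of_mul_eq_one_right (by simpa using this)

theorem ne_zero_of_unit {u : U} {z : ℂ} (h : (u : ℍ) = z) : z ≠ 0 := by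
  have := unit_p u
  rw [h] at this
  rintro rfl
  simp at this

theorem coeComplex_pow (z : ℂ) (n : ℕ) : ((z ^ n : ℂ) : ℍ) = (z : ℍ) ^ n := by
  induction n with
  | zero => simp
  | succ n ih => rw [pow_succ, coeComplex_mul, ih, pow_succ]

theorem star_coeComplex (z : ℂ) : star (z : ℍ) = (conj z : ℂ) := by
  ext <;> simp

theorem unit_pow {u : U} {z : ℂ} (h : (u : ℍ) = z) (n : ℕ) : ((u ^ n : U) : ℍ) = (z ^ n : ℂ) := by
  rw [coeComplex_pow, ← h]; rfl

theorem unit_inv {u : U} {z : ℂ} (h : (u : ℍ) = z) : ((u⁻¹ : U) : ℍ) = (z⁻¹ : ℂ) := by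
  rw [← conj_eq_inv h, ← star_coeComplex, ← h]; rfl

theorem coe_inv (u : U) : ((u⁻¹ : U) : ℍ) = star (u : ℍ) := rfl

section Growth
variable {V L : Type} {T : L → V → V} {F : L → V → ℝ} {inv : L → L} {R δ C : ℝ}

theorem growth (hδ : 0 < δ) (hC : 0 ≤ C) (hR0 : 0 < R) (hR : C * (C + δ) ≤ δ ^ 2 * R ^ 2)
    (h0 : ∀ s u, 0 ≤ F s u) (h1 : ∀ s u, F s (T s u) = R * F s u)
    (h2 : ∀ s u, R * F (inv s) (T s u) = F (inv s) u)
    (h3 : ∀ t s u, t ≠ inv s → 2 * δ * F s u - C * F (inv s) u ≤ F t u)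
    (h4 : ∀ t s u, F t u ≤ C * (F s u + F (inv s) u))
    (s0 : L) (u0 : V) (hu : C * F (inv s0) u0 ≤ δ * F s0 u0) (l : List L)
    (hl : (l ++ [s0]).IsChain fun t s => t ≠ inv s) :
    C * F (inv (l.headD s0)) (l.foldr T u0) ≤ δ * F (l.headD s0) (l.foldr T u0) ∧
      (R * δ) ^ l.length * F s0 u0 ≤ F (l.headD s0) (l.foldr T u0) := by
  induction l with
  | nil => exact ⟨hu, by simp⟩
  | cons t l ih =>
    have hts : t ≠ inv (l.headD s0) := by
      cases l with
      | nil => exact (List.isChain_cons_cons.1 hl).1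
      | cons b l => exact (List.isChain_cons_cons.1 hl).1
    obtain ⟨ih1, ih2⟩ := ih hl.tail
    simp only [List.headD_cons, List.foldr_cons, List.length_cons]
    set s := l.headD s0
    set u := l.foldr T u0
    have a1 : δ * F s u ≤ F t u := by linarith [h3 t s u hts]
    have a2 : F (inv t) u ≤ (C + δ) * F s u := by linarith [h4 (inv t) s u]
    have a0 := h0 s u
    constructor
    · rw [h1]
      refine le_of_mul_le_mul_left ?_ hR0
      calc R * (C * F (inv t) (T t u)) = C * F (inv t) u := by rw [← h2 t u]; ring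
        _ ≤ C * ((C + δ) * F s u) := by gcongr
        _ = C * (C + δ) * F s u := by ring
        _ ≤ δ ^ 2 * R ^ 2 * F s u := by gcongr
        _ = R * (δ * (R * (δ * F s u))) := by ring
        _ ≤ R * (δ * (R * F t u)) := by gcongr
    · rw [h1]
      calc (R * δ) ^ (l.length + 1) * F s0 u0 = R * (δ * ((R * δ) ^ l.length * F s0 u0)) := by ring
        _ ≤ R * (δ * F s u) := by gcongr
        _ ≤ R * F t u := by gcongr

end Growth

variable {Γ : Type} [Group Γ]

def Free (ρ₁ ρ₂ : Γ →* U) : Prop :=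
  ∃ φ : FreeGroup (Fin 2) →* Γ, ∀ w, w ≠ 1 → ∀ x : ℍ, x ≠ 0 →
    (ρ₁ (φ w) : ℍ) * x ≠ x * ρ₂ (φ w)

def sel (b : Bool) (y : ℍ) : ℂ := bif b then p0 y else p1 y

def co (b' b : Bool) (d : ℍ) : ℂ :=
  bif b' then (bif b then p0 d else -conj (p1 d)) else (bif b then p1 d else conj (p0 d))

theorem sel_mul (b' b : Bool) (d y : ℍ) :
    sel b' (d * y) = co b' b d * sel b y + co b' (!b) d * sel (!b) y := by
  cases b' <;> cases b <;> simp [sel, co, p0_mul, p1_mul] <;> ring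

noncomputable def nv (v : AbsoluteValue ℂ ℝ) (u : ℍ) : ℝ := v (p0 u) + v (p1 u)

noncomputable def KK (v : AbsoluteValue ℂ ℝ) (a : ℍ) : ℝ :=
  v (p0 a) + v (p1 a) + v (conj (p0 a)) + v (conj (p1 a))

theorem nv_nonneg (v : AbsoluteValue ℂ ℝ) (u : ℍ) : 0 ≤ nv v u :=
  add_nonneg (v.nonneg _) (v.nonneg _)

theorem KK_nonneg (v : AbsoluteValue ℂ ℝ) (u : ℍ) : 0 ≤ KK v u := by
  unfold KK; positivity

theorem nv_mul_le (v : AbsoluteValue ℂ ℝ) (a u : ℍ) : nv v (a * u) ≤ KK v a * nv v u := by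
  unfold nv KK
  rw [p0_mul, p1_mul]
  have h1 := v.sub_le_add (p0 a * p0 u) (conj (p1 a) * p1 u)
  have h2 := v.add_le (p1 a * p0 u) (conj (p0 a) * p1 u)
  simp only [map_mul] at h1 h2
  have := v.nonneg (p0 a); have := v.nonneg (p1 a); have := v.nonneg (conj (p0 a))
  have := v.nonneg (conj (p1 a)); have := v.nonneg (p0 u); have := v.nonneg (p1 u)
  nlinarith [mul_nonneg (v.nonneg (p0 a)) (v.nonneg (p1 u)),
    mul_nonneg (v.nonneg (p1 a)) (v.nonneg (p1 u)),
    mul_nonneg (v.nonneg (conj (p0 a))) (v.nonneg (p0 u)),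
    mul_nonneg (v.nonneg (conj (p1 a))) (v.nonneg (p0 u))]

theorem nv_coe_mul_le (v : AbsoluteValue ℂ ℝ) {z : ℂ} {M : ℝ} (h1 : v z ≤ M) (h2 : v (conj z) ≤ M)
    (u : ℍ) : nv v (z * u) ≤ M * nv v u := by
  unfold nv
  rw [p0_mul, p1_mul]
  simp only [p0_coe, p1_coe, map_zero, zero_mul, sub_zero, zero_add, map_mul, mul_add]
  gcongr

theorem sel_le_nv (v : AbsoluteValue ℂ ℝ) (b : Bool) (u : ℍ) : v (sel b u) ≤ nv v u := by
  cases b <;> simp [sel, nv]

theorem exists_long (w : FreeGroup (Fin 2)) (hw : w ≠ 1) (n : ℕ) :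
    ∃ N : ℕ, n < (w ^ N).toWord.length := by
  by_contra h
  push Not at h
  have hinj : Function.Injective fun N : ℕ => (w ^ N).toWord :=
    FreeGroup.toWord_injective.comp
      (injective_pow_iff_not_isOfFinOrder.2 (not_isOfFinOrder_of_isMulTorsionFree hw))
  exact Set.infinite_of_injective_forall_mem hinj (s := {l : List (Fin 2 × Bool) | l.length ≤ n}) h
    (List.finite_length_le _ n)

theorem pingpong (ρ₁ ρ₂ : Γ →* U) (v : AbsoluteValue ℂ ℝ) (g h : Γ) (l m : ℂ)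
    (h1 : (ρ₁ g : ℍ) = l) (h2 : (ρ₂ g : ℍ) = m) (hlm : v m < v l) (hlm' : v m⁻¹ < v l)
    (h0 : p0 (ρ₁ h) ≠ 0) (h0' : p1 (ρ₁ h) ≠ 0) : Free ρ₁ ρ₂ := by
  let c : Fin 2 → Γ := ![1, h]
  let inv : Fin 2 × Bool → Fin 2 × Bool := fun s => (s.1, !s.2)
  let cf : Fin 2 × Bool → Fin 2 × Bool → ℝ := fun t s =>
    v (co t.2 s.2 (ρ₁ ((c t.1)⁻¹ * c s.1)))
  have hcf : ∀ t s, t ≠ inv s → 0 < cf t s := by
    rintro ⟨i, b⟩ ⟨j, b'⟩ hne
    refine v.pos ?_
    fin_cases i <;> fin_cases j <;> cases b <;> cases b' <;>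
      simp [inv, co, c, h0, h0', coe_inv] at hne ⊢
  obtain ⟨δ, hδ, hδ'⟩ : ∃ δ > 0, ∀ t s, t ≠ inv s → 2 * δ ≤ cf t s := by
    obtain ⟨p, hp⟩ := Finite.exists_min fun p : (Fin 2 × Bool) × Fin 2 × Bool =>
      if p.1 = inv p.2 then 1 else cf p.1 p.2 / 2
    refine ⟨if p.1 = inv p.2 then 1 else cf p.1 p.2 / 2, ?_, fun t s hts => ?_⟩
    · split_ifs with h
      · exact one_pos
      · exact half_pos (hcf _ _ h)
    · have := hp (t, s)
      simp only [hts, if_false] at this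
      linarith
  obtain ⟨C, hC⟩ : ∃ C, ∀ p : (Fin 2 × Bool) × Fin 2 × Bool, cf p.1 p.2 ≤ C :=
    Finite.exists_le _
  have hC0 : 0 ≤ C := (v.nonneg _).trans (hC ((0, true), (0, true)))
  obtain ⟨K0, hK0⟩ : ∃ K0, ∀ i, KK v (ρ₂ (c i)) * KK v (ρ₂ (c i)⁻¹) ≤ K0 := Finite.exists_le _
  have hK00 : 0 ≤ K0 := (mul_nonneg (KK_nonneg _ _) (KK_nonneg _ _)).trans (hK0 0)
  have hm0 := ne_zero_of_unit h2
  have hl0 := ne_zero_of_unit h1
  set μ := max (v m) (v m⁻¹) with hμ
  have hμ1 : 1 ≤ μ := by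
    by_contra hcon
    rw [not_le, max_lt_iff, map_inv₀] at hcon
    exact absurd hcon.2 (not_lt.2 ((one_le_inv₀ (v.pos hm0)).2 hcon.1.le))
  have hμl : μ < v l := max_lt hlm hlm'
  obtain ⟨n, hn1, hn2⟩ : ∃ n : ℕ, C * (C + δ) ≤ δ ^ 2 * (v l ^ n) ^ 2 ∧
      (K0 + 1) * μ ^ n < v l ^ n * δ := by
    have t1 := (tendsto_pow_atTop_atTop_of_one_lt (hμ1.trans_lt hμl)).eventually_ge_atTop
      (max 1 (C * (C + δ) / δ ^ 2))
    have t2 := (tendsto_pow_atTop_atTop_of_one_lt
      ((one_lt_div (by linarith)).2 hμl)).eventually_gt_atTop ((K0 + 1) / δ)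
    obtain ⟨n, a1, a2⟩ := (t1.and t2).exists
    rw [max_le_iff, div_le_iff₀ (by positivity)] at a1
    rw [div_pow, div_lt_div_iff₀ hδ (by positivity)] at a2
    refine ⟨n, a1.2.trans ?_, a2⟩
    rw [mul_comm]
    gcongr
    nlinarith [a1.1]
  set R := v l ^ n with hR
  have hR0 : 0 < R := pow_pos (v.pos hl0) n
  set M := (K0 + 1) * μ ^ n with hM
  have hM0 : 0 < M := by positivity
  let a : Fin 2 → Γ := fun i => c i * g ^ n * (c i)⁻¹
  let e : Fin 2 × Bool → Γ := fun s => cond s.2 (a s.1) (a s.1)⁻¹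
  let T : Fin 2 × Bool → ℍ → ℍ := fun s u => ρ₁ (e s) * u
  let F : Fin 2 × Bool → ℍ → ℝ := fun s u => v (sel s.2 (ρ₁ (c s.1)⁻¹ * u))
  have hmul : ∀ (ρ : Γ →* U) (x y : Γ) (u : ℍ), (ρ (x * y) : ℍ) * u = ρ x * (ρ y * u) := by
    intro ρ x y u
    rw [map_mul, Submonoid.coe_mul, mul_assoc]
  have hT1 : ∀ i u, (ρ₁ (c i)⁻¹ : ℍ) * T (i, true) u = (l ^ n : ℂ) * (ρ₁ (c i)⁻¹ * u) := by
    intro i u
    rw [← unit_pow h1, ← map_pow, ← hmul, ← hmul]
    simp [e, a, mul_assoc]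
  have hT2 : ∀ i u, (ρ₁ (c i)⁻¹ : ℍ) * T (i, false) u = ((l ^ n)⁻¹ : ℂ) * (ρ₁ (c i)⁻¹ * u) := by
    intro i u
    rw [← unit_inv (unit_pow h1 n), ← map_pow, ← map_inv, ← hmul, ← hmul]
    simp [e, a, mul_assoc]
  have hcl : conj (l ^ n) = (l ^ n)⁻¹ := conj_eq_inv (unit_pow h1 n)
  have hcl' : conj (l ^ n)⁻¹ = l ^ n := by rw [map_inv₀, hcl, inv_inv]
  have g1 : ∀ s u, F s (T s u) = R * F s u := by
    rintro ⟨i, b⟩ u
    cases b
    · simp only [F, hT2, sel, cond_false, p1_coe_mul, hcl', map_mul, map_pow, hR]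
    · simp only [F, hT1, sel, cond_true, p0_coe_mul, map_mul, map_pow, hR]
  have g2 : ∀ s u, R * F (inv s) (T s u) = F (inv s) u := by
    rintro ⟨i, b⟩ u
    cases b
    · simp only [F, inv, hT2, sel, Bool.not_false, cond_true, p0_coe_mul]
      rw [v.map_mul, map_inv₀, map_pow, ← hR, mul_inv_cancel_left₀ hR0.ne']
    · simp only [F, inv, hT1, sel, Bool.not_true, cond_false, p1_coe_mul, hcl]
      rw [v.map_mul, map_inv₀, map_pow, ← hR, mul_inv_cancel_left₀ hR0.ne']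
  have hrel : ∀ (t s : Fin 2 × Bool) (u : ℍ), sel t.2 (ρ₁ (c t.1)⁻¹ * u) =
      co t.2 s.2 (ρ₁ ((c t.1)⁻¹ * c s.1)) * sel s.2 (ρ₁ (c s.1)⁻¹ * u) +
      co t.2 (!s.2) (ρ₁ ((c t.1)⁻¹ * c s.1)) * sel (!s.2) (ρ₁ (c s.1)⁻¹ * u) := by
    intro t s u
    rw [← sel_mul, ← hmul]
    simp
  have g3 : ∀ t s u, t ≠ inv s → 2 * δ * F s u - C * F (inv s) u ≤ F t u := by
    intro t s u hts
    have b1 := hδ' t s hts
    have b2 := hC (t, inv s)
    have b3 := v.le_add (co t.2 s.2 (ρ₁ ((c t.1)⁻¹ * c s.1)) * sel s.2 (ρ₁ (c s.1)⁻¹ * u))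
      (co t.2 (!s.2) (ρ₁ ((c t.1)⁻¹ * c s.1)) * sel (!s.2) (ρ₁ (c s.1)⁻¹ * u))
    rw [← hrel, v.map_mul, v.map_mul] at b3
    refine le_trans ?_ b3
    exact sub_le_sub (mul_le_mul_of_nonneg_right b1 (v.nonneg _))
      (mul_le_mul_of_nonneg_right b2 (v.nonneg _))
  have g4 : ∀ t s u, F t u ≤ C * (F s u + F (inv s) u) := by
    intro t s u
    have b1 := hC (t, s)
    have b2 := hC (t, inv s)
    have b3 := v.add_le (co t.2 s.2 (ρ₁ ((c t.1)⁻¹ * c s.1)) * sel s.2 (ρ₁ (c s.1)⁻¹ * u))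
      (co t.2 (!s.2) (ρ₁ ((c t.1)⁻¹ * c s.1)) * sel (!s.2) (ρ₁ (c s.1)⁻¹ * u))
    rw [← hrel, v.map_mul, v.map_mul] at b3
    refine b3.trans ?_
    rw [mul_add]
    exact add_le_add (mul_le_mul_of_nonneg_right b1 (v.nonneg _))
      (mul_le_mul_of_nonneg_right b2 (v.nonneg _))
  have hup : ∀ s u, nv v (ρ₂ (e s) * u) ≤ M * nv v u := by
    have hcm : conj (m ^ n) = (m ^ n)⁻¹ := conj_eq_inv (unit_pow h2 n)
    have b1 : v (m ^ n) ≤ μ ^ n := by
      rw [map_pow]; exact pow_le_pow_left₀ (v.nonneg _) (le_max_left _ _) n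
    have b2 : v (m ^ n)⁻¹ ≤ μ ^ n := by
      rw [← inv_pow, map_pow]; exact pow_le_pow_left₀ (v.nonneg _) (le_max_right _ _) n
    have key : ∀ (i) (z : ℂ) (u : ℍ), v z ≤ μ ^ n → v (conj z) ≤ μ ^ n →
        nv v (ρ₂ (c i) * (z * (ρ₂ (c i)⁻¹ * u))) ≤ M * nv v u := by
      intro i z u z1 z2
      have k1 := KK_nonneg v (ρ₂ (c i))
      have k2 := nv_nonneg v u
      calc _ ≤ KK v (ρ₂ (c i)) * (μ ^ n * (KK v (ρ₂ (c i)⁻¹) * nv v u)) := by
            refine (nv_mul_le _ _ _).trans ?_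
            gcongr
            refine (nv_coe_mul_le v z1 z2 _).trans ?_
            gcongr
            exact nv_mul_le _ _ _
        _ = KK v (ρ₂ (c i)) * KK v (ρ₂ (c i)⁻¹) * μ ^ n * nv v u := by ring
        _ ≤ (K0 + 1) * μ ^ n * nv v u := by gcongr; linarith [hK0 i]
    rintro ⟨i, b⟩ u
    cases b
    · refine le_of_eq_of_le ?_ (key i (m ^ n)⁻¹ u b2 (by rwa [map_inv₀, hcm, inv_inv]))
      rw [← unit_inv (unit_pow h2 n), ← map_pow, ← map_inv, ← hmul, ← hmul]
      simp [e, a, mul_assoc]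
    · refine le_of_eq_of_le ?_ (key i (m ^ n) u b1 (by rwa [hcm]))
      rw [← unit_pow h2 n, ← map_pow, ← hmul, ← hmul]
      rfl
  have hup' : ∀ (L : List (Fin 2 × Bool)) u,
      nv v (ρ₂ (L.map e).prod * u) ≤ M ^ L.length * nv v u := by
    intro L u
    induction L with
    | nil => simp
    | cons s L ih =>
      rw [List.map_cons, List.prod_cons, hmul, List.length_cons, pow_succ', mul_assoc]
      exact (hup _ _).trans (by gcongr)
  have hfold : ∀ (L : List (Fin 2 × Bool)) u, L.foldr T u = ρ₁ (L.map e).prod * u := by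
    intro L u
    induction L with
    | nil => simp
    | cons s L ih => rw [List.map_cons, List.prod_cons, hmul, List.foldr_cons, ih]
  let u0 : Fin 2 × Bool → ℍ := fun s => ρ₁ (c s.1) * (bif s.2 then 1 else jj)
  have hu0 : ∀ s, F s (u0 s) = 1 ∧ F (inv s) (u0 s) = 0 := by
    rintro ⟨i, b⟩
    simp only [F, u0, inv, ← hmul]
    cases b <;> simp [sel]
  refine ⟨FreeGroup.lift a, fun w hw x hx hfix => ?_⟩
  obtain ⟨D, hD⟩ : ∃ D, ∀ p : (Fin 2 × Bool) × Fin 2 × Bool,
      KK v (ρ₁ (c p.1.1)⁻¹) * KK v x * nv v (x⁻¹ * u0 p.2) ≤ D := Finite.exists_le _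
  have hq : 1 < R * δ / M := (one_lt_div hM0).2 hn2
  obtain ⟨k, hk⟩ := eventually_atTop.1
    ((tendsto_pow_atTop_atTop_of_one_lt hq).eventually_gt_atTop (D * M / R))
  obtain ⟨N, hN⟩ := exists_long w hw k
  have hfixN : (ρ₁ (FreeGroup.lift a (w ^ N)) : ℍ) * x = x * ρ₂ (FreeGroup.lift a (w ^ N)) := by
    simp only [map_pow, SubmonoidClass.coe_pow]
    exact (SemiconjBy.pow_right (a := x) hfix.symm N).symm
  obtain ⟨L, s0, hL⟩ : ∃ L s0, (w ^ N).toWord = L ++ [s0] := by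
    rcases List.eq_nil_or_concat (w ^ N).toWord with h | ⟨L, s0, h⟩
    · simp [h] at hN
    · exact ⟨L, s0, by simpa using h⟩
  have hred : (L ++ [s0]).IsChain fun t s => t ≠ inv s := by
    rw [← hL]
    refine List.IsChain.imp ?_ (FreeGroup.isReduced_toWord (x := w ^ N))
    rintro ⟨i, b⟩ ⟨j, b'⟩ h h'
    simp only [inv, Prod.mk.injEq] at h h'
    have := h h'.1
    rw [h'.2] at this
    simp at this
  have hw' : FreeGroup.lift a (w ^ N) = ((L ++ [s0]).map e).prod := by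
    rw [← hL]
    conv_lhs => rw [← FreeGroup.mk_toWord (x := w ^ N), FreeGroup.lift_mk]
  have hgood : C * F (inv s0) (T s0 (u0 s0)) ≤ δ * F s0 (T s0 (u0 s0)) := by
    have := g2 s0 (u0 s0)
    rw [(hu0 s0).2, mul_eq_zero] at this
    rw [this.resolve_left hR0.ne', mul_zero]
    exact mul_nonneg hδ.le (v.nonneg _)
  have hg := (growth (F := F) hδ hC0 hR0 hn1 (fun _ _ => v.nonneg _) g1 g2 g3 g4 s0 _ hgood L hred).2
  rw [g1, (hu0 s0).1, mul_one] at hg
  have e1 : L.foldr T (T s0 (u0 s0)) = x * (ρ₂ ((L ++ [s0]).map e).prod * (x⁻¹ * u0 s0)) := by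
    rw [← hw', ← mul_assoc, ← hfixN, mul_assoc, mul_inv_cancel_left₀ hx, hw', ← hfold,
      List.foldr_append]
    rfl
  rw [e1] at hg
  have hlen : k ≤ L.length := by
    rw [hL] at hN
    simp at hN
    omega
  have b1 := hk _ hlen
  have b2 : (R * δ) ^ L.length * R ≤ M ^ (L.length + 1) * D := by
    refine hg.trans ((sel_le_nv _ _ _).trans ?_)
    have k1 := KK_nonneg v (ρ₁ (c (L.headD s0).1)⁻¹)
    have k2 := KK_nonneg v x
    calc _ ≤ KK v (ρ₁ (c (L.headD s0).1)⁻¹) * (KK v x *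
          (M ^ (L ++ [s0]).length * nv v (x⁻¹ * u0 s0))) := by
          refine (nv_mul_le _ _ _).trans ?_
          gcongr
          refine (nv_mul_le _ _ _).trans ?_
          gcongr
          exact hup' _ _
      _ = M ^ (L.length + 1) * (KK v (ρ₁ (c (L.headD s0).1)⁻¹) * KK v x *
          nv v (x⁻¹ * u0 s0)) := by simp only [List.length_append, List.length_singleton]; ring
      _ ≤ _ := by gcongr; exact hD (L.headD s0, s0)
  rw [div_pow, div_lt_div_iff₀ hR0 (by positivity)] at b1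
  rw [pow_succ] at b2
  nlinarith

end Pool.Agent.Lib.MP_bdc574_al
end

-- part Pool.Agent.Lib.MP_bdc574_al.Torsion
section

namespace Pool.Agent.Lib.MP_bdc574_al

open Quaternion Polynomial
open scoped ComplexConjugate

theorem exists_unit {c : ℍ} (hc : c ≠ 0) : ∃ (u : U) (r : ℝ), r ≠ 0 ∧ (u : ℍ) = r • c := by
  have hn : ‖c‖ ≠ 0 := norm_ne_zero_iff.2 hc
  have h1 : normSq (‖c‖⁻¹ • c) = 1 := by
    rw [normSq_eq_norm_mul_self, norm_smul, norm_inv, norm_norm, inv_mul_cancel₀ hn, one_mul]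
  refine ⟨⟨‖c‖⁻¹ • c, ?_⟩, ‖c‖⁻¹, inv_ne_zero hn, rfl⟩
  rw [Unitary.mem_iff, star_mul_self, self_mul_star, h1]
  simp

theorem re_mul_comm (a b : ℍ) : (a * b).re = (b * a).re := by simp; ring

theorem re_conj (c u : U) : ((c⁻¹ * u * c : U) : ℍ).re = (u : ℍ).re := by
  rw [Submonoid.coe_mul, re_mul_comm, ← Submonoid.coe_mul, ← mul_assoc, mul_inv_cancel,
    one_mul]

theorem exists_diag (u : U) : ∃ (c : U) (z : ℂ), ((c⁻¹ * u * c : U) : ℍ) = z := by
  by_cases h : (u : ℍ).imJ = 0 ∧ (u : ℍ).imK = 0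
  · refine ⟨1, p0 u, ?_⟩
    rw [inv_one, one_mul, mul_one]
    ext <;> simp [p0, h.1, h.2]
  · set s := Real.sqrt ((u : ℍ).imI ^ 2 + (u : ℍ).imJ ^ 2 + (u : ℍ).imK ^ 2) with hs
    have hs2 : s * s = (u : ℍ).imI ^ 2 + (u : ℍ).imJ ^ 2 + (u : ℍ).imK ^ 2 :=
      Real.mul_self_sqrt (by positivity)
    let c0 : ℍ := ⟨0, (u : ℍ).imI + s, (u : ℍ).imJ, (u : ℍ).imK⟩
    have hc0 : c0 ≠ 0 := by
      intro h'
      exact h ⟨congrArg QuaternionAlgebra.imJ h', congrArg QuaternionAlgebra.imK h'⟩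
    obtain ⟨c, r, hr, hc⟩ := exists_unit hc0
    refine ⟨c, ⟨(u : ℍ).re, s⟩, ?_⟩
    have h1 : (u : ℍ) * c0 = c0 * ((⟨(u : ℍ).re, s⟩ : ℂ) : ℍ) := by
      ext <;> simp [c0]
      · linear_combination hs2
      · ring
      · ring
      · ring
    have h2 : (u : ℍ) * c = c * ((⟨(u : ℍ).re, s⟩ : ℂ) : ℍ) := by
      rw [hc, mul_smul_comm, smul_mul_assoc, h1]
    rw [mul_assoc, Submonoid.coe_mul, Submonoid.coe_mul, h2, ← mul_assoc, ← Submonoid.coe_mul,
      inv_mul_cancel, Submonoid.coe_one, one_mul]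

theorem coeComplex_injective {z w : ℂ} (h : (z : ℍ) = w) : z = w := by
  simpa using congrArg p0 h

theorem torsion_re {u : U} (hu : IsOfFinOrder u) :
    ∃ (z : ℂ) (n : ℕ), 0 < n ∧ z ^ n = 1 ∧ ((2 * (u : ℍ).re : ℝ) : ℂ) = z + z⁻¹ := by
  obtain ⟨n, hn, h⟩ := isOfFinOrder_iff_pow_eq_one.1 hu
  obtain ⟨c, z, hz⟩ := exists_diag u
  refine ⟨z, n, hn, coeComplex_injective ?_, ?_⟩
  · rw [← unit_pow hz]
    have : (c⁻¹ * u * c) ^ n = 1 := by
      have := conj_pow (a := c⁻¹) (b := u) (i := n)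
      rwa [inv_inv, h, mul_one, inv_mul_cancel] at this
    rw [this]; rfl
  · rw [← conj_eq_inv hz, Complex.add_conj, ← re_conj c u, hz]
    rfl

theorem torsion_integral {u : U} (hu : IsOfFinOrder u) : IsIntegral ℤ (2 * (u : ℍ).re) := by
  obtain ⟨z, n, hn, h1, h2⟩ := torsion_re hu
  have a1 : IsIntegral ℤ z := IsIntegral.of_pow hn (h1 ▸ isIntegral_one)
  have a2 : IsIntegral ℤ z⁻¹ := IsIntegral.of_pow hn (by rw [inv_pow, h1, inv_one]; exact isIntegral_one)
  have := a1.add a2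
  rw [← h2] at this
  exact (isIntegral_algHom_iff Complex.ofRealHom.toIntAlgHom Complex.ofReal_injective).1 this

theorem torsion_bound {u : U} (hu : IsOfFinOrder u) (k : IntermediateField ℚ ℝ) (x : k)
    (hx : (x : ℝ) = 2 * (u : ℍ).re) (φ : k →+* ℂ) : ‖φ x‖ ≤ 2 := by
  obtain ⟨z, n, hn, h1, h2⟩ := torsion_re hu
  have hz0 : z ≠ 0 := by
    rintro rfl
    simp [hn.ne'] at h1
  have key : ∀ ψ : k →+* ℂ, ψ ((dickson 1 (1 : k) n).eval x) = (dickson 1 (1 : ℂ) n).eval (ψ x) := by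
    intro ψ
    rw [← eval₂_at_apply, ← eval_map, map_dickson, map_one]
  let ι : k →+* ℂ := Complex.ofRealHom.comp (algebraMap k ℝ)
  have h3 : (dickson 1 (1 : k) n).eval x = 2 := by
    apply ι.injective
    have : ι x = z + z⁻¹ := by rw [← h2, ← hx]; rfl
    rw [key, this, dickson_one_one_eval_add_inv _ _ (mul_inv_cancel₀ hz0), inv_pow, h1, map_ofNat]
    norm_num
  obtain ⟨w, hw⟩ : ∃ w : ℂ, w * w - φ x * w + 1 = 0 := by
    obtain ⟨s, hs⟩ := IsAlgClosed.exists_eq_mul_self (φ x ^ 2 - 4)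
    exact ⟨(φ x + s) / 2, by linear_combination (-1 / 4 : ℂ) * hs⟩
  have hw0 : w ≠ 0 := by
    rintro rfl
    simp at hw
  have h4 : φ x = w + w⁻¹ := by
    field_simp
    linear_combination -hw
  have h5 := key φ
  rw [h3, h4, dickson_one_one_eval_add_inv _ _ (mul_inv_cancel₀ hw0), map_ofNat, inv_pow] at h5
  have hwn : w ^ n ≠ 0 := pow_ne_zero _ hw0
  have h6 : w ^ n = 1 := by
    have : (w ^ n - 1) ^ 2 = 0 := by
      field_simp at h5
      linear_combination -h5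
    exact sub_eq_zero.1 (pow_eq_zero_iff two_ne_zero |>.1 this)
  have h7 : ‖w‖ = 1 := by
    have := congrArg norm h6
    rw [norm_pow, norm_one] at this
    exact (pow_eq_one_iff_of_nonneg (norm_nonneg _) hn.ne').1 this
  rw [h4]
  refine (norm_add_le _ _).trans ?_
  rw [norm_inv, h7]
  norm_num

theorem phi_inj {a b u : ℍ} (hab : a * b ≠ b * a) (h0 : (u * 1).re = 0) (h1 : (u * a).re = 0)
    (h2 : (u * b).re = 0) (h3 : (u * (a * b)).re = 0) : u = 0 := by
  set c1 := a.imJ * b.imK - a.imK * b.imJ with hc1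
  set c2 := a.imK * b.imI - a.imI * b.imK with hc2
  set c3 := a.imI * b.imJ - a.imJ * b.imI with hc3
  have hc : c1 ^ 2 + c2 ^ 2 + c3 ^ 2 ≠ 0 := by
    intro h
    have e1 : c1 = 0 := by nlinarith [sq_nonneg c1, sq_nonneg c2, sq_nonneg c3]
    have e2 : c2 = 0 := by nlinarith [sq_nonneg c1, sq_nonneg c2, sq_nonneg c3]
    have e3 : c3 = 0 := by nlinarith [sq_nonneg c1, sq_nonneg c2, sq_nonneg c3]
    apply hab
    ext <;> simp
    · ring
    · linear_combination 2 * e1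
    · linear_combination 2 * e2
    · linear_combination 2 * e3
  rw [mul_one] at h0
  simp only [re_mul, imI_mul, imJ_mul, imK_mul, h0, zero_mul, zero_sub] at h1 h2 h3
  have ua : u.imI * a.imI + u.imJ * a.imJ + u.imK * a.imK = 0 := by linear_combination -h1
  have ub : u.imI * b.imI + u.imJ * b.imJ + u.imK * b.imK = 0 := by linear_combination -h2
  have uc : u.imI * c1 + u.imJ * c2 + u.imK * c3 = 0 := by
    linear_combination -h3 - a.re * ub - b.re * ua
  ext
  · exact h0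
  · refine mul_right_cancel₀ hc ?_
    simp only [imI_zero, zero_mul]
    linear_combination (c2 * a.imK - c3 * a.imJ) * ub - (c2 * b.imK - c3 * b.imJ) * ua + c1 * uc
  · refine mul_right_cancel₀ hc ?_
    simp only [imJ_zero, zero_mul]
    linear_combination (c3 * a.imI - c1 * a.imK) * ub - (c3 * b.imI - c1 * b.imK) * ua + c2 * uc
  · refine mul_right_cancel₀ hc ?_
    simp only [imK_zero, zero_mul]
    linear_combination (c1 * a.imJ - c2 * a.imI) * ub - (c1 * b.imJ - c2 * b.imI) * ua + c3 * uc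

theorem re_mul_sum (u : ℍ) (c : Fin 4 → ℝ) (E : Fin 4 → ℍ) :
    (u * ∑ i, c i • E i).re = ∑ i, c i * (u * E i).re := by
  simp only [Fin.sum_univ_four, mul_add, mul_smul_comm, re_add, re_smul, smul_eq_mul]

theorem finite_closure {N : Type} [Group N] (ρ : N →* U) (hinj : Function.Injective ρ)
    (ht : ∀ g : N, IsOfFinOrder g) (S : Finset N) {g h : N} (hgh : g * h ≠ h * g) :
    (Subgroup.closure (S : Set N) : Set N).Finite := by
  classical
  let e : Fin 4 → N := ![1, g, h, g * h]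
  let E : Fin 4 → ℍ := fun i => ρ (e i)
  let Φ : ℍ →ₗ[ℝ] (Fin 4 → ℝ) :=
    { toFun := fun u i => (u * E i).re
      map_add' := fun u w => by funext i; simp only [add_mul, re_add, Pi.add_apply]
      map_smul' := fun r u => by
        funext i; simp only [smul_mul_assoc, re_smul, Pi.smul_apply, RingHom.id_apply] }
  have hΦ : Function.Injective Φ := by
    rw [injective_iff_map_eq_zero]
    intro u hu
    refine phi_inj (a := ρ g) (b := ρ h) (fun h' => hgh (hinj (Subtype.ext ?_)))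
      ?_ (congrFun hu 1) (congrFun hu 2) ?_
    · simpa using h'
    · simpa [Φ, E, e] using congrFun hu 0
    · have := congrFun hu 3
      simpa only [Φ, E, e, LinearMap.coe_mk, AddHom.coe_mk, Matrix.cons_val, map_mul,
        Submonoid.coe_mul, Pi.zero_apply] using this
  have hΦs : Function.Surjective Φ :=
    (LinearMap.injective_iff_surjective_of_finrank_eq_finrank
      (by simp [Quaternion.finrank_eq_four])).1 hΦ
  have hli : ∀ c : Fin 4 → ℝ, ∑ i, c i • E i = 0 → c = 0 := by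
    intro c hc
    obtain ⟨u, hu⟩ := hΦs c
    have h1 := re_mul_sum u c E
    have h2 : ∀ i, (u * E i).re = c i := fun i => congrFun hu i
    simp only [hc, mul_zero, re_zero, h2] at h1
    funext i
    exact mul_self_eq_zero.1 ((Finset.sum_eq_zero_iff_of_nonneg
      fun j _ => mul_self_nonneg (c j)).1 h1.symm i (Finset.mem_univ _))
  let τ : N → ℝ := fun x => 2 * (ρ x : ℍ).re
  let S' : Finset N := insert 1 (S ∪ S.image fun s => s⁻¹)
  let Tf : Finset N := (Finset.univ ×ˢ S' ×ˢ Finset.univ).image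
    fun p : Fin 4 × N × Fin 4 => e p.1 * p.2.1 * e p.2.2
  let k : IntermediateField ℚ ℝ := IntermediateField.adjoin ℚ ((Tf.image τ : Finset ℝ) : Set ℝ)
  have hint : ∀ x, IsIntegral ℤ (τ x) := fun x => torsion_integral (ρ.isOfFinOrder (ht x))
  have : FiniteDimensional ℚ k := IntermediateField.finiteDimensional_adjoin (by
    intro x hx
    obtain ⟨y, -, rfl⟩ := Finset.mem_image.1 hx
    exact (hint y).tower_top)
  have : NumberField k := {}
  have hk : ∀ i, ∀ s ∈ S', ∀ j, (E i * ρ s * E j).re ∈ k := by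
    intro i s hs j
    have h1 : τ (e i * s * e j) ∈ k := IntermediateField.subset_adjoin _ _
      (Finset.mem_coe.2 (Finset.mem_image_of_mem _ (Finset.mem_image.2
        ⟨(i, s, j), by simp [hs], rfl⟩)))
    have h2 := k.div_mem h1 (show (2 : ℝ) ∈ k from ofNat_mem k 2)
    simpa only [τ, map_mul, Submonoid.coe_mul, mul_div_cancel_left₀ _ (two_ne_zero (α := ℝ))]
      using h2
  have hk1 : ∀ i j, (E i * E j).re ∈ k := fun i j => by
    simpa using hk i 1 (Finset.mem_insert_self _ _) j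
  let M : Matrix (Fin 4) (Fin 4) k := fun i j => ⟨(E i * E j).re, hk1 i j⟩
  have hM : ∀ (c : Fin 4 → k) j, ((Matrix.vecMul c M j : k) : ℝ) =
      Φ (∑ i, (c i : ℝ) • E i) j := by
    intro c j
    change _ = ((∑ i, (c i : ℝ) • E i) * E j).re
    rw [re_mul_comm, re_mul_sum]
    simp only [Matrix.vecMul, dotProduct, M, AddSubmonoidClass.coe_finsetSum, MulMemClass.coe_mul,
      re_mul_comm (E j)]
  have hMs : Function.Surjective M.vecMulLinear := by
    refine LinearMap.surjective_of_injective ((injective_iff_map_eq_zero _).2 fun c hc => ?_)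
    have h1 : Φ (∑ i, (c i : ℝ) • E i) = 0 := by
      funext j
      rw [← hM]
      have : Matrix.vecMul c M j = 0 := congrFun hc j
      simp [this]
    have h2 := hli _ (hΦ (h1.trans (map_zero Φ).symm))
    funext i
    exact Subtype.ext (congrFun h2 i)
  have hstep : ∀ s ∈ S', ∀ u : ℍ, (∀ i, (u * E i).re ∈ k) → ∀ j, (ρ s * u * E j).re ∈ k := by
    intro s hs u hu j
    obtain ⟨c, hc⟩ := hMs fun i => ⟨_, hk j s hs i⟩
    have h1 : ∑ i, (c i : ℝ) • E i = E j * ρ s := by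
      apply hΦ
      funext i
      rw [← hM]
      exact congrArg Subtype.val (congrFun hc i)
    rw [mul_assoc, re_mul_comm, mul_assoc, ← h1, re_mul_sum]
    exact sum_mem fun i _ => mul_mem (c i).2 (hu i)
  have hall : ∀ x ∈ Subgroup.closure (S : Set N), ∀ i, ((ρ x : ℍ) * E i).re ∈ k := by
    intro x hx
    induction hx using Subgroup.closure_induction_left with
    | one => intro i; simpa [E, e] using hk1 0 i
    | mul_left s hs y _ ih =>
      rw [map_mul, Submonoid.coe_mul]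
      exact hstep s (by simp [S', Finset.mem_coe.1 hs]) _ ih
    | inv_mul_cancel s hs y _ ih =>
      rw [map_mul, Submonoid.coe_mul]
      exact hstep s⁻¹ (by simp [S', Finset.mem_coe.1 hs]) _ ih
  have hfin := (NumberField.Embeddings.finite_of_norm_le k ℂ 2).image (fun x : k => (x : ℝ) / 2)
  refine Set.Finite.of_finite_image (f := fun x => Φ (ρ x))
    ((Set.Finite.pi' fun _ : Fin 4 => hfin).subset ?_) ?_
  · rintro _ ⟨x, hx, rfl⟩ i
    have h1 : τ (x * e i) = 2 * ((ρ x : ℍ) * E i).re := by simp only [τ, map_mul]; rfl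
    have h2 : τ (x * e i) ∈ k := h1 ▸ mul_mem (ofNat_mem k 2) (hall x hx i)
    refine ⟨⟨_, h2⟩, ⟨?_, torsion_bound (ρ.isOfFinOrder (ht (x * e i))) k _ rfl⟩, ?_⟩
    · exact (isIntegral_algHom_iff k.val.toRingHom.toIntAlgHom Subtype.val_injective).1 (hint _)
    · simp only [h1]
      rw [mul_div_cancel_left₀ _ two_ne_zero]
      rfl
  · intro x _ y _ hxy
    exact hinj (Subtype.ext (hΦ hxy))

theorem hasMean_of_torsion {N : Type} [Group N] (ρ : N →* U) (hinj : Function.Injective ρ)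
    (ht : ∀ g : N, IsOfFinOrder g) : HasMean N := by
  by_cases h : ∀ a b : N, a * b = b * a
  · exact hasMean_of_comm h
  · push Not at h
    obtain ⟨a, b, hab⟩ := h
    refine hasMean_of_local fun S => ?_
    have : Finite (Subgroup.closure (S : Set N)) := finite_closure ρ hinj ht S hab
    exact hasMean_of_finite

end Pool.Agent.Lib.MP_bdc574_al
end
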