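import Mathlib
import Pool.Agent.Lib.MP_bdc574_al.AbsVal
import Pool.Agent.Lib.MP_bdc574_al.Torsion

namespace Pool.Agent.Lib.MP_bdc574_al

open Quaternion Filter
open scoped ComplexConjugate

variable {Γ : Type} [Group Γ] {ρ₁ ρ₂ : Γ →* U}

theorem Free.symm (h : Free ρ₁ ρ₂) : Free ρ₂ ρ₁ := by
  obtain ⟨φ, hφ⟩ := h
  refine ⟨φ, fun w hw x hx h => hφ w hw x⁻¹ (inv_ne_zero hx) ?_⟩
  rw [mul_inv_eq_iff_eq_mul₀ hx, mul_assoc, h, inv_mul_cancel_left₀ hx]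

noncomputable def cj (c : U) (ρ : Γ →* U) : Γ →* U := (MulAut.conj c⁻¹).toMonoidHom.comp ρ

theorem cj_apply (c : U) (ρ : Γ →* U) (g : Γ) : cj c ρ g = c⁻¹ * ρ g * c := by simp [cj]

theorem unit_ne_zero (c : U) : (c : ℍ) ≠ 0 := by
  intro h
  have := Unitary.coe_star_mul_self c
  simp [h] at this

theorem coe_mul_inv (c : U) (x : ℍ) : (c : ℍ) * ((c⁻¹ : U) * x) = x := by
  rw [← mul_assoc, ← Submonoid.coe_mul, mul_inv_cancel, Submonoid.coe_one, one_mul]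

theorem coe_inv_mul (c : U) (x : ℍ) : ((c⁻¹ : U) : ℍ) * (c * x) = x := by
  rw [← mul_assoc, ← Submonoid.coe_mul, inv_mul_cancel, Submonoid.coe_one, one_mul]

theorem Free.of_cj {c d : U} (h : Free (cj c ρ₁) (cj d ρ₂)) : Free ρ₁ ρ₂ := by
  obtain ⟨φ, hφ⟩ := h
  refine ⟨φ, fun w hw x hx h => hφ w hw ((c⁻¹ : U) * x * d)
    (mul_ne_zero (mul_ne_zero (unit_ne_zero _) hx) (unit_ne_zero _)) ?_⟩
  simp only [cj_apply, Submonoid.coe_mul, mul_assoc, coe_mul_inv]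
  rw [← mul_assoc _ x, h, mul_assoc]

theorem Free.of_comp {N : Type} [Group N] (ψ : N →* Γ) (h : Free (ρ₁.comp ψ) (ρ₂.comp ψ)) :
    Free ρ₁ ρ₂ := by
  obtain ⟨φ, hφ⟩ := h
  exact ⟨ψ.comp φ, hφ⟩

theorem hasMean_of_elem (H : Subgroup U) (h : ∀ u ∈ H, p0 u = 0 ∨ p1 u = 0) : HasMean H := by
  let N : Subgroup H :=
    { carrier := {x | p1 (x : U) = 0}
      mul_mem' := fun {a b} ha hb => by
        simp only [Set.mem_ofPred_eq, Subgroup.coe_mul, Submonoid.coe_mul, p1_mul] at ha hb ⊢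
        simp [ha, hb]
      one_mem' := by simp
      inv_mem' := fun {a} ha => by
        simp only [Set.mem_ofPred_eq, Subgroup.coe_inv, coe_inv, p1_star] at ha ⊢
        simp [ha] }
  refine HasMean.of_index_two N (hasMean_of_comm fun a b => ?_) fun a b ha hb => ?_
  · have ha : p1 ((a : H) : U) = 0 := a.2
    have hb : p1 ((b : H) : U) = 0 := b.2
    refine Subtype.ext (Subtype.ext (Subtype.ext (ext_p ?_ ?_)))
    · simp only [Subgroup.coe_mul, Submonoid.coe_mul, p0_mul, ha, hb]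
      simp [mul_comm]
    · simp only [Subgroup.coe_mul, Submonoid.coe_mul, p1_mul, ha, hb]
      simp
  · have ha' := (h _ a.2).resolve_right ha
    have hb' := (h _ b.2).resolve_right hb
    change p1 ((a * b : H) : U) = 0
    simp only [Subgroup.coe_mul, Submonoid.coe_mul, p1_mul, ha', hb']
    simp

theorem pingpong' (v : AbsoluteValue ℂ ℝ) (g h : Γ) (l m : ℂ)
    (h1 : (ρ₁ g : ℍ) = l) (h2 : (ρ₂ g : ℍ) = m)
    (hlm : max (v m) (v m⁻¹) < max (v l) (v l⁻¹))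
    (h0 : p0 (ρ₁ h) ≠ 0) (h0' : p1 (ρ₁ h) ≠ 0) : Free ρ₁ ρ₂ := by
  rcases lt_max_iff.1 hlm with hl | hl <;> rw [max_lt_iff] at hl
  · exact pingpong ρ₁ ρ₂ v g h l m h1 h2 hl.1 hl.2 h0 h0'
  · exact pingpong ρ₁ ρ₂ v g⁻¹ h l⁻¹ m⁻¹ (by rw [map_inv, unit_inv h1])
      (by rw [map_inv, unit_inv h2]) hl.2 (by rw [inv_inv]; exact hl.1) h0 h0'

theorem cj_injective {ρ : Γ →* U} (h : Function.Injective ρ) (c : U) :
    Function.Injective (cj c ρ) := (MulAut.conj c⁻¹).injective.comp h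

theorem tits {ρ : Γ →* U} (hinj : Function.Injective ρ) (hm : ¬ HasMean Γ) : Free ρ 1 := by
  obtain ⟨g, hg⟩ : ∃ g : Γ, ¬ IsOfFinOrder g := by
    by_contra h
    push Not at h
    exact hm (hasMean_of_torsion ρ hinj h)
  obtain ⟨c, z, hz⟩ := exists_diag (ρ g)
  rw [← cj_apply] at hz
  have hinj' := cj_injective hinj c
  obtain ⟨v, hv⟩ := exists_abs_ne_one (r := z) fun n hn h => hg
    (isOfFinOrder_iff_pow_eq_one.2 ⟨n, hn, hinj' (Subtype.ext (by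
      rw [map_pow, unit_pow hz, h, map_one]; rfl))⟩)
  obtain ⟨h, h0, h0'⟩ : ∃ h, p0 (cj c ρ h) ≠ 0 ∧ p1 (cj c ρ h) ≠ 0 := by
    by_contra hcon
    refine hm ((hasMean_of_elem (cj c ρ).range ?_).of_surjective
      (MonoidHom.ofInjective hinj').symm.toMonoidHom (MonoidHom.ofInjective hinj').symm.surjective)
    rintro _ ⟨h, rfl⟩
    by_contra h'
    exact hcon ⟨h, not_or.1 h'⟩
  refine Free.of_cj (c := c) (d := 1) (pingpong' v g h z 1 hz (by simp [cj_apply]) ?_ h0 h0')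
  have hz0 := v.pos (ne_zero_of_unit hz)
  simp only [map_one, inv_one, max_self, map_inv₀, lt_max_iff]
  rcases lt_or_gt_of_ne hv with h | h
  · exact Or.inr ((one_lt_inv₀ hz0).2 h)
  · exact Or.inl h

def JInj (ρ₁ ρ₂ : Γ →* U) : Prop := ∀ g, ρ₁ g = 1 → ρ₂ g = 1 → g = 1

theorem JInj.symm (h : JInj ρ₁ ρ₂) : JInj ρ₂ ρ₁ := fun g a b => h g b a

theorem JInj.cj (h : JInj ρ₁ ρ₂) (c d : U) : JInj (cj c ρ₁) (cj d ρ₂) := fun g a b =>
  h g ((MulAut.conj c⁻¹).injective (a.trans (map_one _).symm))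
    ((MulAut.conj d⁻¹).injective (b.trans (map_one _).symm))

theorem exists_generic_elt (hj : JInj ρ₁ ρ₂) (hm : ¬ HasMean Γ) (hf : ¬ Free ρ₁ ρ₂) :
    ∃ h, p0 (ρ₁ h) ≠ 0 ∧ p1 (ρ₁ h) ≠ 0 := by
  by_contra hcon
  have h1 : HasMean ρ₁.range := by
    refine hasMean_of_elem _ ?_
    rintro _ ⟨h, rfl⟩
    by_contra h'
    exact hcon ⟨h, not_or.1 h'⟩
  have h2 : ¬ HasMean ρ₁.ker := fun h => hm (HasMean.of_ker_range ρ₁ h h1)
  have h3 := tits (ρ := ρ₂.comp ρ₁.ker.subtype) ((injective_iff_map_eq_one _).2 fun g hg =>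
    Subtype.ext (hj g g.2 hg)) h2
  refine hf (Free.of_comp ρ₁.ker.subtype ?_)
  have : ρ₁.comp ρ₁.ker.subtype = 1 := MonoidHom.ext fun g => g.2
  rw [this]
  exact h3.symm

theorem max_inv_eq {a b : ℝ} (ha : 0 < a) (hb : 0 < b) (h : max a a⁻¹ = max b b⁻¹) :
    a = b ∨ a * b = 1 := by
  rcases max_choice a a⁻¹ with h1 | h1 <;> rcases max_choice b b⁻¹ with h2 | h2 <;>
    rw [h1, h2] at h
  · exact Or.inl h
  · exact Or.inr (by rw [h, inv_mul_cancel₀ hb.ne'])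
  · exact Or.inr (by rw [← h, mul_inv_cancel₀ ha.ne'])
  · exact Or.inl (inv_injective h)

theorem max_eq_of_not_free (hj : JInj ρ₁ ρ₂) (hm : ¬ HasMean Γ) (hf : ¬ Free ρ₁ ρ₂)
    (v : AbsoluteValue ℂ ℝ) (g : Γ) {c d : U} {l m : ℂ} (h1 : ((c⁻¹ * ρ₁ g * c : U) : ℍ) = l)
    (h2 : ((d⁻¹ * ρ₂ g * d : U) : ℍ) = m) : max (v l) (v l⁻¹) = max (v m) (v m⁻¹) := by
  rw [← cj_apply] at h1 h2
  have hf' : ¬ Free (cj c ρ₁) (cj d ρ₂) := fun h => hf h.of_cj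
  rcases lt_trichotomy (max (v l) (v l⁻¹)) (max (v m) (v m⁻¹)) with h | h | h
  · obtain ⟨k, a, b⟩ := exists_generic_elt (hj.cj c d).symm hm fun h => hf' h.symm
    exact absurd (pingpong' v g k m l h2 h1 h a b).symm hf'
  · exact h
  · obtain ⟨k, a, b⟩ := exists_generic_elt (hj.cj c d) hm hf'
    exact absurd (pingpong' v g k l m h1 h2 h a b) hf'

theorem eq_of_not_free (hj : JInj ρ₁ ρ₂) (hm : ¬ HasMean Γ) (hf : ¬ Free ρ₁ ρ₂)
    (v : AbsoluteValue ℂ ℝ) (g : Γ) {c d : U} {l m : ℂ} (h1 : ((c⁻¹ * ρ₁ g * c : U) : ℍ) = l)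
    (h2 : ((d⁻¹ * ρ₂ g * d : U) : ℍ) = m) : v l = v m ∨ v l * v m = 1 := by
  have := max_eq_of_not_free hj hm hf v g h1 h2
  rw [map_inv₀, map_inv₀] at this
  exact max_inv_eq (v.pos (ne_zero_of_unit h1)) (v.pos (ne_zero_of_unit h2)) this

theorem abs_trace_sub (v : AbsoluteValue ℂ ℝ) {z : ℂ} (hz : z ≠ 0) :
    |v (z + z⁻¹) - max (v z) (v z⁻¹)| ≤ 1 := by
  have h1 := v.add_le z z⁻¹
  have h2 := v.le_add z z⁻¹
  have h3 := v.le_add z⁻¹ z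
  rw [add_comm z⁻¹] at h3
  have h4 : v z ≤ 1 ∨ v z⁻¹ ≤ 1 := by
    rw [map_inv₀]
    rcases le_total (v z) 1 with h | h
    · exact Or.inl h
    · exact Or.inr (inv_le_one_of_one_le₀ h)
  have h5 : v z * v z⁻¹ = 1 := by rw [← map_mul, mul_inv_cancel₀ hz, map_one]
  have h6 := v.nonneg z
  have h7 := v.nonneg z⁻¹
  rw [abs_le]
  rcases le_total (v z) (v z⁻¹) with h | h
  · rw [max_eq_right h]
    have : v z ≤ 1 := by nlinarith
    constructor <;> linarith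
  · rw [max_eq_left h]
    have : v z⁻¹ ≤ 1 := by nlinarith
    constructor <;> linarith

theorem trace_close (hj : JInj ρ₁ ρ₂) (hm : ¬ HasMean Γ) (hf : ¬ Free ρ₁ ρ₂)
    (v : AbsoluteValue ℂ ℝ) (g : Γ) :
    |v (p0 (ρ₁ g) + conj (p0 (ρ₁ g))) - v (p0 (ρ₂ g) + conj (p0 (ρ₂ g)))| ≤ 2 := by
  obtain ⟨c, l, h1⟩ := exists_diag (ρ₁ g)
  obtain ⟨d, m, h2⟩ := exists_diag (ρ₂ g)
  have key : ∀ {u c : U} {l : ℂ}, ((c⁻¹ * u * c : U) : ℍ) = l →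
      p0 u + conj (p0 u) = l + l⁻¹ := by
    intro u c l h
    rw [← conj_eq_inv h, Complex.add_conj, Complex.add_conj]
    congr 2
    have := re_conj c u
    rw [h] at this
    exact this.symm
  have a1 := abs_trace_sub v (ne_zero_of_unit h1)
  have a2 := abs_trace_sub v (ne_zero_of_unit h2)
  rw [key h1, key h2]
  rw [max_eq_of_not_free hj hm hf v g h1 h2] at a1
  rw [abs_le] at *
  constructor <;> linarith [a1.1, a1.2, a2.1, a2.2]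

theorem asym (v : AbsoluteValue ℂ ℝ) {L a₁ b₁ a₂ b₂ : ℂ} (hL : 1 < v L)
    (h : ∀ n : ℕ, |v (L ^ n * a₁ + (L ^ n)⁻¹ * b₁) - v (L ^ n * a₂ + (L ^ n)⁻¹ * b₂)| ≤ 2) :
    v a₁ = v a₂ := by
  by_contra hne
  have hd : 0 < |v a₁ - v a₂| := abs_pos.2 (sub_ne_zero.2 hne)
  obtain ⟨n, hn⟩ := ((tendsto_pow_atTop_atTop_of_one_lt hL).eventually_gt_atTop
    ((2 + v b₁ + v b₂) / |v a₁ - v a₂|)).exists
  rw [div_lt_iff₀ hd] at hn
  have key : ∀ a b : ℂ, |v (L ^ n * a + (L ^ n)⁻¹ * b) - v L ^ n * v a| ≤ v b := by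
    intro a b
    have h1 := v.add_le (L ^ n * a) ((L ^ n)⁻¹ * b)
    have h2 := v.le_add (L ^ n * a) ((L ^ n)⁻¹ * b)
    have h3 : v ((L ^ n)⁻¹ * b) ≤ v b := by
      rw [map_mul, map_inv₀, map_pow]
      exact mul_le_of_le_one_left (v.nonneg _) (inv_le_one_of_one_le₀ (one_le_pow₀ hL.le))
    rw [map_mul, map_pow] at h1 h2
    rw [abs_le]
    constructor <;> linarith
  have k1 := abs_le.1 (key a₁ b₁)
  have k2 := abs_le.1 (key a₂ b₂)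
  have k3 := abs_le.1 (h n)
  have : v L ^ n * |v a₁ - v a₂| ≤ 2 + v b₁ + v b₂ := by
    rw [← abs_of_pos (pow_pos (zero_lt_one.trans hL) n), ← abs_mul, abs_le]
    constructor <;> linarith [k1.1, k1.2, k2.1, k2.2, k3.1, k3.2]
  linarith

theorem abs_p0_eq (hj : JInj ρ₁ ρ₂) (hm : ¬ HasMean Γ) (hf : ¬ Free ρ₁ ρ₂)
    (v : AbsoluteValue ℂ ℝ) {g : Γ} {l : ℂ} (h1 : (ρ₁ g : ℍ) = l) (h2 : (ρ₂ g : ℍ) = l)
    (hl : 1 < v l) (h : Γ) :
    v (p0 (ρ₁ h) * conj (p0 (ρ₁ h))) = v (p0 (ρ₂ h) * conj (p0 (ρ₂ h))) := by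
  have hc : ∀ n : ℕ, conj (l ^ n) = (l ^ n)⁻¹ := fun n => conj_eq_inv (unit_pow h1 n)
  have e1 : v (p0 (ρ₁ h)) = v (p0 (ρ₂ h)) := by
    refine asym v hl (b₁ := conj (p0 (ρ₁ h))) (b₂ := conj (p0 (ρ₂ h))) fun n => ?_
    have := trace_close hj hm hf v (g ^ n * h)
    simpa only [map_mul, map_pow ρ₁, map_pow ρ₂, Submonoid.coe_mul, unit_pow h1, unit_pow h2,
      p0_coe_mul, hc] using this
  have e2 : v (conj (p0 (ρ₁ h))) = v (conj (p0 (ρ₂ h))) := by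
    refine asym v hl (b₁ := p0 (ρ₁ h)) (b₂ := p0 (ρ₂ h)) fun n => ?_
    have := trace_close hj hm hf v ((g ^ n)⁻¹ * h)
    simpa only [map_mul, map_inv, map_pow ρ₁, map_pow ρ₂, Submonoid.coe_mul,
      unit_inv (unit_pow h1 n), unit_inv (unit_pow h2 n), p0_coe_mul, map_inv₀, hc, inv_inv,
      add_comm] using this
  rw [map_mul, map_mul, e1, e2]

theorem normSq_p0_eq (hj : JInj ρ₁ ρ₂) (hm : ¬ HasMean Γ) (hf : ¬ Free ρ₁ ρ₂)
    {g : Γ} {l : ℂ} (h1 : (ρ₁ g : ℍ) = l) (h2 : (ρ₂ g : ℍ) = l) (hl : Transcendental ℚ l)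
    (h : Γ) : p0 (ρ₁ h) * conj (p0 (ρ₁ h)) = p0 (ρ₂ h) * conj (p0 (ρ₂ h)) := by
  have key : ∀ v : AbsoluteValue ℂ ℝ, v l ≠ 1 →
      v (p0 (ρ₁ h) * conj (p0 (ρ₁ h))) = v (p0 (ρ₂ h) * conj (p0 (ρ₂ h))) := by
    intro v hv
    rcases lt_or_gt_of_ne hv with h' | h'
    · refine abs_p0_eq hj hm hf v (g := g⁻¹) (l := l⁻¹) (by rw [map_inv, unit_inv h1])
        (by rw [map_inv, unit_inv h2]) ?_ h
      rw [map_inv₀]
      exact (one_lt_inv₀ (v.pos (ne_zero_of_unit h1))).2 h'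
    · exact abs_p0_eq hj hm hf v h1 h2 h' h
  simp only [Complex.mul_conj] at key ⊢
  set A := Complex.normSq (p0 (ρ₁ h))
  set B := Complex.normSq (p0 (ρ₂ h))
  have hA : 0 ≤ A := Complex.normSq_nonneg _
  have hB : 0 ≤ B := Complex.normSq_nonneg _
  obtain ⟨v0, hv0, -⟩ := exists_abs_two hl (r := 2) two_ne_zero fun n hn h => by
    have : (2 : ℕ) ^ n = 1 := by exact_mod_cast h
    simp [hn.ne'] at this
  have k0 := key v0 hv0
  by_cases hB0 : B = 0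
  · rw [hB0, Complex.ofReal_zero, map_zero, v0.eq_zero] at k0
    rw [k0, hB0, Complex.ofReal_zero]
  have hA0 : A ≠ 0 := by
    intro hA0
    rw [hA0, Complex.ofReal_zero, map_zero, eq_comm, v0.eq_zero] at k0
    exact hB0 (by exact_mod_cast k0)
  by_contra hne
  have hB' : (B : ℂ) ≠ 0 := by exact_mod_cast hB0
  obtain ⟨v, hv, hv'⟩ := exists_abs_two hl (r := (A : ℂ) / B)
    (div_ne_zero (by exact_mod_cast hA0) hB') fun n hn h => by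
      have h3 : (A / B) ^ n = 1 := by exact_mod_cast h
      have h4 := (pow_eq_one_iff_of_nonneg (div_nonneg hA hB) hn.ne').1 h3
      exact hne (by rw [(div_eq_one_iff_eq hB0).1 h4])
  exact hv' (by rw [map_div₀, key v hv, div_self (v.pos hB').ne'])

def PM (ρ₁ ρ₂ : Γ →* U) (x : ℍ) (g : Γ) : Prop :=
  (ρ₁ g : ℍ) * x = x * ρ₂ g ∨ (ρ₁ g : ℍ) * x = -(x * ρ₂ g)

theorem PM.mul {x : ℍ} {g h : Γ} (hg : PM ρ₁ ρ₂ x g) (hh : PM ρ₁ ρ₂ x h) :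
    PM ρ₁ ρ₂ x (g * h) := by
  unfold PM at *
  simp only [map_mul, Submonoid.coe_mul, mul_assoc]
  rcases hg with hg | hg <;> rcases hh with hh | hh <;>
    simp only [hh, mul_neg, ← mul_assoc, hg, neg_mul, neg_neg, true_or, or_true]

theorem PM.of_mul {x : ℍ} {g h : Γ} (hg : PM ρ₁ ρ₂ x (g * h)) (hh : PM ρ₁ ρ₂ x h) :
    PM ρ₁ ρ₂ x g := by
  unfold PM at *
  simp only [map_mul, Submonoid.coe_mul, mul_assoc] at hg
  have h0 := unit_ne_zero (ρ₂ h)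
  rcases hg with hg | hg <;> rcases hh with hh | hh <;> rw [hh] at hg
  · exact Or.inl (mul_right_cancel₀ h0 (by simpa only [mul_assoc] using hg))
  · exact Or.inr (mul_right_cancel₀ h0 (by
      rw [mul_neg, neg_eq_iff_eq_neg] at hg; simpa only [mul_assoc, neg_mul] using hg))
  · exact Or.inr (mul_right_cancel₀ h0 (by simpa only [mul_assoc, neg_mul] using hg))
  · exact Or.inl (mul_right_cancel₀ h0 (by
      rw [mul_neg, neg_inj] at hg; simpa only [mul_assoc] using hg))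

theorem pm_of_norm_eq {g : Γ} {l : ℂ} (h1 : (ρ₁ g : ℍ) = l) (h2 : (ρ₂ g : ℍ) = l)
    (hl : l ^ 4 ≠ 1)
    (hn : ∀ h, p0 (ρ₁ h) * conj (p0 (ρ₁ h)) = p0 (ρ₂ h) * conj (p0 (ρ₂ h)))
    {h₀ : Γ} (a0 : p0 (ρ₁ h₀) ≠ 0) (a1 : p1 (ρ₁ h₀) ≠ 0) :
    ∃ x : ℍ, x ≠ 0 ∧ ∀ γ, PM ρ₁ ρ₂ x γ := by
  have hl0 := ne_zero_of_unit h1
  have hc := conj_eq_inv h1
  have hn' : ∀ h, p1 (ρ₁ h) * conj (p1 (ρ₁ h)) = p1 (ρ₂ h) * conj (p1 (ρ₂ h)) := fun h => by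
    linear_combination unit_p (ρ₁ h) - unit_p (ρ₂ h) - hn h
  have star : ∀ h k, p0 (ρ₁ h) * p0 (ρ₁ k) * p1 (ρ₁ h) * conj (p1 (ρ₁ k)) =
      p0 (ρ₂ h) * p0 (ρ₂ k) * p1 (ρ₂ h) * conj (p1 (ρ₂ k)) := by
    intro h k
    have e0 := hn (h * k)
    have e1 := hn (h * (g * k))
    simp only [map_mul, Submonoid.coe_mul, h1, h2, p0_mul (ρ₁ h), p0_mul (ρ₂ h), p0_coe_mul,
      p1_coe_mul, map_sub, Complex.conj_conj, hc, map_inv₀, inv_inv] at e0 e1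
    have f1 := hn h
    have f2 := hn k
    have f3 := hn' h
    have f4 := hn' k
    have hl' : l * l⁻¹ = 1 := mul_inv_cancel₀ hl0
    set D := p0 (ρ₁ h) * p0 (ρ₁ k) * p1 (ρ₁ h) * conj (p1 (ρ₁ k)) -
      p0 (ρ₂ h) * p0 (ρ₂ k) * p1 (ρ₂ h) * conj (p1 (ρ₂ k)) with hD
    set D' := conj (p0 (ρ₁ h)) * conj (p0 (ρ₁ k)) * conj (p1 (ρ₁ h)) * p1 (ρ₁ k) -
      conj (p0 (ρ₂ h)) * conj (p0 (ρ₂ k)) * conj (p1 (ρ₂ h)) * p1 (ρ₂ k) with hD'
    have g1 : p0 (ρ₁ h) * conj (p0 (ρ₁ h)) * (p0 (ρ₁ k) * conj (p0 (ρ₁ k))) =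
        p0 (ρ₂ h) * conj (p0 (ρ₂ h)) * (p0 (ρ₂ k) * conj (p0 (ρ₂ k))) := by rw [f1, f2]
    have g2 : p1 (ρ₁ h) * conj (p1 (ρ₁ h)) * (p1 (ρ₁ k) * conj (p1 (ρ₁ k))) =
        p1 (ρ₂ h) * conj (p1 (ρ₂ h)) * (p1 (ρ₂ k) * conj (p1 (ρ₂ k))) := by rw [f3, f4]
    have d0 : D + D' = 0 := by
      rw [hD, hD']
      linear_combination -e0 + g1 + g2
    have d1 : l * l * D + l⁻¹ * l⁻¹ * D' = 0 := by
      rw [hD, hD']
      linear_combination -e1 + (l * l⁻¹) * g1 + (l * l⁻¹) * g2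
    have d2 : (l ^ 4 - 1) * D = 0 := by
      linear_combination (l * l) * d1 - d0 - (l * l⁻¹ + 1) * D' * hl'
    exact sub_eq_zero.1 ((mul_eq_zero.1 d2).resolve_left (sub_ne_zero.2 hl))
  have hcz : ∀ {z : ℂ}, z ≠ 0 → conj z ≠ 0 := fun h => (map_ne_zero _).2 h
  have sgn : ∀ h, p1 (ρ₁ h) ≠ 0 → ∃ ε : ℂ, (ε = 1 ∨ ε = -1) ∧ p0 (ρ₂ h) = ε * p0 (ρ₁ h) := by
    intro h b1
    have e := star h h
    rw [mul_assoc _ (p1 (ρ₂ h)), ← hn', mul_assoc _ (p1 (ρ₁ h))] at e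
    have e' := mul_right_cancel₀ (mul_ne_zero b1 (hcz b1)) e
    rcases mul_self_eq_mul_self_iff.1 e'.symm with h' | h'
    · exact ⟨1, Or.inl rfl, by rw [h', one_mul]⟩
    · exact ⟨-1, Or.inr rfl, by rw [h', neg_one_mul]⟩
  obtain ⟨ε₀, hε₀, e₀⟩ := sgn h₀ a1
  have hε₀2 : ε₀ * ε₀ = 1 := by rcases hε₀ with rfl | rfl <;> norm_num
  have hε₀c : conj ε₀ = ε₀ := by rcases hε₀ with rfl | rfl <;> simp
  set ω := ε₀ * p1 (ρ₂ h₀) / p1 (ρ₁ h₀) with hω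
  have hω1 : p1 (ρ₂ h₀) = ε₀ * ω * p1 (ρ₁ h₀) := by
    rw [hω]; field_simp; linear_combination (-p1 (ρ₂ h₀)) * hε₀2
  have hω2 : ω * conj ω = 1 := by
    have := hn' h₀
    rw [hω1] at this
    simp only [map_mul, hε₀c] at this
    refine mul_right_cancel₀ (mul_ne_zero a1 (hcz a1)) ?_
    linear_combination -this - ω * conj ω * (p1 (ρ₁ h₀) * conj (p1 (ρ₁ h₀))) * hε₀2
  obtain ⟨x, hx⟩ := IsAlgClosed.exists_eq_mul_self ω
  have hx1 : x * conj x = 1 := by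
    rw [hx, map_mul] at hω2
    have h3 : (Complex.normSq x : ℂ) * Complex.normSq x = 1 := by
      rw [← Complex.mul_conj]; linear_combination hω2
    have h4 : Complex.normSq x * Complex.normSq x = 1 := by exact_mod_cast h3
    have h5 : Complex.normSq x = 1 := by nlinarith [Complex.normSq_nonneg x]
    rw [Complex.mul_conj, h5, Complex.ofReal_one]
  have gen : ∀ γ, p0 (ρ₁ γ) ≠ 0 → p1 (ρ₁ γ) ≠ 0 → PM ρ₁ ρ₂ x γ := by
    intro γ b0 b1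
    obtain ⟨ε, hε, e⟩ := sgn γ b1
    have hε2 : ε * ε = 1 := by rcases hε with rfl | rfl <;> norm_num
    have e2 := star γ h₀
    rw [e, e₀, hω1] at e2
    simp only [map_mul, hε₀c] at e2
    have e3 : p1 (ρ₁ γ) = ε * conj ω * p1 (ρ₂ γ) := by
      refine mul_right_cancel₀ (mul_ne_zero (mul_ne_zero b0 a0) (hcz a1)) ?_
      linear_combination e2 + ε * conj ω * p1 (ρ₂ γ) * p0 (ρ₁ γ) * p0 (ρ₁ h₀) *
        conj (p1 (ρ₁ h₀)) * hε₀2
    rw [hx, map_mul] at e3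
    rcases hε with rfl | rfl
    · refine Or.inl (ext_p ?_ ?_)
      · rw [p0_mul, p0_coe_mul, e]; simp [mul_comm]
      · rw [p1_mul, p1_coe_mul, e3]
        simp only [p0_coe, p1_coe, mul_zero, add_zero]
        linear_combination conj x * p1 (ρ₂ γ) * hx1
    · refine Or.inr (ext_p ?_ ?_)
      · rw [p0_neg, p0_mul, p0_coe_mul, e]; simp [mul_comm]
      · rw [p1_neg, p1_mul, p1_coe_mul, e3]
        simp only [p0_coe, p1_coe, mul_zero, add_zero]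
        linear_combination -conj x * p1 (ρ₂ γ) * hx1
  refine ⟨x, fun h => ?_, fun γ => ?_⟩
  · have : x = 0 := coeComplex_injective (w := 0) h
    simp [this] at hx1
  · by_cases b : p0 (ρ₁ γ) ≠ 0 ∧ p1 (ρ₁ γ) ≠ 0
    · exact gen γ b.1 b.2
    · refine (gen (γ * h₀) ?_ ?_).of_mul (gen h₀ a0 a1)
      all_goals
        have hu := unit_p (ρ₁ γ)
        rw [map_mul, Submonoid.coe_mul]
        simp only [p0_mul, p1_mul]
        by_cases b0 : p0 (ρ₁ γ) = 0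
        · have b1 : p1 (ρ₁ γ) ≠ 0 := fun h => by simp [h, b0] at hu
          simp [b0, b1, a0, a1]
        · have b1 : p1 (ρ₁ γ) = 0 := by tauto
          simp [b0, b1, a0, a1]

theorem PM.of_cj {c d : U} {x : ℍ} {γ : Γ} (h : PM (cj c ρ₁) (cj d ρ₂) x γ) :
    PM ρ₁ ρ₂ (c * x * (d⁻¹ : U)) γ := by
  unfold PM at *
  simp only [cj_apply, Submonoid.coe_mul, mul_assoc] at h ⊢
  have hd : (d : ℍ) * (d⁻¹ : U) = 1 := by
    rw [← Submonoid.coe_mul, mul_inv_cancel, Submonoid.coe_one]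
  rcases h with h | h
  · left
    have := congrArg (fun y => (c : ℍ) * y * (d⁻¹ : U)) h
    simpa only [mul_assoc, coe_mul_inv, hd, mul_one] using this
  · right
    have := congrArg (fun y => (c : ℍ) * y * (d⁻¹ : U)) h
    simpa only [mul_assoc, coe_mul_inv, hd, mul_one, mul_neg, neg_mul] using this

noncomputable def jU : U := ⟨jj, by
  rw [Unitary.mem_iff]
  constructor <;> ext <;> simp [jj]⟩

theorem jU_conj (z : ℂ) : ((jU⁻¹ : U) : ℍ) * z * jU = (conj z : ℂ) := by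
  rw [coe_inv]
  ext <;> simp [jU, jj]

theorem pm_of_transcendental (hj : JInj ρ₁ ρ₂) (hm : ¬ HasMean Γ) (hf : ¬ Free ρ₁ ρ₂)
    {g : Γ} {c d : U} {l m : ℂ} (h1 : ((c⁻¹ * ρ₁ g * c : U) : ℍ) = l)
    (h2 : ((d⁻¹ * ρ₂ g * d : U) : ℍ) = m) (hl : Transcendental ℚ l) :
    ∃ x : ℍ, x ≠ 0 ∧ ∀ γ, PM ρ₁ ρ₂ x γ := by
  have hl0 := ne_zero_of_unit h1
  have hm0 := ne_zero_of_unit h2
  have hE := fun v => eq_of_not_free hj hm hf v g h1 h2
  obtain ⟨d', n, hn, hd'⟩ : ∃ (d' : U) (n : ℕ), 0 < n ∧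
      ((d'⁻¹ * ρ₂ (g ^ n) * d' : U) : ℍ) = (l ^ n : ℂ) := by
    have hpow : ∀ n : ℕ, ((d⁻¹ * ρ₂ (g ^ n) * d : U) : ℍ) = (m ^ n : ℂ) := fun n => by
      rw [← cj_apply, map_pow, unit_pow (z := m) (by rw [cj_apply, h2])]
    by_cases a : ∃ n, 0 < n ∧ (l / m) ^ n = 1
    · obtain ⟨n, hn, a⟩ := a
      rw [div_pow, div_eq_one_iff_eq (pow_ne_zero _ hm0)] at a
      exact ⟨d, n, hn, by rw [hpow, a]⟩
    by_cases b : ∃ n, 0 < n ∧ (l * m) ^ n = 1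
    · obtain ⟨n, hn, b⟩ := b
      refine ⟨d * jU, n, hn, ?_⟩
      have : ((d * jU)⁻¹ * ρ₂ (g ^ n) * (d * jU) : U) = jU⁻¹ * (d⁻¹ * ρ₂ (g ^ n) * d) * jU := by
        simp only [mul_inv_rev, mul_assoc]
      rw [this, Submonoid.coe_mul, Submonoid.coe_mul, hpow, jU_conj, conj_eq_inv (hpow n)]
      rw [mul_pow] at b
      rw [eq_inv_of_mul_eq_one_left b]
    exfalso
    push Not at a b
    have hv : ∀ v : AbsoluteValue ℂ ℝ, v (l / m) ≠ 1 → v (l * m) ≠ 1 → False := by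
      intro v v1 v2
      rcases hE v with h | h
      · exact v1 (by rw [map_div₀, h, div_self (v.pos hm0).ne'])
      · exact v2 (by rw [map_mul, h])
    by_cases t : IsAlgebraic ℚ (l / m)
    · have t2 : Transcendental ℚ (l * m) := fun t2 => by
        have := t.mul t2
        rw [show l / m * (l * m) = l ^ 2 by field_simp] at this
        exact hl (this.of_pow two_pos)
      obtain ⟨v, v1, v2⟩ := exists_abs_two t2 (div_ne_zero hl0 hm0) a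
      exact hv v v2 v1
    · obtain ⟨v, v1, v2⟩ := exists_abs_two t (mul_ne_zero hl0 hm0) b
      exact hv v v1 v2
  have k1 : (cj c ρ₁ (g ^ n) : ℍ) = (l ^ n : ℂ) := by
    rw [map_pow, unit_pow (z := l) (by rw [cj_apply, h1])]
  rw [← cj_apply] at hd'
  have hf' : ¬ Free (cj c ρ₁) (cj d' ρ₂) := fun h => hf h.of_cj
  have ht : Transcendental ℚ (l ^ n) := hl.pow hn
  obtain ⟨h₀, a0, a1⟩ := exists_generic_elt (hj.cj c d') hm hf'
  obtain ⟨x, hx, hx'⟩ := pm_of_norm_eq k1 hd'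
    (fun h => ht (IsAlgebraic.of_pow four_pos (h ▸ isAlgebraic_one)))
    (normSq_p0_eq (hj.cj c d') hm hf' k1 hd' ht) a0 a1
  exact ⟨_, mul_ne_zero (mul_ne_zero (unit_ne_zero _) hx) (unit_ne_zero _),
    fun γ => (hx' γ).of_cj⟩

theorem PM.symm {x : ℍ} (hx : x ≠ 0) {γ : Γ} (h : PM ρ₁ ρ₂ x γ) : PM ρ₂ ρ₁ x⁻¹ γ := by
  rcases h with h | h
  · left
    rw [mul_inv_eq_iff_eq_mul₀ hx, mul_assoc, h, inv_mul_cancel_left₀ hx]
  · right
    rw [mul_inv_eq_iff_eq_mul₀ hx, neg_mul, mul_assoc, h, mul_neg, neg_neg,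
      inv_mul_cancel_left₀ hx]

end Pool.Agent.Lib.MP_bdc574_al
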