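import Mathlib
import Pool.Agent.Lib.MP_bdc574_al.Defs
import Pool.Agent.Lib.MP_bdc574_al.Gamma

namespace Pool.Agent.Lib.MP_bdc574_al

open Quaternion Polynomial
open scoped ComplexConjugate

abbrev E := EuclideanSpace ℝ (Fin 4)

noncomputable abbrev tau : ℍ ≃ₗᵢ[ℝ] E := Quaternion.linearIsometryEquivTuple

theorem coe_mul_inv' (c : U) : (c : ℍ) * (c⁻¹ : U) = 1 := by
  rw [← Submonoid.coe_mul, mul_inv_cancel, Submonoid.coe_one]

theorem coe_inv_mul' (c : U) : ((c⁻¹ : U) : ℍ) * c = 1 := by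
  rw [← Submonoid.coe_mul, inv_mul_cancel, Submonoid.coe_one]

noncomputable def lr (p q : U) : ℍ ≃ₗᵢ[ℝ] ℍ where
  toFun x := p * x * (q⁻¹ : U)
  invFun x := (p⁻¹ : U) * x * q
  map_add' x y := by simp only [mul_add, add_mul]
  map_smul' r x := by simp only [mul_smul_comm, smul_mul_assoc, RingHom.id_apply]
  left_inv x := by simp only [mul_assoc, coe_inv_mul, coe_inv_mul', mul_one]
  right_inv x := by simp only [mul_assoc, coe_mul_inv, coe_mul_inv', mul_one]
  norm_map' x := by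
    change ‖(p : ℍ) * x * (q⁻¹ : U)‖ = ‖x‖
    rw [norm_mul, norm_mul, CStarRing.norm_coe_unitary, CStarRing.norm_coe_unitary, one_mul,
      mul_one]

noncomputable def LL : U × U →* (E ≃ₗᵢ[ℝ] E) where
  toFun pq := (tau.symm.trans (lr pq.1 pq.2)).trans tau
  map_one' := by
    ext1 x
    change tau (((1 : U) : ℍ) * tau.symm x * ((1 : U)⁻¹ : U)) = x
    rw [inv_one, Submonoid.coe_one, one_mul, mul_one, LinearIsometryEquiv.apply_symm_apply]
  map_mul' a b := by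
    ext1 x
    change tau (((a.1 * b.1 : U) : ℍ) * tau.symm x * ((a.2 * b.2)⁻¹ : U)) =
      tau (a.1 * tau.symm (tau (b.1 * tau.symm x * (b.2⁻¹ : U))) * (a.2⁻¹ : U))
    simp only [LinearIsometryEquiv.symm_apply_apply, mul_inv_rev, Submonoid.coe_mul, mul_assoc]

theorem LL_apply (pq : U × U) (x : ℍ) :
    LL pq (tau x) = tau (pq.1 * x * (pq.2⁻¹ : U)) := by
  change tau (pq.1 * tau.symm (tau x) * (pq.2⁻¹ : U)) = _
  rw [LinearIsometryEquiv.symm_apply_apply]

def Rot (f : ℍ → ℍ) : Prop := ∃ p q : U, ∀ x, f x = p * x * (q⁻¹ : U)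
def Rev (f : ℍ → ℍ) : Prop := ∃ p q : U, ∀ x, f x = p * star x * (q⁻¹ : U)

theorem star_coe_inv (u : U) : star ((u⁻¹ : U) : ℍ) = u := by rw [coe_inv, star_star]

theorem Rev.comp_rev {f g : ℍ → ℍ} (hf : Rev f) (hg : Rev g) : Rot (f ∘ g) := by
  obtain ⟨p, q, h⟩ := hf
  obtain ⟨p', q', h'⟩ := hg
  refine ⟨p * q', q * p', fun x => ?_⟩
  simp only [Function.comp_apply, h, h', star_mul, star_star, star_coe_inv, mul_inv_rev,
    Submonoid.coe_mul, mul_assoc, ← coe_inv, inv_inv]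

theorem Rev.comp_rot {f g : ℍ → ℍ} (hf : Rev f) (hg : Rot g) : Rev (f ∘ g) := by
  obtain ⟨p, q, h⟩ := hf
  obtain ⟨p', q', h'⟩ := hg
  refine ⟨p * q', q * p', fun x => ?_⟩
  simp only [Function.comp_apply, h, h', star_mul, star_coe_inv, mul_inv_rev,
    Submonoid.coe_mul, mul_assoc, ← coe_inv, inv_inv]

theorem rev_reflection {v : ℍ} (hv : v ≠ 0) : Rev (Submodule.reflection (ℝ ∙ v)ᗮ) := by
  obtain ⟨u, r, hr, hu⟩ := exists_unit hv
  have hn : normSq v ≠ 0 := normSq_ne_zero.2 hv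
  have h1 : r ^ 2 * normSq v = 1 := by
    have := congrArg QuaternionAlgebra.re (Unitary.coe_star_mul_self u)
    rw [star_mul_self, hu, normSq_smul] at this
    exact this
  have h2 : r ^ 2 = (normSq v)⁻¹ := eq_inv_of_mul_eq_one_left h1
  refine ⟨-u, u⁻¹, fun x => ?_⟩
  rw [Submodule.reflection_orthogonal_apply, Submodule.reflection_singleton_apply, inv_inv,
    Unitary.coe_neg, hu, neg_mul, neg_mul, smul_mul_assoc, mul_smul_comm, smul_mul_assoc,
    smul_smul, ← sq, h2, neg_inj]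
  have h3 : ((‖v‖ : ℝ) : ℝ) ^ 2 = normSq v := by rw [normSq_eq_norm_mul_self, sq]
  have h4 : v * star x * v = (2 * (v * star x).re) • v - normSq v • x := by
    ext <;> simp [normSq_def'] <;> ring
  simp only [RCLike.ofReal_real_eq_id, id, h3, inner_def]
  rw [h4, smul_sub, smul_smul, smul_smul, inv_mul_cancel₀ hn, one_smul, ← Nat.cast_smul_eq_nsmul ℝ,
    smul_smul]
  congr 2
  push_cast
  field_simp

theorem rot_or_rev (f : ℍ ≃ₗᵢ[ℝ] ℍ) : Rot f ∨ Rev f := by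
  obtain ⟨l, -, rfl⟩ := f.reflections_generate_dim
  induction l with
  | nil => exact Or.inl ⟨1, 1, fun x => by simp⟩
  | cons v l ih =>
    rw [List.map_cons, List.prod_cons, LinearIsometryEquiv.coe_mul]
    by_cases hv : v = 0
    · have : ⇑(Submodule.reflection (ℝ ∙ v)ᗮ) = id := by
        funext x
        rw [Submodule.reflection_orthogonal_apply, Submodule.reflection_singleton_apply, hv]
        simp
      rw [this]
      exact ih
    · rcases ih with h | h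
      · exact Or.inr ((rev_reflection hv).comp_rot h)
      · exact Or.inl ((rev_reflection hv).comp_rev h)

noncomputable def act (g : E ≃ₗᵢ[ℝ] E) : ℍ → ℍ := fun x => tau.symm (g (tau x))

theorem act_mul (g h : E ≃ₗᵢ[ℝ] E) : act (g * h) = act g ∘ act h := by
  funext x
  simp only [act, Function.comp_apply, LinearIsometryEquiv.apply_symm_apply]
  rfl

theorem mem_range_of_rot {g : E ≃ₗᵢ[ℝ] E} (h : Rot (act g)) : g ∈ LL.range := by
  obtain ⟨p, q, h⟩ := h
  refine ⟨(p, q), ?_⟩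
  ext1 x
  obtain ⟨x, rfl⟩ := tau.surjective x
  rw [LL_apply, ← h, act, LinearIsometryEquiv.apply_symm_apply]

theorem rev_of_not_mem {g : E ≃ₗᵢ[ℝ] E} (h : g ∉ LL.range) : Rev (act g) :=
  (rot_or_rev ((tau.trans g).trans tau.symm)).resolve_left fun h' => h (mem_range_of_rot h')

theorem mul_mem_range {g h : E ≃ₗᵢ[ℝ] E} (hg : g ∉ LL.range) (hh : h ∉ LL.range) :
    g * h ∈ LL.range :=
  mem_range_of_rot (act_mul g h ▸ (rev_of_not_mem hg).comp_rev (rev_of_not_mem hh))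

noncomputable def Psi : Module.End ℝ E →ₐ[ℝ] Matrix (Fin 4) (Fin 4) ℂ :=
  (AlgHom.mapMatrix (Algebra.ofId ℝ ℂ)).comp
    (LinearMap.toMatrixAlgEquiv (EuclideanSpace.basisFun (Fin 4) ℝ).toBasis).toAlgHom

theorem Psi_apply (f : Module.End ℝ E) : Psi f =
    (LinearMap.toMatrix (EuclideanSpace.basisFun (Fin 4) ℝ).toBasis
      (EuclideanSpace.basisFun (Fin 4) ℝ).toBasis f).map (algebraMap ℝ ℂ) := rfl

abbrev lin (g : E ≃ₗᵢ[ℝ] E) : Module.End ℝ E := g.toLinearEquiv.toLinearMap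

theorem eig_iff (g : E ≃ₗᵢ[ℝ] E) (z : ℂ) : Eig g z ↔ z ∈ spectrum ℂ (Psi (lin g)) := by
  rw [Matrix.mem_spectrum_iff_isRoot_charpoly, Psi_apply, Matrix.charpoly_map,
    LinearMap.charpoly_toMatrix, IsRoot.def, eval_map_algebraMap, Eig]

theorem eig_of_quad {g : E ≃ₗᵢ[ℝ] E} {w : ℂ} (hw : conj w = w⁻¹) (hw0 : w ≠ 0) {x : E}
    (hx : x ≠ 0) (h : g (g x) - (2 * w.re) • g x + x = 0) : Eig g w ∨ Eig g w⁻¹ := by
  by_contra hcon
  rw [not_or, eig_iff, eig_iff, spectrum.notMem_iff, spectrum.notMem_iff] at hcon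
  have h1 := hcon.1.mul hcon.2
  have h2 : (algebraMap ℂ _ w - Psi (lin g)) * (algebraMap ℂ _ w⁻¹ - Psi (lin g)) =
      Psi (lin g * lin g - (2 * w.re) • lin g + 1) := by
    have : ((2 * w.re : ℝ) : ℂ) = w + w⁻¹ := by rw [← hw, Complex.add_conj]
    rw [map_add, map_sub, map_mul, map_smul, map_one, ← Complex.coe_smul, this, sub_mul, mul_sub,
      mul_sub, ← map_mul, mul_inv_cancel₀ hw0, map_one, ← Algebra.commutes, ← Algebra.smul_def,
      ← Algebra.smul_def, add_smul]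
    abel
  rw [h2, Matrix.isUnit_iff_isUnit_det, Psi_apply, ← RingHom.mapMatrix_apply, ← RingHom.map_det,
    LinearMap.det_toMatrix, isUnit_iff_ne_zero, _root_.map_ne_zero] at h1
  refine h1 (LinearMap.det_eq_zero_iff_ker_ne_bot.2 fun hk => hx ?_)
  exact LinearMap.ker_eq_bot'.1 hk x h

theorem eig_mul_self {g : E ≃ₗᵢ[ℝ] E} {z : ℂ} (h : Eig g z) : Eig (g * g) (z ^ 2) := by
  rw [eig_iff] at *
  have := spectrum.pow_mem_pow _ 2 h
  rwa [sq (Psi _), ← map_mul] at this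

theorem unit_sq (p : U) : (p : ℍ) * p = (2 * (p : ℍ).re) • (p : ℍ) - 1 := by
  have h1 := Unitary.coe_mul_star_self p
  have h2 : star (p : ℍ) = ((2 * (p : ℍ).re : ℝ) : ℍ) - p := by
    ext <;> simp
    ring
  rw [Unitary.coe_star, h2, mul_sub, mul_coe_eq_smul] at h1
  rw [← h1]
  abel

theorem quartic (p q : U) (x : ℍ) (f : ℍ → ℍ) (hf : ∀ x, f x = p * x * q) :
    f (f (f (f x))) - (2 * (p : ℍ).re * (2 * (q : ℍ).re)) • f (f (f x)) +
      ((2 * (p : ℍ).re) ^ 2 + (2 * (q : ℍ).re) ^ 2 - 2) • f (f x) -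
      (2 * (p : ℍ).re * (2 * (q : ℍ).re)) • f x + x = 0 := by
  set s := 2 * (p : ℍ).re
  set t := 2 * (q : ℍ).re
  have hp : ∀ y : ℍ, (p : ℍ) * (p * y) = s • ((p : ℍ) * y) - y := fun y => by
    rw [← mul_assoc, unit_sq, sub_mul, smul_mul_assoc, one_mul]
  have hq : (q : ℍ) * q = t • (q : ℍ) - 1 := unit_sq q
  simp only [hf, mul_assoc, hp, hq, mul_sub, sub_mul, mul_smul_comm, smul_mul_assoc, mul_one,
    mul_add, add_mul]
  module

theorem algebraic_of_eig {p q c d : U} {l m z : ℂ} (h1 : ((c⁻¹ * p * c : U) : ℍ) = l)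
    (h2 : ((d⁻¹ * q * d : U) : ℍ) = m) (hl : IsAlgebraic ℚ l) (hm : IsAlgebraic ℚ m)
    (h : Eig (LL (p, q)) z) : IsAlgebraic ℚ z := by
  set s := 2 * (p : ℍ).re with hs
  set t := 2 * ((q⁻¹ : U) : ℍ).re with ht
  have hs' : (s : ℂ) = l + l⁻¹ := by
    rw [← conj_eq_inv h1, Complex.add_conj, hs, ← re_conj c p, h1]; rfl
  have ht' : (t : ℂ) = m + m⁻¹ := by
    rw [← conj_eq_inv h2, Complex.add_conj, ht, coe_inv, re_star, ← re_conj d q, h2]; rfl
  set f := lin (LL (p, q)) with hf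
  have e1 : f ^ 4 - (s * t) • f ^ 3 + (s ^ 2 + t ^ 2 - 2) • f ^ 2 - (s * t) • f + 1 = 0 := by
    ext1 x
    obtain ⟨x, rfl⟩ := tau.surjective x
    have hfx : ∀ y, f (tau y) = tau (p * y * (q⁻¹ : U)) := fun y => LL_apply (p, q) y
    have := congrArg tau (quartic p q⁻¹ x _ fun _ => rfl)
    simp only [map_add, map_sub, map_smul, map_zero, ← hfx] at this
    simpa [pow_succ] using this
  let P : ℂ[X] := X ^ 4 - C ((s * t : ℝ) : ℂ) * X ^ 3 + C ((s ^ 2 + t ^ 2 - 2 : ℝ) : ℂ) * X ^ 2 -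
    C ((s * t : ℝ) : ℂ) * X + 1
  have e2 : aeval (Psi f) P = 0 := by
    have := congrArg Psi e1
    simp only [map_add, map_sub, map_smul, map_pow, map_one, map_zero] at this
    simp only [P, map_add, map_sub, map_mul, map_pow, aeval_X, aeval_C, map_one,
      ← Algebra.smul_def, Complex.coe_smul]
    exact this
  have e3 := spectrum.subset_polynomial_aeval (Psi f) P ⟨z, (eig_iff _ _).1 h, rfl⟩
  rw [e2, spectrum.zero_eq, Set.mem_singleton_iff] at e3
  simp only [P, eval_add, eval_sub, eval_mul, eval_pow, eval_X, eval_C, eval_one] at e3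
  push_cast at e3
  rw [hs', ht'] at e3
  have hl0 := ne_zero_of_unit h1
  have hm0 := ne_zero_of_unit h2
  have e4 : (z - l * m) * (z - l * m⁻¹) * (z - l⁻¹ * m) * (z - l⁻¹ * m⁻¹) = 0 := by
    rw [← e3]
    field_simp
    ring
  simp only [mul_eq_zero, sub_eq_zero] at e4
  rcases e4 with ((rfl | rfl) | rfl) | rfl
  · exact hl.mul hm
  · exact hl.mul hm.inv
  · exact hl.inv.mul hm
  · exact hl.inv.mul hm.inv

theorem eig_of_plane {g : E ≃ₗᵢ[ℝ] E} {w : ℂ} (hw : conj w = w⁻¹) (hw0 : w ≠ 0) {a b : ℍ}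
    (ha : a ≠ 0) (hb : b ≠ 0) (h : ∀ z : ℂ, g (tau (a * z * b)) = tau (a * (w * z : ℂ) * b)) :
    Eig g w ∨ Eig g w⁻¹ := by
  refine eig_of_quad hw hw0 (x := tau (a * (1 : ℂ) * b)) ?_ ?_
  · rw [map_ne_zero_iff _ tau.injective]
    simpa using ⟨ha, hb⟩
  · rw [h, h, ← map_smul, ← map_sub, ← map_add, map_eq_zero_iff _ tau.injective,
      ← smul_mul_assoc, ← mul_smul_comm, ← sub_mul, ← add_mul, ← mul_sub, ← mul_add]
    have h1 : w * conj w = 1 := by rw [hw, mul_inv_cancel₀ hw0]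
    have h2 := congrArg Complex.re h1
    simp only [Complex.mul_re, Complex.conj_re, Complex.conj_im, Complex.one_re] at h2
    have : ((w * (w * 1) : ℂ) : ℍ) - (2 * w.re) • ((w * 1 : ℂ) : ℍ) + ((1 : ℂ) : ℍ) = 0 := by
      ext <;> simp
      · linear_combination -h2
      · ring
    rw [this, mul_zero, zero_mul]

theorem jj_mul (z : ℂ) : (z : ℍ) * jj = jj * (conj z : ℂ) := by
  ext <;> simp [jj]

theorem eig_LL {p q c d : U} {l m : ℂ} (h1 : ((c⁻¹ * p * c : U) : ℍ) = l)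
    (h2 : ((d⁻¹ * q * d : U) : ℍ) = m) :
    (Eig (LL (p, q)) (l * m⁻¹) ∨ Eig (LL (p, q)) (l * m⁻¹)⁻¹) ∧
      (Eig (LL (p, q)) (l * m)⁻¹ ∨ Eig (LL (p, q)) (l * m)⁻¹⁻¹) := by
  have hl0 := ne_zero_of_unit h1
  have hm0 := ne_zero_of_unit h2
  have hl := conj_eq_inv h1
  have hm := conj_eq_inv h2
  have e1 : ∀ y, (p : ℍ) * (c * y) = c * (l * y) := fun y => by
    rw [← h1]; simp only [Submonoid.coe_mul, mul_assoc, coe_mul_inv]
  have e2 : ((d⁻¹ : U) : ℍ) * (q⁻¹ : U) = (m⁻¹ : ℂ) * (d⁻¹ : U) := by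
    rw [← unit_inv h2, ← Submonoid.coe_mul, ← Submonoid.coe_mul]
    simp [mul_assoc]
  constructor
  · refine eig_of_plane (by simp [hl, hm, mul_comm]) (by simp [hl0, hm0]) (unit_ne_zero c)
      (unit_ne_zero d⁻¹) fun z => ?_
    rw [LL_apply]
    simp only [mul_assoc, e1, e2]
    simp only [← mul_assoc (_ : ℍ) _ ((d⁻¹ : U) : ℍ), ← coeComplex_mul]
    congr 4
    ring
  · refine eig_of_plane (a := c * jj) (by simp [hl, hm, mul_comm]) (by simp [hl0, hm0])
      (mul_ne_zero (unit_ne_zero c) fun h => by simpa using congrArg p1 h)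
      (unit_ne_zero d⁻¹) fun z => ?_
    rw [LL_apply]
    simp only [mul_assoc, e1, e2]
    rw [← mul_assoc (l : ℍ), jj_mul, hl]
    simp only [mul_assoc]
    simp only [← mul_assoc (_ : ℍ) _ ((d⁻¹ : U) : ℍ), ← coeComplex_mul]
    congr 5
    ring

theorem eig_rev {g : E ≃ₗᵢ[ℝ] E} (h : g ∉ LL.range) : Eig g 1 ∨ Eig g (-1) := by
  obtain ⟨p, q, h⟩ := rev_of_not_mem h
  have h' : ∀ x, g (tau x) = tau (p * star x * (q⁻¹ : U)) := fun x => by
    rw [← h, act, LinearIsometryEquiv.apply_symm_apply]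
  have a1 : g (tau p) = tau (q⁻¹ : U) := by
    rw [h', ← coe_inv, coe_mul_inv', one_mul]
  have a2 : g (tau (q⁻¹ : U)) = tau p := by
    rw [h', star_coe_inv, mul_assoc, coe_mul_inv', mul_one]
  by_cases h0 : tau p + tau (q⁻¹ : U) = 0
  · have hp : tau (p : ℍ) ≠ 0 := (map_ne_zero_iff _ tau.injective).2 (unit_ne_zero p)
    have := eig_of_quad (g := g) (w := -1) (by simp) (by simp) hp (by
      rw [a1, a2, eq_neg_of_add_eq_zero_right h0]
      simp only [Complex.neg_re, Complex.one_re]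
      module)
    exact Or.inr (by simpa using this)
  · have := eig_of_quad (g := g) (w := 1) (by simp) (by simp) h0 (by
      simp only [map_add, a1, a2, Complex.one_re]
      module)
    exact Or.inl (by simpa using this)

end Pool.Agent.Lib.MP_bdc574_al
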