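import Mathlib
import Pool.Agent.Lib.MP_bdc574_al.Iso

namespace Pool.Agent.Lib.MP_bdc574_al

open Quaternion

def Cond (G : Subgroup (E ≃ₗᵢ[ℝ] E)) : Prop :=
  ∀ (H : Subgroup G) [H.Normal], HasMean (G ⧸ H) → ∀ x : E, x ≠ 0 → ¬ ∀ h : G, h ∈ H → h.1 x = x

variable {G : Subgroup (E ≃ₗᵢ[ℝ] E)}

theorem Cond.infinite_orbit (hG : Cond G) {x : E} (hx : x ≠ 0) :
    ¬ (Set.range fun g : G => g.1 x).Finite := by
  intro hfin
  let _ : MulAction G E :=
    { smul := fun g y => g.1 y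
      one_smul := fun _ => rfl
      mul_smul := fun _ _ _ => rfl }
  have h1 : Finite (MulAction.orbit G x) := hfin
  have h2 : Finite (G ⧸ MulAction.stabilizer G x) :=
    Finite.of_equiv _ (MulAction.orbitEquivQuotientStabilizer G x)
  have h3 : (MulAction.stabilizer G x).FiniteIndex := Subgroup.finiteIndex_of_finite_quotient
  exact hG (MulAction.stabilizer G x).normalCore hasMean_of_finite x hx
    fun h hh => Subgroup.normalCore_le _ hh

noncomputable def r1 (G : Subgroup (E ≃ₗᵢ[ℝ] E)) : G.comap LL →* U :=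
  (MonoidHom.fst U U).comp (G.comap LL).subtype

noncomputable def r2 (G : Subgroup (E ≃ₗᵢ[ℝ] E)) : G.comap LL →* U :=
  (MonoidHom.snd U U).comp (G.comap LL).subtype

theorem jinj (G : Subgroup (E ≃ₗᵢ[ℝ] E)) : JInj (r1 G) (r2 G) := fun _ h1 h2 =>
  Subtype.ext (Prod.ext h1 h2)

theorem tau_one_ne : tau 1 ≠ 0 := (map_ne_zero_iff _ tau.injective).2 one_ne_zero

theorem Cond.not_hasMean (hG : Cond G) : ¬ HasMean (G.comap LL) := by
  intro h
  let ψ : G.comap LL →* G := (LL.comp (G.comap LL).subtype).codRestrict G fun x => x.2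
  have h1 : HasMean ψ.range := h.of_surjective ψ.rangeRestrict ψ.rangeRestrict_surjective
  have h2 : ∀ g : G, g ∈ ψ.range ↔ g.1 ∈ LL.range := by
    intro g
    constructor
    · rintro ⟨x, rfl⟩
      exact ⟨x, rfl⟩
    · rintro ⟨x, hx⟩
      exact ⟨⟨x, by rw [Subgroup.mem_comap, hx]; exact g.2⟩, Subtype.ext hx⟩
  have h3 : HasMean G := h1.of_index_two _ fun a b ha hb =>
    (h2 _).2 (mul_mem_range (mt (h2 a).2 ha) (mt (h2 b).2 hb))
  refine hG ⊥ (h3.of_surjective (QuotientGroup.mk' _) (QuotientGroup.mk'_surjective _)) _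
    tau_one_ne fun g hg => ?_
  rw [Subgroup.mem_bot.1 hg]
  rfl

theorem Cond.not_pm (hG : Cond G) {x : ℍ} (hx : x ≠ 0) : ¬ ∀ γ, PM (r1 G) (r2 G) x γ := by
  intro h
  have h1 : ∀ g ∈ G, g ∈ LL.range → g (tau x) = tau x ∨ g (tau x) = -tau x := by
    rintro _ hg ⟨pq, rfl⟩
    rw [LL_apply]
    rcases h ⟨pq, hg⟩ with h' | h'
    · left
      have h'' : (pq.1 : ℍ) * x = x * pq.2 := h'
      rw [h'', mul_assoc, coe_mul_inv', mul_one]
    · right
      have h'' : (pq.1 : ℍ) * x = -(x * pq.2) := h'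
      rw [h'', neg_mul, mul_assoc, coe_mul_inv', mul_one, map_neg]
  refine hG.infinite_orbit ((map_ne_zero_iff _ tau.injective).2 hx) ?_
  by_cases hr : ∃ r ∈ G, r ∉ LL.range
  · obtain ⟨r, hr, hr'⟩ := hr
    refine (Set.toFinite {tau x, -tau x, r (tau x), -r (tau x)}).subset ?_
    rintro _ ⟨g, rfl⟩
    by_cases hg : g.1 ∈ LL.range
    · rcases h1 _ g.2 hg with h' | h' <;> simp only [h', Set.mem_insert_iff, true_or, or_true]
    · have h2 := h1 (r⁻¹ * g.1) (G.mul_mem (G.inv_mem hr) g.2)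
        (mul_mem_range (fun h' => hr' (by simpa using h')) hg)
      have h3 : g.1 (tau x) = r ((r⁻¹ * g.1) (tau x)) := (r.apply_symm_apply _).symm
      rcases h2 with h' | h' <;> rw [h'] at h3 <;>
        simp only [h3, map_neg, Set.mem_insert_iff, Set.mem_singleton_iff, true_or, or_true]
  · push Not at hr
    refine (Set.toFinite {tau x, -tau x}).subset ?_
    rintro _ ⟨g, rfl⟩
    exact h1 _ g.2 (hr _ g.2)

theorem Cond.free (hG : Cond G)
    (h : (∃ g ∈ G, ∃ z, Eig g z ∧ Transcendental ℚ z) ∨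
      ∃ g ∈ G, ∃ v : AbsoluteValue ℂ ℝ, ∀ z, Eig g z → v z ≠ 1) : Free (r1 G) (r2 G) := by
  by_contra hf
  have hm := hG.not_hasMean
  rcases h with ⟨g, hg, z, hz, ht⟩ | ⟨g, hg, v, hv⟩
  · obtain ⟨⟨p, q⟩, hpq⟩ : g * g ∈ LL.range := by
      by_cases h : g ∈ LL.range
      · exact mul_mem h h
      · exact mul_mem_range h h
    have h0 : (p, q) ∈ G.comap LL := by rw [Subgroup.mem_comap, hpq]; exact mul_mem hg hg
    obtain ⟨c, l, h1⟩ := exists_diag p
    obtain ⟨d, m, h2⟩ := exists_diag q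
    have h3 := eig_mul_self hz
    rw [← hpq] at h3
    by_cases hl : IsAlgebraic ℚ l
    · have hm' : Transcendental ℚ m := fun hm' =>
        ht ((algebraic_of_eig h1 h2 hl hm' h3).of_pow two_pos)
      obtain ⟨x, hx, hx'⟩ := pm_of_transcendental (jinj G).symm hm (fun h => hf h.symm)
        (g := ⟨(p, q), h0⟩) h2 h1 hm'
      exact hG.not_pm (inv_ne_zero hx) fun γ => (hx' γ).symm hx
    · obtain ⟨x, hx, hx'⟩ := pm_of_transcendental (jinj G) hm hf (g := ⟨(p, q), h0⟩) h1 h2 hl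
      exact hG.not_pm hx hx'
  · by_cases h : g ∈ LL.range
    · obtain ⟨⟨p, q⟩, rfl⟩ := h
      obtain ⟨c, l, h1⟩ := exists_diag p
      obtain ⟨d, m, h2⟩ := exists_diag q
      have hm0 := v.pos (ne_zero_of_unit h2)
      obtain ⟨e1, e2⟩ := eig_LL h1 h2
      rcases eq_of_not_free (jinj G) hm hf v ⟨(p, q), hg⟩ h1 h2 with h | h
      · have : v (l * m⁻¹) = 1 := by rw [map_mul, map_inv₀, h, mul_inv_cancel₀ hm0.ne']
        rcases e1 with e | e
        · exact hv _ e this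
        · exact hv _ e (by rw [map_inv₀, this, inv_one])
      · have : v (l * m) = 1 := by rw [map_mul, h]
        rcases e2 with e | e
        · exact hv _ e (by rw [map_inv₀, this, inv_one])
        · exact hv _ e (by rw [inv_inv, this])
    · rcases eig_rev h with e | e
      · exact hv _ e (map_one v)
      · exact hv _ e (by simp)

theorem main (G : Subgroup (E ≃ₗᵢ[ℝ] E))
    (h1 : ∀ (H : Subgroup G) [H.Normal],
      (∃ μ : Set (G ⧸ H) → ℝ, μ Set.univ = 1 ∧ (∀ A : Set (G ⧸ H), 0 ≤ μ A) ∧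
        (∀ A B : Set (G ⧸ H), Disjoint A B → μ (A ∪ B) = μ A + μ B) ∧
        (∀ (g : G ⧸ H) (A : Set (G ⧸ H)), μ ((fun y => g * y) ⁻¹' A) = μ A)) →
      ¬ ∃ x ∈ Metric.sphere (0 : E) 1, ∀ h : G, h ∈ H → h.1 x = x)
    (h2 : (∃ g ∈ G, ∃ z, Eig g z ∧ Transcendental ℚ z) ∨
      ∃ g ∈ G, ∃ v : AbsoluteValue ℂ ℝ, ∀ z, Eig g z → v z ≠ 1) :
    ∃ a b : E ≃ₗᵢ[ℝ] E, a ∈ G ∧ b ∈ G ∧ Function.Injective (FreeGroup.lift ![a, b]) ∧
      ∀ g ∈ Subgroup.closure ({a, b} : Set (E ≃ₗᵢ[ℝ] E)),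
        (∃ x ∈ Metric.sphere (0 : E) 1, g x = x) → g = 1 := by
  have hG : Cond G := fun H _ hH x hx hfix => h1 H hH.measure ⟨‖x‖⁻¹ • x, by
    simp [norm_smul, hx], fun h hh => by rw [map_smul, hfix h hh]⟩
  obtain ⟨φ, hφ⟩ := hG.free h2
  let ψ : FreeGroup (Fin 2) →* (E ≃ₗᵢ[ℝ] E) := LL.comp ((G.comap LL).subtype.comp φ)
  have hψ : FreeGroup.lift ![ψ (FreeGroup.of 0), ψ (FreeGroup.of 1)] = ψ := by
    ext1 i
    fin_cases i <;> simp
  have key : ∀ w x, x ≠ 0 → ψ w x = x → w = 1 := by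
    intro w x hx h
    by_contra hw
    obtain ⟨y, rfl⟩ := tau.surjective x
    refine hφ w hw y (fun h' => hx (by rw [h', map_zero])) ?_
    have h3 : LL (φ w).1 (tau y) = tau y := h
    rw [LL_apply, tau.injective.eq_iff] at h3
    change ((φ w).1.1 : ℍ) * y = y * (φ w).1.2
    conv_rhs => rw [← h3, mul_assoc, coe_inv_mul', mul_one]
  refine ⟨ψ (FreeGroup.of 0), ψ (FreeGroup.of 1), (φ _).2, (φ _).2, ?_, ?_⟩
  · rw [hψ, injective_iff_map_eq_one]
    exact fun w hw => key w _ tau_one_ne (by rw [hw]; rfl)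
  · rintro g hg ⟨x, hx, hgx⟩
    have : g ∈ ψ.range := by
      rw [← hψ, FreeGroup.range_lift_eq_closure]
      simpa [Set.pair_comm] using hg
    obtain ⟨w, rfl⟩ := this
    rw [key w x (ne_zero_of_mem_unit_sphere ⟨x, hx⟩) hgx, map_one]

end Pool.Agent.Lib.MP_bdc574_al
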