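import Pool.Agent.Lib.MP_bdc574_al.FiveDir
import Pool.Agent.Lib.MP_bdc574_al.Main

/-!
Five pieces suffice.
-/

namespace Pool.Agent.Lib.MP_bdc574_al

open Quaternion

theorem four_of_free {X : Type*} [MulAction (FreeGroup (Fin 2)) X]
    (h : ∀ (w : FreeGroup (Fin 2)) (x : X), w • x = x → w = 1) :
    ∃ φ : X × Bool → X, Function.Injective φ ∧
      (∀ x, φ (x, true) = x ∨ φ (x, true) = FreeGroup.of (0 : Fin 2) • x) ∧
      ∀ x, φ (x, false) = x ∨ φ (x, false) = FreeGroup.of (1 : Fin 2) • x := by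
  classical
  let q := Quotient.mk (MulAction.orbitRel (FreeGroup (Fin 2)) X)
  have h1 : ∀ x, ∃ w : FreeGroup (Fin 2), w • (q x).out = x := fun x =>
    (MulAction.orbitRel _ _).symm (Quotient.mk_out x)
  choose w hw using h1
  have h2 : ∀ g x, w (g • x) = g * w x := fun g x => by
    have e : q (g • x) = q x := Quotient.sound ⟨g, rfl⟩
    refine (inv_mul_eq_one.1 (h _ (q x).out ?_)).symm
    rw [mul_smul, inv_smul_eq_iff, mul_smul, hw, ← e, hw]
  let hd := fun x => (w x).toWord.head?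
  have h3 : ∀ k x, hd x ≠ some (k, false) → hd (FreeGroup.of k • x) = some (k, true) := by
    intro k x h3
    simp only [hd, h2] at h3 ⊢
    rw [FreeGroup.toWord_mul, FreeGroup.toWord_of, List.singleton_append, FreeGroup.reduce.cons,
      FreeGroup.reduce_toWord]
    rcases e : (w x).toWord with _ | ⟨⟨j, b⟩, l⟩
    · rfl
    · rw [e] at h3
      dsimp only
      rw [if_neg fun h => h3 (by
        obtain ⟨rfl, h'⟩ := h
        cases b
        exacts [rfl, absurd h' (by decide)])]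
      rfl
  let k : Bool → Fin 2 := fun b => if b then 0 else 1
  refine ⟨fun u => if hd u.1 = some (k u.2, false) then u.1 else FreeGroup.of (k u.2) • u.1, ?_,
    fun x => by dsimp only; split_ifs <;> simp [k], fun x => by dsimp only; split_ifs <;> simp [k]⟩
  have hk : Function.Injective k := by decide
  rintro ⟨x, b⟩ ⟨y, c⟩ e
  dsimp only at e
  split_ifs at e with a a' a'
  · subst e
    rw [hk (a₁ := b) (a₂ := c) (by simpa [a] using a')]
  · have := h3 _ _ a'
    rw [← e, a] at this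
    simp at this
  · have := h3 _ _ a
    rw [e, a'] at this
    simp at this
  · have := h3 _ _ a
    rw [e, h3 _ _ a'] at this
    obtain rfl : c = b := hk (by simpa using this)
    rw [MulAction.injective _ e]

theorem mem_S3 (g : O4) {x : E} (h : x ∈ S3) : g x ∈ S3 := by simpa [S3] using h

noncomputable instance actS3 : MulAction O4 S3 where
  smul g x := ⟨g x, mem_S3 g x.2⟩
  one_smul _ := rfl
  mul_smul _ _ _ := rfl

theorem pieces {G : Subgroup O4} {a b c : O4} (ha : a ∈ G) (hb : b ∈ G) (hc : c ∈ G)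
    {φ : S3 × Bool → S3} (hφ : Function.Injective φ)
    (h1 : ∀ x, φ (x, true) = x ∨ φ (x, true) = a • x)
    (h2 : ∀ x, φ (x, false) = x ∨ φ (x, false) = b • x ∨ φ (x, false) = c • x) :
    ∃ (A : Fin 5 → Set E) (g : Fin 5 → O4), (∀ i, g i ∈ G ∧ A i ⊆ S3) ∧
      Pairwise (fun i j => Disjoint (A i) (A j)) ∧ S3 = g 0 '' A 0 ∪ g 1 '' A 1 ∧
      S3 = g 2 '' A 2 ∪ g 3 '' A 3 ∪ g 4 '' A 4 := by
  let g : Fin 5 → O4 := ![1, a⁻¹, 1, b⁻¹, c⁻¹]
  have h3 : ∀ u : S3 × Bool, ∃ i, g i • φ u = u.1 ∧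
      if u.2 then i = 0 ∨ i = 1 else (i = 2 ∨ i = 3) ∨ i = 4 := by
    rintro ⟨x, _ | _⟩
    · rcases h2 x with h | h | h
      exacts [⟨2, by simp [g, h], by simp⟩, ⟨3, by simp [g, h], by simp⟩,
        ⟨4, by simp [g, h], by simp⟩]
    · rcases h1 x with h | h
      exacts [⟨0, by simp [g, h], by simp⟩, ⟨1, by simp [g, h], by simp⟩]
  choose f f1 f2 using h3
  let A : Fin 5 → Set E := fun i => (fun u => (φ u : E)) '' {u | f u = i}
  have h4 : ∀ i, A i ⊆ S3 := by rintro i _ ⟨u, -, rfl⟩; exact (φ u).2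
  have h5 : ∀ i, g i '' A i ⊆ S3 := by rintro i _ ⟨x, hx, rfl⟩; exact mem_S3 _ (h4 i hx)
  have h6 : ∀ u : S3 × Bool, u.1.1 ∈ g (f u) '' A (f u) := fun u =>
    ⟨_, ⟨u, rfl, rfl⟩, congrArg Subtype.val (f1 u)⟩
  refine ⟨A, g, fun i => ⟨by fin_cases i <;> simp [g, *], h4 i⟩, fun i j hij => ?_,
    Set.Subset.antisymm (fun x hx => ?_) (Set.union_subset (h5 _) (h5 _)),
    Set.Subset.antisymm (fun x hx => ?_) (Set.union_subset (Set.union_subset (h5 _) (h5 _)) (h5 _))⟩
  · refine Set.disjoint_left.2 ?_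
    rintro _ ⟨u, hu, rfl⟩ ⟨u', hu', e⟩
    obtain rfl := hφ (Subtype.ext e)
    exact hij (hu.symm.trans hu')
  · have := h6 (⟨x, hx⟩, true)
    rcases f2 (⟨x, hx⟩, true) with e | e <;> rw [e] at this
    exacts [Or.inl this, Or.inr this]
  · have := h6 (⟨x, hx⟩, false)
    rcases f2 (⟨x, hx⟩, false) with (e | e) | e <;> rw [e] at this
    exacts [Or.inl (Or.inl this), Or.inl (Or.inr this), Or.inr this]

theorem five (G : Subgroup O4) (h1 : NoCoamenableFixedPoint G) :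
    ∃ (A : Fin 5 → Set E) (g : Fin 5 → O4), (∀ i, g i ∈ G ∧ A i ⊆ S3) ∧
      Pairwise (fun i j => Disjoint (A i) (A j)) ∧ S3 = g 0 '' A 0 ∪ g 1 '' A 1 ∧
      S3 = g 2 '' A 2 ∪ g 3 '' A 3 ∪ g 4 '' A 4 := by
  have hG : Cond G := fun H _ hH x hx hfix => h1 H hH.measure ⟨‖x‖⁻¹ • x, by
    simp [S3, norm_smul, hx], fun h hh => by
      change h.1 _ = _
      rw [map_smul, hfix h hh]⟩
  have h0 : ∀ x : S3, tau.symm x ≠ 0 := fun x h => by
    have := x.2
    rw [(map_eq_zero_iff _ tau.symm.injective).1 h] at this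
    simp [S3] at this
  have key : ∀ (γ : G.comap LL) (x : S3), (r1 G γ : ℍ) * tau.symm x =
      tau.symm ((LL γ • x : S3) : E) * r2 G γ := fun γ x => by
    have : ((LL γ • x : S3) : E) = LL γ (tau (tau.symm x)) := by simp; rfl
    rw [this, LL_apply, tau.symm_apply_apply, mul_assoc]
    change _ = _ * (_ * (γ.1.2 : ℍ))
    rw [coe_inv_mul', mul_one]
    rfl
  rcases free_or_dir (jinj G) hG.not_hasMean fun x hx => hG.not_pm hx with ⟨ψ, h⟩ | ⟨g, D, h2, h3⟩
  · let _ := MulAction.compHom S3 (LL.comp ((G.comap LL).subtype.comp ψ))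
    obtain ⟨φ, a, b, c⟩ := four_of_free (X := S3) fun w x e => by_contra fun hw =>
      h w hw _ (h0 x) (by rw [key]; exact congrArg (fun y : S3 => tau.symm y * _) e)
    exact pieces (ψ _).2 (ψ _).2 (ψ 1).2 a b fun x => (c x).imp_right Or.inl
  · obtain ⟨φ, a, b, c⟩ := five_of_dir (fun k => MulAction.toPerm (LL (g k)))
      (fun x : S3 => D (tau.symm x)) (fun x => h2 _ (h0 x))
      (fun k x => (h3 k _ _ (h0 x) (key _ x)).1) (fun k x => (h3 k _ _ (h0 x) (key _ x)).2.1)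
      fun k x _ => (h3 k _ _ (h0 x) (key _ x)).2.2
    exact pieces (g 0).2 (g 1).2 (g 2).2 a b c

end Pool.Agent.Lib.MP_bdc574_al
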