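import Pool.Agent.Lib.MP_bdc574_al.FiveDyn

/-!
Six points of the product of two lines in general position.
-/

namespace Pool.Agent.Lib.MP_bdc574_al

open Finset MvPolynomial

theorem dens (v : AbsoluteValue ℂ ℝ) {L M : ℂ} (h1 : 1 < v L) (h2 : v M = v L)
    (h3 : ∀ n, 0 < n → (L / M) ^ n ≠ 1) {ι : Type} [Fintype ι] (P : ι → MvPolynomial Let ℂ)
    (hP : ∀ j, P j ≠ 0) : ∃ i : Fin 3 → ℕ, ∀ j,
      eval (fun q : Let => (if q.2 then L else M) ^ i q.1) (P j) ≠ 0 := by
  classical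
  have L0 : L ≠ 0 := fun h => by simp [h] at h1; linarith
  have M0 : M ≠ 0 := fun h => by simp [h] at h2; linarith
  let χ : (Let →₀ ℕ) → Multiplicative (Fin 3 → ℕ) →* ℂ := fun m =>
    { toFun i := ∏ q : Let, ((if q.2 then L else M) ^ i.toAdd q.1) ^ m q
      map_one' := by simp
      map_mul' i j := by
        simp only [toAdd_mul, Pi.add_apply, pow_add, mul_pow, prod_mul_distrib] }
  have key : ∀ a b a' b' : ℕ, L ^ a * M ^ b = L ^ a' * M ^ b' → a ≤ a' → a = a' ∧ b = b' := by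
    intro a b a' b' h h4
    have h5 := congrArg v h
    simp only [map_mul, map_pow, h2, ← pow_add] at h5
    have h6 := pow_right_injective₀ (by linarith) h1.ne' h5
    obtain ⟨d, rfl⟩ := Nat.exists_eq_add_of_le h4
    obtain rfl : b = b' + d := by omega
    suffices d = 0 by simp [this]
    by_contra h7
    refine h3 d (by omega) ?_
    rw [div_pow, div_eq_one_iff_eq (pow_ne_zero _ M0)]
    refine mul_left_cancel₀ (mul_ne_zero (pow_ne_zero a L0) (pow_ne_zero b' M0)) ?_
    linear_combination -h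
  have hχ : Function.Injective χ := fun m m' h => by
    have h4 : ∀ k, m (k, true) = m' (k, true) ∧ m (k, false) = m' (k, false) := fun k => by
      have := DFunLike.congr_fun h (Multiplicative.ofAdd (Pi.single k 1))
      have h5 : L ^ m (k, true) * M ^ m (k, false) = L ^ m' (k, true) * M ^ m' (k, false) := by
        fin_cases k <;> simpa [χ, Fintype.prod_prod_type, Fin.prod_univ_three] using this
      rcases le_total (m (k, true)) (m' (k, true)) with h6 | h6
      · exact key _ _ _ _ h5 h6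
      · exact (key _ _ _ _ h5.symm h6).imp Eq.symm Eq.symm
    ext ⟨k, b⟩
    cases b
    exacts [(h4 k).2, (h4 k).1]
  by_contra! h4
  refine prod_ne_zero_iff.2 (fun j (_ : j ∈ univ) => hP j) (MvPolynomial.ext _ _ fun m => ?_)
  by_contra h5
  refine h5 (linearIndependent_iff'.1 ((linearIndependent_monoidHom _ ℂ).comp χ hχ)
    (∏ j, P j).support (fun m => coeff m (∏ j, P j)) (funext fun i => ?_) m
    (mem_support_iff.2 h5))
  obtain ⟨j, hj⟩ := h4 i.toAdd
  have := prod_eq_zero (f := fun j => eval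
    (fun q : Let => (if q.2 then L else M) ^ i.toAdd q.1) (P j)) (mem_univ j) hj
  rw [← map_prod, eval_eq'] at this
  simpa [χ] using this

noncomputable def bf (x y : ℂ) : Fn where
  toFun Z := y * Z 0 0 + Z 0 1 + x * y * Z 1 0 + x * Z 1 1
  map_add' _ _ := by simp; ring
  map_smul' _ _ := by simp; ring

theorem bf_apply (x y : ℂ) (Z : M2) : bf x y Z = y * Z 0 0 + Z 0 1 + x * y * Z 1 0 + x * Z 1 1 :=
  rfl

theorem m2_zero {Z : M2} (a : Z 0 0 = 0) (b : Z 0 1 = 0) (c : Z 1 0 = 0) (d : Z 1 1 = 0) :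
    Z = 0 := by
  ext i j; fin_cases i <;> fin_cases j <;> assumption

theorem lin2 {a b y y' : ℂ} (h : y ≠ y') (h1 : a * y + b = 0) (h2 : a * y' + b = 0) :
    a = 0 ∧ b = 0 := by
  have : a = 0 := (mul_eq_zero.1 (show a * (y - y') = 0 by linear_combination h1 - h2)).resolve_right
    (sub_ne_zero.2 h)
  exact ⟨this, by simpa [this] using h1⟩

theorem bf_row {x y y' x₁ y₁ x₂ y₂ : ℂ} {Z : M2} (h : y ≠ y') (h1 : x₁ ≠ x) (h2 : x₂ ≠ x)
    (h3 : y₁ ≠ y₂) (a : bf x y Z = 0) (b : bf x y' Z = 0) (c : bf x₁ y₁ Z = 0)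
    (d : bf x₂ y₂ Z = 0) : Z = 0 := by
  simp only [bf_apply] at a b c d
  obtain ⟨e, f⟩ := lin2 (a := Z 0 0 + x * Z 1 0) (b := Z 0 1 + x * Z 1 1) h
    (by linear_combination a) (by linear_combination b)
  obtain ⟨g, k⟩ := lin2 (a := Z 1 0) (b := Z 1 1) h3
    (mul_left_cancel₀ (sub_ne_zero.2 h1) (by linear_combination c - y₁ * e - f))
    (mul_left_cancel₀ (sub_ne_zero.2 h2) (by linear_combination d - y₂ * e - f))
  exact m2_zero (by simpa [g] using e) (by simpa [k] using f) g k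

theorem bf_col {y x x' x₁ y₁ x₂ y₂ : ℂ} {Z : M2} (h : x ≠ x') (h1 : y₁ ≠ y) (h2 : y₂ ≠ y)
    (h3 : x₁ ≠ x₂) (a : bf x y Z = 0) (b : bf x' y Z = 0) (c : bf x₁ y₁ Z = 0)
    (d : bf x₂ y₂ Z = 0) : Z = 0 := by
  simp only [bf_apply] at a b c d
  obtain ⟨e, f⟩ := lin2 (a := y * Z 1 0 + Z 1 1) (b := y * Z 0 0 + Z 0 1) h
    (by linear_combination a) (by linear_combination b)
  obtain ⟨g, k⟩ := lin2 (a := Z 1 0) (b := Z 0 0) h3
    (mul_left_cancel₀ (sub_ne_zero.2 h1) (by linear_combination c - x₁ * e - f))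
    (mul_left_cancel₀ (sub_ne_zero.2 h2) (by linear_combination d - x₂ * e - f))
  exact m2_zero k (by simpa [k] using f) g (by simpa [g] using e)

theorem four_comb : ∀ T : Fin 4 → Let, Function.Injective T → ∃ i j p q, p ≠ q ∧
    (T i).1 = (T j).1 ∧ (T i).2 ≠ (T j).2 ∧ (T p).1 ≠ (T i).1 ∧ (T q).1 ≠ (T i).1 := by
  decide +kernel

theorem general (v : AbsoluteValue ℂ ℝ) {L M : ℂ} (h1 : 1 < v L) (h2 : v M = v L)
    (h3 : ∀ n, 0 < n → (L / M) ^ n ≠ 1) {x y : Bool → ℂ} (hx : ∀ b, x b ≠ 0) (hy : ∀ b, y b ≠ 0)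
    (hx' : Function.Injective x) (hy' : Function.Injective y) : ∃ i : Fin 3 → ℕ,
      (Function.Injective fun t : Let => x t.2 * L ^ i t.1) ∧
      (Function.Injective fun t : Let => y t.2 * M ^ i t.1) ∧
      ∀ T : Fin 4 → Let, Function.Injective T → ∀ Z,
        (∀ j, bf (x (T j).2 * L ^ i (T j).1) (y (T j).2 * M ^ i (T j).1) Z = 0) → Z = 0 := by
  classical
  let pt : (Bool → ℂ) → Bool → Let → MvPolynomial Let ℂ := fun x b t => C (x t.2) * X (t.1, b)
  let mat : (Fin 4 → Let) → Matrix (Fin 4) (Fin 4) (MvPolynomial Let ℂ) := fun T =>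
    .of fun j => ![pt y false (T j), 1, pt x true (T j) * pt y false (T j), pt x true (T j)]
  have hmat : ∀ (z : Let → ℂ) T, eval z (mat T).det = 0 ↔ ∃ Z ≠ 0, ∀ j,
      bf (x (T j).2 * z ((T j).1, true)) (y (T j).2 * z ((T j).1, false)) Z = 0 := fun z T => by
    rw [RingHom.map_det, ← Matrix.exists_mulVec_eq_zero_iff]
    constructor
    · rintro ⟨w, h4, h5⟩
      refine ⟨!![w 0, w 1; w 2, w 3], fun h => h4 (funext fun i => ?_), fun j => ?_⟩
      · fin_cases i
        exacts [congrFun (congrFun h 0) 0, congrFun (congrFun h 0) 1, congrFun (congrFun h 1) 0,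
          congrFun (congrFun h 1) 1]
      · simpa [mat, pt, bf_apply, Matrix.mulVec, dotProduct, Fin.sum_univ_four] using congrFun h5 j
    · rintro ⟨Z, h4, h5⟩
      refine ⟨![Z 0 0, Z 0 1, Z 1 0, Z 1 1], fun h => h4 (m2_zero (congrFun h 0) (congrFun h 1)
        (congrFun h 2) (congrFun h 3)), funext fun j => ?_⟩
      simpa [mat, pt, bf_apply, Matrix.mulVec, dotProduct, Fin.sum_univ_four] using h5 j
  have hpt : ∀ x : Bool → ℂ, (∀ b, x b ≠ 0) → Function.Injective x → ∀ b (s t : Let), s ≠ t →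
      pt x b s - pt x b t ≠ 0 := fun x hx hx' b s t h e => by
    have := congrArg (eval fun q : Let => if q.1 = s.1 then (1 : ℂ) else 0) e
    by_cases h' : t.1 = s.1
    · exact h (Prod.ext h'.symm (hx' (by simpa [pt, h', sub_eq_zero] using this)))
    · exact hx _ (by simpa [pt, h'] using this)
  obtain ⟨i, hi⟩ := dens v h1 h2 h3 (ι := ({p : Let × Let // p.1 ≠ p.2} × Bool) ⊕
      {T : Fin 4 → Let // Function.Injective T}) (Sum.elim (fun p => pt (if p.2 then x else y) p.2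
        p.1.1.1 - pt (if p.2 then x else y) p.2 p.1.1.2) fun T => (mat T).det) (by
    rintro (⟨p, _ | _⟩ | ⟨T, hT⟩)
    · exact hpt y hy hy' _ _ _ p.2
    · exact hpt x hx hx' _ _ _ p.2
    obtain ⟨i, j, p, q, a, b, c, d, e⟩ := four_comb T hT
    obtain ⟨τ, hτ⟩ := Infinite.exists_notMem_finset {y (T p).2 / y (T q).2}
    intro h
    obtain ⟨Z, h4, h5⟩ := (hmat (fun r => if r.2 then (if r.1 = (T i).1 then 1 else 0) else
      (if r.1 = (T i).1 ∨ r.1 = (T p).1 then 1 else τ)) T).1 (by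
        rw [show (mat T).det = 0 from h, map_zero])
    have k1 := h5 i
    have k2 := h5 j
    have k3 := h5 p
    have k4 := h5 q
    simp only [if_true, ← b, d, e, if_false, mul_one, mul_zero, true_or, or_true, false_or,
      Bool.false_eq_true] at k1 k2 k3 k4
    refine h4 (bf_row ?_ (hx _) (hx _) (hy'.ne c) k3 k4 k1 k2)
    split_ifs with f
    · rw [mul_one]
      exact hy'.ne fun g => a (hT (Prod.ext f.symm g))
    · intro g
      exact hτ (by rw [mem_singleton, g, mul_div_cancel_left₀ _ (hy _)]))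
  refine ⟨i, fun s t e => by_contra fun h => hi (.inl (⟨(s, t), h⟩, true)) ?_,
    fun s t e => by_contra fun h => hi (.inl (⟨(s, t), h⟩, false)) ?_,
    fun T hT Z h => by_contra fun h' => hi (.inr ⟨T, hT⟩) ((hmat _ T).2 ⟨Z, h', by simpa using h⟩)⟩
  · simpa [pt, sub_eq_zero] using e
  · simpa [pt, sub_eq_zero] using e

end Pool.Agent.Lib.MP_bdc574_al
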