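import Pool.Agent.Lib.MP_bdc574_al.Gamma
import Pool.Agent.Lib.MP_bdc574_al.FiveGen

-- part Pool.Agent.Lib.MP_bdc574_al.FiveTors
section

/-!
An element none of whose eigenvalues is a root of unity.
-/

namespace Pool.Agent.Lib.MP_bdc574_al

open Quaternion Polynomial
open scoped ComplexConjugate IntermediateField

def Tors (z : ℂ) : Prop := ∃ n, 0 < n ∧ z ^ n = 1

theorem Tors.integral {z : ℂ} (h : Tors z) : IsIntegral ℤ z :=
  let ⟨_, hn, h⟩ := h; IsIntegral.of_pow hn (h ▸ isIntegral_one)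

theorem tors_finite (d : ℕ) : {z : ℂ | Tors z ∧ (minpoly ℚ z).natDegree ≤ d}.Finite := by
  classical
  let C := Nat.ceil (max (1 : ℝ) 1 ^ d * d.choose (d / 2))
  refine (bUnion_roots_finite (algebraMap ℤ ℂ) d (Set.finite_Icc (-C : ℤ) C)).subset
    fun x hx => ?_
  simp_rw [Set.mem_iUnion]
  have hi := hx.1.integral
  have h1 := minpoly.isIntegrallyClosed_eq_field_fractions' ℚ hi
  refine ⟨_, ⟨?_, fun i => ?_⟩, mem_rootSet.2 ⟨minpoly.ne_zero hi, minpoly.aeval ℤ x⟩⟩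
  · rw [← (minpoly.monic hi).natDegree_map (algebraMap ℤ ℚ), ← h1]
    exact hx.2
  rw [Set.mem_Icc, ← abs_le, ← @Int.cast_le ℝ]
  refine (Eq.trans_le ?_ (coeff_bdd_of_roots_le (B := 1) (algebraMap ℚ ℂ)
    (minpoly.monic hi.tower_top) (IsAlgClosed.splits _) hx.2 (fun z hz => ?_) i)).trans
    (Nat.le_ceil _)
  · rw [h1, coeff_map, coeff_map]; simp
  · obtain ⟨n, hn, h⟩ := hx.1
    have h2 : minpoly ℚ x ∣ X ^ n - 1 := minpoly.dvd _ _ (by simp [h])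
    have h3 := aeval_eq_zero_of_dvd_aeval_eq_zero h2 (x := z)
      (by simpa [aeval_def, eval_map] using (mem_roots'.1 hz).2)
    exact (Complex.norm_eq_one_of_pow_eq_one (by simpa [sub_eq_zero] using h3) hn.ne').le

theorem deg_le (K : IntermediateField ℚ ℂ) [FiniteDimensional ℚ K] {s p z : ℂ} (hs : s ∈ K)
    (hp : p ∈ K) (h : z ^ 4 - s * z ^ 3 + p * z ^ 2 - s * z + 1 = 0) :
    (minpoly ℚ z).natDegree ≤ Module.finrank ℚ K * 4 := by
  let q : K[X] := X ^ 4 - C ⟨s, hs⟩ * X ^ 3 + C ⟨p, hp⟩ * X ^ 2 - C ⟨s, hs⟩ * X + 1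
  have h1 : q.Monic := by unfold q; monicity!
  have h2 : q.natDegree ≤ 4 := by unfold q; compute_degree
  have h3 : aeval z q = 0 := by simpa [q] using h
  have h4 : IsIntegral K z := ⟨q, h1, h3⟩
  have := IntermediateField.adjoin.finiteDimensional h4
  have : FiniteDimensional ℚ K⟮z⟯ := Module.Finite.trans K _
  have h5 := minpoly.natDegree_le (A := ℚ) (IntermediateField.AdjoinSimple.gen K z)
  rw [← minpoly.algebraMap_eq (algebraMap K⟮z⟯ ℂ).injective, ← Module.finrank_mul_finrank ℚ K,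
    IntermediateField.adjoin.finrank h4] at h5
  exact h5.trans (Nat.mul_le_mul_left _
    ((natDegree_le_natDegree (minpoly.min K z h1 h3)).trans h2))

noncomputable def tr (u : U) : ℂ := p0 u + conj (p0 u)

theorem tr_diag {u c : U} {l : ℂ} (h : ((c⁻¹ * u * c : U) : ℍ) = l) : tr u = l + l⁻¹ := by
  rw [tr, ← conj_eq_inv h, Complex.add_conj, Complex.add_conj]
  congr 2
  have := re_conj c u
  rw [h] at this
  exact this.symm

theorem tr_cj (c u : U) : tr (c⁻¹ * u * c) = tr u := by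
  simp only [tr, Complex.add_conj]
  congr 2
  exact re_conj c u

variable {Γ : Type} [Group Γ] {ρ₁ ρ₂ : Γ →* U}

theorem tr_pow {ρ : Γ →* U} {g : Γ} {l : ℂ} (h1 : (ρ g : ℍ) = l) (n : ℕ) (h : Γ) :
    tr (ρ (g ^ n * h)) = l ^ n * p0 (ρ h) + (l ^ n)⁻¹ * conj (p0 (ρ h)) := by
  rw [tr, map_mul, map_pow, Submonoid.coe_mul, unit_pow h1, p0_coe_mul, map_mul,
    conj_eq_inv (unit_pow h1 n)]

theorem alg_p0 {ρ : Γ →* U} {g : Γ} {l : ℂ} (h1 : (ρ g : ℍ) = l) (hl : ¬ Tors l)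
    (ha : IsAlgebraic ℚ l) (ht : ∀ γ, IsAlgebraic ℚ (tr (ρ γ))) (h : Γ) :
    IsAlgebraic ℚ (p0 (ρ h)) ∧ IsAlgebraic ℚ (conj (p0 (ρ h))) := by
  have l0 := ne_zero_of_unit h1
  have l1 : l * l - 1 ≠ 0 := fun e => hl ⟨2, two_pos, by linear_combination e⟩
  have e : p0 (ρ h) = (l * tr (ρ (g ^ 1 * h)) - tr (ρ h)) * (l * l - 1)⁻¹ := by
    rw [eq_mul_inv_iff_mul_eq₀ l1, tr_pow h1, tr]; field_simp; ring
  have h2 : IsAlgebraic ℚ (p0 (ρ h)) := by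
    rw [e]; exact ((ha.mul (ht _)).sub (ht _)).mul ((ha.mul ha).sub isAlgebraic_one).inv
  exact ⟨h2, by simpa [tr] using (ht h).sub h2⟩

theorem norm_eq_of_tors {g : Γ} {l : ℂ} (h1 : (ρ₁ g : ℍ) = l) (h2 : (ρ₂ g : ℍ) = l)
    (hl : ¬ Tors l) (ha : IsAlgebraic ℚ l) (t1 : ∀ γ, IsAlgebraic ℚ (tr (ρ₁ γ)))
    (t2 : ∀ γ, IsAlgebraic ℚ (tr (ρ₂ γ)))
    (H : ∀ γ, ∃ z, Tors z ∧ z ^ 4 - tr (ρ₁ γ) * tr (ρ₂ γ) * z ^ 3 +
      (tr (ρ₁ γ) ^ 2 + tr (ρ₂ γ) ^ 2 - 2) * z ^ 2 - tr (ρ₁ γ) * tr (ρ₂ γ) * z + 1 = 0) (h : Γ) :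
    p0 (ρ₁ h) * conj (p0 (ρ₁ h)) = p0 (ρ₂ h) * conj (p0 (ρ₂ h)) := by
  have l0 := ne_zero_of_unit h1
  obtain ⟨a1, a2⟩ := alg_p0 h1 hl ha t1 h
  obtain ⟨b1, b2⟩ := alg_p0 h2 hl ha t2 h
  have e1 := fun n => tr_pow h1 n h
  have e2 := fun n => tr_pow h2 n h
  choose z z1 z2 using fun n : ℕ => H (g ^ n * h)
  simp only [e1, e2] at z2
  generalize p0 (ρ₁ h) = a at *
  generalize p0 (ρ₂ h) = b at *
  let K := IntermediateField.adjoin ℚ {l, a, conj a, b, conj b}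
  have : FiniteDimensional ℚ K := IntermediateField.finiteDimensional_adjoin (by
    simp only [Set.mem_insert_iff, Set.mem_singleton_iff]
    rintro _ (rfl | rfl | rfl | rfl | rfl)
    exacts [ha.isIntegral, a1.isIntegral, a2.isIntegral, b1.isIntegral, b2.isIntegral])
  have k : ∀ x ∈ ({l, a, conj a, b, conj b} : Set ℂ), x ∈ K := fun x hx =>
    IntermediateField.subset_adjoin _ _ hx
  have k1 : ∀ (n : ℕ) x, x ∈ K → conj x ∈ K → l ^ n * x + (l ^ n)⁻¹ * conj x ∈ K := fun n x a b =>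
    add_mem (mul_mem (pow_mem (k l (by simp)) n) a) (mul_mem (inv_mem (pow_mem (k l (by simp)) n)) b)
  have k2 := fun n => k1 n a (k _ (by simp)) (k _ (by simp))
  have k3 := fun n => k1 n b (k _ (by simp)) (k _ (by simp))
  have := (tors_finite (Module.finrank ℚ K * 4)).to_subtype
  obtain ⟨⟨y, ⟨n, hn, y1⟩, y2⟩, hy⟩ := Finite.exists_infinite_fiber fun n : ℕ =>
    (⟨z n, z1 n, deg_le K (mul_mem (k2 n) (k3 n)) (sub_mem (add_mem (pow_mem (k2 n) 2)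
      (pow_mem (k3 n) 2)) (ofNat_mem K 2)) (z2 n)⟩ :
      {z : ℂ | Tors z ∧ (minpoly ℚ z).natDegree ≤ Module.finrank ℚ K * 4})
  have hinj : Function.Injective fun n : ℕ => (l ^ n) ^ 2 := by
    have : ∀ i j : ℕ, i < j → (l ^ i) ^ 2 ≠ (l ^ j) ^ 2 := fun i j hij e => by
      obtain ⟨d, rfl⟩ := Nat.exists_eq_add_of_lt hij
      refine hl ⟨(d + 1) * 2, by omega, mul_left_cancel₀ (pow_ne_zero 2 (pow_ne_zero i l0)) ?_⟩
      rw [mul_one]; conv_rhs => rw [e]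
      ring
    intro i j e
    rcases lt_trichotomy i j with h | h | h
    exacts [absurd e (this _ _ h), h, absurd e.symm (this _ _ h)]
  have h3 := eq_zero_of_infinite_isRoot (C (y * (a - y * b) * (y * a - b)) * X ^ 2 +
      C (y ^ 4 + 1 - (a * conj b + conj a * b) * (y ^ 3 + y) +
        (2 * a * conj a + 2 * b * conj b - 2) * y ^ 2) * X +
      C (y * (conj a - y * conj b) * (y * conj a - conj b)))
    (((Set.infinite_coe_iff.1 hy).image hinj.injOn).mono (by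
      rintro _ ⟨n, hn, rfl⟩
      have e : z n = y := congrArg Subtype.val hn
      have := z2 n
      have h4 := pow_ne_zero n l0
      rw [e] at this
      simp only [Set.mem_ofPred_eq, IsRoot.def, eval_add, eval_mul, eval_C, eval_pow, eval_X]
      generalize l ^ n = L at *
      field_simp at this
      linear_combination this))
  have h4 := congrArg (coeff · 2) h3
  simp only [coeff_add, coeff_C_mul_X_pow, coeff_C_mul_X, coeff_C, coeff_zero] at h4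
  norm_num at h4
  have h5 : y * conj y = 1 := by
    rw [Complex.mul_conj, Complex.normSq_eq_norm_sq, Complex.norm_eq_one_of_pow_eq_one y1 hn.ne']
    simp
  rcases h4 with (h | h) | h
  · simp [h] at h5
  · rw [sub_eq_zero.1 h, map_mul]; linear_combination b * conj b * h5
  · rw [← sub_eq_zero.1 h, map_mul]; linear_combination -(a * conj a) * h5

theorem exists_nontors (hj : JInj ρ₁ ρ₂) (hm : ¬ HasMean Γ) (hf : ¬ Free ρ₁ ρ₂)
    (hp : ∀ x ≠ 0, ¬ ∀ γ, PM ρ₁ ρ₂ x γ) : ∃ (g : Γ) (c d : U) (l m : ℂ),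
      ((c⁻¹ * ρ₁ g * c : U) : ℍ) = l ∧ ((d⁻¹ * ρ₂ g * d : U) : ℍ) = m ∧
      ¬ Tors (l / m) ∧ ¬ Tors (l * m) := by
  by_contra! H
  have a1 : ∀ (g : Γ) (c : U) (l : ℂ), ((c⁻¹ * ρ₁ g * c : U) : ℍ) = l → IsAlgebraic ℚ l := by
    intro g c l h
    obtain ⟨d, m, h'⟩ := exists_diag (ρ₂ g)
    by_contra h1
    obtain ⟨x, hx, h2⟩ := pm_of_transcendental hj hm hf h h' h1
    exact hp x hx h2
  have a2 : ∀ (g : Γ) (c : U) (l : ℂ), ((c⁻¹ * ρ₂ g * c : U) : ℍ) = l → IsAlgebraic ℚ l := by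
    intro g c l h
    obtain ⟨d, m, h'⟩ := exists_diag (ρ₁ g)
    by_contra h1
    obtain ⟨x, hx, h2⟩ := pm_of_transcendental hj.symm hm (fun h => hf h.symm) h h' h1
    exact hp _ (inv_ne_zero hx) fun γ => (h2 γ).symm hx
  obtain ⟨g, hg⟩ : ∃ g, ¬ IsOfFinOrder (ρ₁ g) := by
    by_contra! h
    have h1 : HasMean ρ₁.range := hasMean_of_torsion ρ₁.range.subtype Subtype.val_injective (by
      rintro ⟨_, g, rfl⟩
      exact (Submonoid.isOfFinOrder_coe (H := ρ₁.range.toSubmonoid)).1 (h g))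
    have h3 := tits (ρ := ρ₂.comp ρ₁.ker.subtype) ((injective_iff_map_eq_one _).2 fun g hg =>
      Subtype.ext (hj g g.2 hg)) fun h => hm (HasMean.of_ker_range ρ₁ h h1)
    refine hf (Free.of_comp ρ₁.ker.subtype ?_)
    have : ρ₁.comp ρ₁.ker.subtype = 1 := MonoidHom.ext fun g => g.2
    rw [this]
    exact h3.symm
  obtain ⟨c, l, h1⟩ := exists_diag (ρ₁ g)
  obtain ⟨d, m, h2⟩ := exists_diag (ρ₂ g)
  have hm0 := ne_zero_of_unit h2
  have hl : ∀ n, 0 < n → ¬ Tors (l ^ n) := fun n hn ⟨k, hk, h⟩ => hg (by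
    have : (c⁻¹ * ρ₁ g * c) ^ (n * k) = 1 := Subtype.ext (by rw [unit_pow h1, pow_mul, h]; rfl)
    refine isOfFinOrder_iff_pow_eq_one.2 ⟨n * k, by positivity, ?_⟩
    have h3 := conj_pow (a := c⁻¹) (b := ρ₁ g) (i := n * k)
    rw [inv_inv, this, eq_comm, mul_assoc, inv_mul_eq_one, eq_comm, mul_eq_right] at h3
    exact h3)
  obtain ⟨d', n, hn, hd'⟩ : ∃ (d' : U) (n : ℕ), 0 < n ∧
      ((d'⁻¹ * ρ₂ (g ^ n) * d' : U) : ℍ) = (l ^ n : ℂ) := by
    have hpow : ∀ n : ℕ, ((d⁻¹ * ρ₂ (g ^ n) * d : U) : ℍ) = (m ^ n : ℂ) := fun n => by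
      rw [← cj_apply, map_pow, unit_pow (z := m) (by rw [cj_apply, h2])]
    by_cases a : Tors (l / m)
    · obtain ⟨n, hn, a⟩ := a
      rw [div_pow, div_eq_one_iff_eq (pow_ne_zero _ hm0)] at a
      exact ⟨d, n, hn, by rw [hpow, a]⟩
    obtain ⟨n, hn, b⟩ := H g c d l m h1 h2 a
    refine ⟨d * jU, n, hn, ?_⟩
    have : ((d * jU)⁻¹ * ρ₂ (g ^ n) * (d * jU) : U) = jU⁻¹ * (d⁻¹ * ρ₂ (g ^ n) * d) * jU := by
      simp only [mul_inv_rev, mul_assoc]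
    rw [this, Submonoid.coe_mul, Submonoid.coe_mul, hpow, jU_conj, conj_eq_inv (hpow n)]
    rw [mul_pow] at b
    rw [eq_inv_of_mul_eq_one_left b]
  have k1 : (cj c ρ₁ (g ^ n) : ℍ) = (l ^ n : ℂ) := by
    rw [map_pow, unit_pow (z := l) (by rw [cj_apply, h1])]
  rw [← cj_apply] at hd'
  obtain ⟨h₀, b0, b1⟩ := exists_generic_elt (hj.cj c d') hm fun h => hf h.of_cj
  obtain ⟨x, hx, hx'⟩ := pm_of_norm_eq k1 hd' (fun h => hl n hn ⟨4, four_pos, h⟩)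
    (norm_eq_of_tors k1 hd' (hl n hn) ((a1 g c l h1).pow n) (fun γ => by
      obtain ⟨e, z, h⟩ := exists_diag (ρ₁ γ)
      rw [cj_apply, tr_cj, tr_diag h]
      exact (a1 _ _ _ h).add (a1 _ _ _ h).inv) (fun γ => by
      obtain ⟨e, z, h⟩ := exists_diag (ρ₂ γ)
      rw [cj_apply, tr_cj, tr_diag h]
      exact (a2 _ _ _ h).add (a2 _ _ _ h).inv) fun γ => by
      obtain ⟨e, z, h⟩ := exists_diag (ρ₁ γ)
      obtain ⟨e', z', h'⟩ := exists_diag (ρ₂ γ)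
      have := ne_zero_of_unit h
      have := ne_zero_of_unit h'
      simp only [cj_apply, tr_cj, tr_diag h, tr_diag h']
      by_cases a : Tors (z / z')
      · exact ⟨_, a, by field_simp; ring⟩
      · exact ⟨_, H _ _ _ _ _ h h' a, by field_simp; ring⟩) b0 b1
  exact hp _ (mul_ne_zero (mul_ne_zero (unit_ne_zero _) hx) (unit_ne_zero _))
    fun γ => (hx' γ).of_cj

end Pool.Agent.Lib.MP_bdc574_al
end

-- part Pool.Agent.Lib.MP_bdc574_al.FiveDir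
section

/-!
Three elements whose orbits graphs have sparse cores.
-/

namespace Pool.Agent.Lib.MP_bdc574_al

open Quaternion
open scoped ComplexConjugate

variable {Γ : Type} [Group Γ] {ρ₁ ρ₂ : Γ →* U}

def Dir (ρ₁ ρ₂ : Γ →* U) : Prop :=
  ∃ (g : Fin 3 → Γ) (D : ℍ → Finset Let), (∀ x ≠ 0, (D x).card ≤ 3) ∧ ∀ k x z, x ≠ 0 →
    (ρ₁ (g k) : ℍ) * x = z * ρ₂ (g k) →
    ((k, true) ∉ D x → D z = {(k, false)}) ∧ ((k, false) ∉ D z → D x = {(k, true)}) ∧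
    ((k, true) ∈ D x → (k, false) ∈ D z → (D x).card ≠ 3 ∨ (D z).card ≠ 3)

theorem Dir.of_cj {c d : U} (h : Dir (cj c ρ₁) (cj d ρ₂)) : Dir ρ₁ ρ₂ := by
  obtain ⟨g, D, h1, h2⟩ := h
  have h0 : ∀ x : ℍ, x ≠ 0 → ((c⁻¹ : U) : ℍ) * x * d ≠ 0 := fun x hx =>
    mul_ne_zero (mul_ne_zero (unit_ne_zero _) hx) (unit_ne_zero _)
  refine ⟨g, fun x => D ((c⁻¹ : U) * x * d), fun x hx => h1 _ (h0 x hx), fun k x z hx h =>
    h2 k _ _ (h0 x hx) ?_⟩
  simp only [cj_apply, Submonoid.coe_mul, mul_assoc, coe_mul_inv]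
  rw [← mul_assoc (ρ₁ (g k) : ℍ), h, mul_assoc]

noncomputable def mat (x : ℍ) : M2 := !![p0 x, -conj (p1 x); p1 x, conj (p0 x)]

theorem mat_ne {x : ℍ} (h : x ≠ 0) : mat x ≠ 0 := fun e =>
  h (ext_p (congrFun (congrFun e 0) 0) ((congrFun (congrFun e 1) 0).trans p1_zero.symm))

theorem laws {A B : U} {x z : ℍ} {l m : ℂ} (hl : conj l = l⁻¹) (hm : conj m = m⁻¹) (l0 : l ≠ 0)
    (m0 : m ≠ 0) (a0 : p0 A ≠ 0) (a1 : p1 A ≠ 0) (b0 : p0 B ≠ 0) (b1 : p1 B ≠ 0)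
    (h : l * (star (A : ℍ) * x * B) = star (A : ℍ) * z * B * m) {xt xf yt yf : ℂ}
    (e1 : xt = conj (p1 A) / conj (p0 A)) (e2 : xf = -p0 A / p1 A)
    (e3 : yt = -conj (p1 B) / conj (p0 B)) (e4 : yf = p0 B / p1 B) :
    bf xt yt (mat z) = l * m * bf xt yt (mat x) ∧ bf xf yf (mat x) = l * m * bf xf yf (mat z) ∧
    bf xt yf (mat z) = l / m * bf xt yf (mat x) ∧ bf xf yt (mat x) = l / m * bf xf yt (mat z) := by
  have h0 := congrArg p0 h
  have h1 := congrArg p1 h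
  have h2 := congrArg conj h0
  have h3 := congrArg conj h1
  have a2 : conj (p0 A) ≠ 0 := (map_ne_zero _).2 a0
  have b2 : conj (p0 B) ≠ 0 := (map_ne_zero _).2 b0
  simp only [p0_mul, p1_mul, p0_coe, p1_coe, p0_star, p1_star, map_zero, map_mul, map_sub, map_add,
    map_neg, Complex.conj_conj, hl, hm, map_inv₀, inv_inv] at h0 h1 h2 h3
  simp only [bf_apply, mat, e1, e2, e3, e4, Matrix.of_apply, Matrix.cons_val', Matrix.cons_val_zero,
    Matrix.cons_val_one, Matrix.cons_val_fin_one]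
  field_simp at h0 h1 h2 h3 ⊢
  refine ⟨?_, ?_, ?_, ?_⟩
  · linear_combination h3
  · linear_combination -h1
  · linear_combination -h0
  · linear_combination -h2

theorem dir_of (v : AbsoluteValue ℂ ℝ) {g h : Γ} {l m : ℂ} (h1 : (ρ₁ g : ℍ) = l)
    (h2 : (ρ₂ g : ℍ) = m) (hl : 1 < v l) (hm : v m = v l) (ht : ¬ Tors (l / m))
    (a0 : p0 (ρ₁ h) ≠ 0) (a1 : p1 (ρ₁ h) ≠ 0) (b0 : p0 (ρ₂ h) ≠ 0) (b1 : p1 (ρ₂ h) ≠ 0) :
    Dir ρ₁ ρ₂ := by
  have l0 := ne_zero_of_unit h1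
  have m0 := ne_zero_of_unit h2
  have cz : ∀ {z : ℂ}, z ≠ 0 → conj z ≠ 0 := fun h => (map_ne_zero _).2 h
  have inj : ∀ x : Bool → ℂ, x true ≠ x false → Function.Injective x := by
    rintro x h (_ | _) (_ | _) e
    exacts [rfl, absurd e.symm h, absurd e h, rfl]
  obtain ⟨i, hx, hy, K4⟩ := general v (L := l ^ 2) (M := m ^ 2)
    (by rw [map_pow]; exact one_lt_pow₀ hl two_ne_zero) (by rw [map_pow, map_pow, hm])
    (fun n hn e => ht ⟨2 * n, by omega, by rw [pow_mul, div_pow, e]⟩)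
    (x := fun b => if b then conj (p1 (ρ₁ h)) / conj (p0 (ρ₁ h)) else -p0 (ρ₁ h) / p1 (ρ₁ h))
    (y := fun b => if b then -conj (p1 (ρ₂ h)) / conj (p0 (ρ₂ h)) else p0 (ρ₂ h) / p1 (ρ₂ h))
    (by rintro (_ | _) <;> simp [*]) (by rintro (_ | _) <;> simp [*])
    (inj _ fun e => by
      have := cz a0
      simp only [if_true, Bool.false_eq_true, if_false] at e
      field_simp at e
      exact one_ne_zero (by linear_combination e - unit_p (ρ₁ h) : (1 : ℂ) = 0))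
    (inj _ fun e => by
      have := cz b0
      simp only [if_true, Bool.false_eq_true, if_false] at e
      field_simp at e
      exact one_ne_zero (by linear_combination -e - unit_p (ρ₂ h) : (1 : ℂ) = 0))
  set X := fun t : Let => (if t.2 then conj (p1 (ρ₁ h)) / conj (p0 (ρ₁ h))
    else -p0 (ρ₁ h) / p1 (ρ₁ h)) * (l ^ 2) ^ i t.1 with hX
  set Y := fun t : Let => (if t.2 then -conj (p1 (ρ₂ h)) / conj (p0 (ρ₂ h))
    else p0 (ρ₂ h) / p1 (ρ₂ h)) * (m ^ 2) ^ i t.1 with hY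
  have ne : ∀ (k : Fin 3) b, (k, b) ≠ (k, !b) := by simp
  obtain ⟨n, D, h3, h4⟩ := dyn v (ψ := fun t => bf (X t) (Y t))
    (U := fun k => bf (X (k, true)) (Y (k, false))) (W := fun k => bf (X (k, false)) (Y (k, true)))
    (Λ := l * m) (ρ := l / m) (by rw [map_mul, hm]; nlinarith)
    (by rw [map_div₀, hm, div_self (by linarith)]) (fun n hn e => ht ⟨n, hn, e⟩) (by
      rintro ⟨k, _ | _⟩ t h Z c1 c2 c3 c4
      · exact bf_row (hy.ne (ne k true)) (hx.ne (ne k false)) (hx.ne h) (hy.ne h.symm) c2 c3 c4 c1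
      · exact bf_row (hy.ne (ne k false)) (hx.ne (ne k true)) (hx.ne h) (hy.ne h.symm) c2 c4 c3 c1)
    K4 (by
      rintro T hT s hs Z c1 c2
      obtain ⟨t, t', c3, c4⟩ := Finset.card_eq_two.1
        (show (T.erase s).card = 2 by rw [Finset.card_erase_of_mem hs, hT])
      have c5 := Finset.mem_erase.1 (show t ∈ T.erase s by simp [c4])
      have c6 := Finset.mem_erase.1 (show t' ∈ T.erase s by simp [c4])
      obtain ⟨k, _ | _⟩ := s <;> rcases c2 with c2 | c2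
      · exact bf_col (hx.ne (ne k false)) (hy.ne c5.1) (hy.ne c6.1) (hx.ne c3) (c1 _ hs) c2
          (c1 _ c5.2) (c1 _ c6.2)
      · exact bf_row (hy.ne (ne k false)) (hx.ne c5.1) (hx.ne c6.1) (hy.ne c3) (c1 _ hs) c2
          (c1 _ c5.2) (c1 _ c6.2)
      · exact bf_row (hy.ne (ne k true)) (hx.ne c5.1) (hx.ne c6.1) (hy.ne c3) (c1 _ hs) c2
          (c1 _ c5.2) (c1 _ c6.2)
      · exact bf_col (hx.ne (ne k true)) (hy.ne c5.1) (hy.ne c6.1) (hx.ne c3) (c1 _ hs) c2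
          (c1 _ c5.2) (c1 _ c6.2))
  refine ⟨fun k => g ^ i k * h * g ^ n * (g ^ i k * h)⁻¹, fun x => D (mat x),
    fun x hx => h3 _ (mat_ne hx), fun k x z hx e => ?_⟩
  have pa : ∀ {ρ : Γ →* U} {l : ℂ}, (ρ g : ℍ) = l → p0 (ρ (g ^ i k * h)) = l ^ i k * p0 (ρ h) ∧
      p1 (ρ (g ^ i k * h)) = (l ^ i k)⁻¹ * p1 (ρ h) := fun h1 => by
    rw [map_mul, map_pow, Submonoid.coe_mul, unit_pow h1, p0_coe_mul, p1_coe_mul,
      conj_eq_inv (unit_pow h1 _)]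
    exact ⟨rfl, rfl⟩
  have l1 := pow_ne_zero (i k) l0
  have m1 := pow_ne_zero (i k) m0
  obtain ⟨c1, c2, c3, c4⟩ := laws (A := ρ₁ (g ^ i k * h)) (B := ρ₂ (g ^ i k * h)) (x := x) (z := z)
    (conj_eq_inv (unit_pow h1 n)) (conj_eq_inv (unit_pow h2 n)) (pow_ne_zero n l0)
    (pow_ne_zero n m0) ((pa h1).1 ▸ mul_ne_zero l1 a0) ((pa h1).2 ▸ mul_ne_zero (inv_ne_zero l1) a1)
    ((pa h2).1 ▸ mul_ne_zero m1 b0) ((pa h2).2 ▸ mul_ne_zero (inv_ne_zero m1) b1) (by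
      rw [← unit_pow h1, ← unit_pow h2, ← map_pow, ← map_pow, ← coe_inv]
      beta_reduce at e
      generalize g ^ i k * h = γ at e
      have := congrArg (fun y => (((ρ₁ γ)⁻¹ : U) : ℍ) * y * ρ₂ γ) e
      simpa only [map_mul, map_inv, Submonoid.coe_mul, mul_assoc, coe_inv_mul,
        ← Submonoid.coe_mul (S := unitary ℍ) (ρ₂ γ)⁻¹, inv_mul_cancel, Submonoid.coe_one,
        mul_one] using this)
    (xt := X (k, true)) (xf := X (k, false)) (yt := Y (k, true)) (yf := Y (k, false))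
    (by
      rw [(pa h1).1, (pa h1).2]
      simp only [hX, map_mul, map_inv₀, conj_eq_inv (unit_pow h1 _), if_true]
      have := cz a0
      field_simp; ring)
    (by
      simp only [hX, (pa h1).1, (pa h1).2, Bool.false_eq_true, if_false]; field_simp; ring)
    (by
      rw [(pa h2).1, (pa h2).2]
      simp only [hY, map_mul, map_inv₀, conj_eq_inv (unit_pow h2 _), if_true]
      have := cz b0
      field_simp; ring)
    (by
      simp only [hY, (pa h2).1, (pa h2).2, Bool.false_eq_true, if_false]; field_simp; ring)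
  refine h4 k _ _ (mat_ne hx) (mat_ne fun e' => ?_) (by rw [c1, mul_pow]) (by rw [c2, mul_pow])
    (by rw [c3, div_pow]) (by rw [c4, div_pow])
  rw [e', zero_mul] at e
  exact mul_ne_zero (unit_ne_zero _) hx e

theorem gen_mul {a b : U} (ha : p0 a ≠ 0 ∧ p1 a ≠ 0) (hb : ¬ (p0 b ≠ 0 ∧ p1 b ≠ 0)) :
    (p0 (a * b : U) ≠ 0 ∧ p1 (a * b : U) ≠ 0) ∧ p0 (b * a : U) ≠ 0 ∧ p1 (b * a : U) ≠ 0 := by
  have hu := unit_p b
  simp only [Submonoid.coe_mul, p0_mul, p1_mul]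
  by_cases b0 : p0 b = 0
  · have b1 : p1 b ≠ 0 := fun h => by simp [h, b0] at hu
    simp [b0, b1, ha.1, ha.2]
  · have b1 : p1 b = 0 := by tauto
    simp [b0, b1, ha.1, ha.2]

theorem dir_of' (hj : JInj ρ₁ ρ₂) (hm : ¬ HasMean Γ) (hf : ¬ Free ρ₁ ρ₂) (v : AbsoluteValue ℂ ℝ)
    {g : Γ} {c d : U} {l m : ℂ} (h1 : ((c⁻¹ * ρ₁ g * c : U) : ℍ) = l)
    (h2 : ((d⁻¹ * ρ₂ g * d : U) : ℍ) = m) (hl : v l ≠ 1) (hv : v m = v l) (ht : ¬ Tors (l / m)) :
    Dir ρ₁ ρ₂ := by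
  rw [← cj_apply] at h1 h2
  refine Dir.of_cj (c := c) (d := d) ?_
  obtain ⟨h, a, b⟩ : ∃ h, (p0 (cj c ρ₁ h) ≠ 0 ∧ p1 (cj c ρ₁ h) ≠ 0) ∧
      p0 (cj d ρ₂ h) ≠ 0 ∧ p1 (cj d ρ₂ h) ≠ 0 := by
    obtain ⟨h, a⟩ := exists_generic_elt (hj.cj c d) hm fun h => hf h.of_cj
    obtain ⟨k, b⟩ := exists_generic_elt (hj.cj c d).symm hm fun h => hf h.symm.of_cj
    by_contra! e
    refine absurd (e (h * k) ?_) ?_
    · rw [map_mul]; exact (gen_mul a fun h => e k h b.1 |> b.2).1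
    · rw [map_mul]; simpa using (gen_mul b fun h' => e h a h'.1 |> h'.2).2
  rcases lt_or_gt_of_ne hl with e | e
  · have l0 := ne_zero_of_unit h1
    refine dir_of v (g := g⁻¹) (l := l⁻¹) (m := m⁻¹) (by rw [map_inv, unit_inv h1])
      (by rw [map_inv, unit_inv h2]) (by rw [map_inv₀]; exact (one_lt_inv₀ (v.pos l0)).2 e)
      (by rw [map_inv₀, map_inv₀, hv]) (fun ⟨n, hn, h⟩ => ht ⟨n, hn, ?_⟩) a.1 a.2 b.1 b.2
    rw [inv_div_inv, ← inv_div, inv_pow, inv_eq_one] at h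
    exact h
  · exact dir_of v h1 h2 e hv ht a.1 a.2 b.1 b.2

theorem free_or_dir (hj : JInj ρ₁ ρ₂) (hm : ¬ HasMean Γ) (hp : ∀ x ≠ 0, ¬ ∀ γ, PM ρ₁ ρ₂ x γ) :
    Free ρ₁ ρ₂ ∨ Dir ρ₁ ρ₂ := by
  refine or_iff_not_imp_left.2 fun hf => ?_
  obtain ⟨g, c, d, l, m, h1, h2, h3, h4⟩ := exists_nontors hj hm hf hp
  have m0 := ne_zero_of_unit h2
  obtain ⟨v, hv⟩ : ∃ v : AbsoluteValue ℂ ℝ, v l ≠ 1 := by
    by_cases a : Tors l
    · obtain ⟨v, hv⟩ := exists_abs_ne_one (r := l * m) fun n hn e => h4 ⟨n, hn, e⟩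
      refine ⟨v, fun e => hv ?_⟩
      rw [map_mul]
      exact (eq_of_not_free hj hm hf v g h1 h2).elim (fun h => by rw [← h, e, mul_one]) id
    · exact exists_abs_ne_one fun n hn e => a ⟨n, hn, e⟩
  rcases eq_of_not_free hj hm hf v g h1 h2 with e | e
  · exact dir_of' hj hm hf v h1 h2 hv e.symm h3
  · refine dir_of' hj hm hf v (d := d * jU) (m := m⁻¹) h1 ?_ hv
      (by rw [map_inv₀, eq_inv_of_mul_eq_one_left e]) (by rwa [div_inv_eq_mul])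
    have : ((d * jU)⁻¹ * ρ₂ g * (d * jU) : U) = jU⁻¹ * (d⁻¹ * ρ₂ g * d) * jU := by
      simp only [mul_inv_rev, mul_assoc]
    rw [this, Submonoid.coe_mul, Submonoid.coe_mul, h2, jU_conj, conj_eq_inv h2]

end Pool.Agent.Lib.MP_bdc574_al
end
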