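import Pool.Agent.Lib.MP_bdc574_al.FiveHall

/-!
Dynamics of three proximal maps in general position.
-/

namespace Pool.Agent.Lib.MP_bdc574_al

open Finset Filter Topology

abbrev M2 := Matrix (Fin 2) (Fin 2) ℂ
abbrev Fn := M2 →ₗ[ℂ] ℂ

variable (v : AbsoluteValue ℂ ℝ)

noncomputable def nm (X : M2) : ℝ := ∑ p : Fin 2 × Fin 2, v (X p.1 p.2)

theorem le_nm (X : M2) (p : Fin 2 × Fin 2) : v (X p.1 p.2) ≤ nm v X :=
  single_le_sum (f := fun p : Fin 2 × Fin 2 => v (X p.1 p.2)) (fun _ _ => v.nonneg _) (mem_univ p)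

theorem nm_pos {X : M2} (h : X ≠ 0) : 0 < nm v X := by
  by_contra! h1
  exact h (Matrix.ext fun i j => v.eq_zero.1 (((le_nm v X (i, j)).trans h1).antisymm (v.nonneg _)))

theorem span_of {ι : Type} [Fintype ι] (f : ι → Fn) (g : Fn)
    (h : ∀ X, (∀ i, f i X = 0) → g X = 0) : ∃ c : ι → ℂ, ∀ X, g X = ∑ i, c i * f i X := by
  obtain ⟨c, hc⟩ := (Submodule.mem_span_range_iff_exists_fun ℂ).1
    (mem_span_of_iInf_ker_le_ker (L := f) (K := g) fun X hX => h X (by simpa using hX))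
  exact ⟨c, fun X => by rw [← hc]; simp⟩

theorem bnd {ι : Type} [Fintype ι] (f : ι → Fn) (g : Fn) (h : ∀ X, (∀ i, f i X = 0) → g X = 0) :
    ∃ C, 0 ≤ C ∧ ∀ X b, (∀ i, v (f i X) ≤ b) → v (g X) ≤ C * b := by
  obtain ⟨c, hc⟩ := span_of f g h
  refine ⟨∑ i, v (c i), sum_nonneg fun _ _ => v.nonneg _, fun X b hb => ?_⟩
  rw [hc, sum_mul]
  refine (v.sum_le _ _).trans (sum_le_sum fun i _ => ?_)
  rw [map_mul]
  exact mul_le_mul_of_nonneg_left (hb i) (v.nonneg _)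

theorem upper (g : Fn) : ∃ C, 0 ≤ C ∧ ∀ X, v (g X) ≤ C * nm v X := by
  obtain ⟨C, h0, h⟩ := bnd v (fun p : Fin 2 × Fin 2 => Matrix.entryLinearMap ℂ ℂ p.1 p.2) g
    fun X hX => by rw [show X = 0 from Matrix.ext fun i j => hX (i, j), map_zero]
  exact ⟨C, h0, fun X => h X _ (le_nm v X)⟩

theorem lower {ι : Type} [Fintype ι] (f : ι → Fn) (h : ∀ X, (∀ i, f i X = 0) → X = 0) :
    ∃ C, 0 ≤ C ∧ ∀ X b, (∀ i, v (f i X) ≤ b) → nm v X ≤ C * b := by
  choose C h0 hC using fun p : Fin 2 × Fin 2 => bnd v f (Matrix.entryLinearMap ℂ ℂ p.1 p.2)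
    fun X hX => by rw [h X hX, map_zero]
  refine ⟨∑ p, C p, sum_nonneg fun p _ => h0 p, fun X b hb => ?_⟩
  rw [sum_mul]
  exact sum_le_sum fun p _ => hC p X b hb

theorem ev_small (C : ℝ) {η : ℝ} (hη : 0 < η) : ∀ᶠ ε in 𝓝[>] (0 : ℝ), C * ε < η := by
  have : Tendsto (fun ε : ℝ => C * ε) (𝓝[>] 0) (𝓝 (C * 0)) :=
    (tendsto_const_nhds.mul tendsto_id).mono_left nhdsWithin_le_nhds
  exact this.eventually (gt_mem_nhds (by simpa using hη))

theorem few {ι : Type} [Fintype ι] (f : ι → Fn) (h : ∀ X, (∀ i, f i X = 0) → X = 0) :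
    ∀ᶠ ε in 𝓝[>] (0 : ℝ), ∀ X ≠ 0, ¬ ∀ i, v (f i X) ≤ ε * nm v X := by
  obtain ⟨C, -, hC⟩ := lower v f h
  filter_upwards [ev_small C one_pos] with ε hε X hX h1
  have := hC X _ h1
  have := nm_pos v hX
  nlinarith

theorem slope {ι : Type} [Fintype ι] (f : ι → Fn) (hι : Fintype.card ι = 3) (U W : Fn)
    (hU : ∀ X, (∀ i, f i X = 0) → U X = 0 → X = 0) (hW : ∀ X, (∀ i, f i X = 0) → W X = 0 → X = 0) :
    ∃ κ ≠ 0, ∀ η > 0, ∀ᶠ ε in 𝓝[>] (0 : ℝ), ∀ X ≠ 0, (∀ i, v (f i X) ≤ ε * nm v X) →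
      U X ≠ 0 ∧ v (W X - κ * U X) ≤ η * v (U X) := by
  have h1 : ∀ X, (∀ o : Option ι, (o.elim U f : Fn) X = 0) → X = 0 := fun X h =>
    hU X (fun i => h (some i)) (h none)
  obtain ⟨c, hc⟩ := span_of (fun o : Option ι => o.elim U f) W fun X h => by rw [h1 X h, map_zero]
  simp only [Fintype.sum_option, Option.elim] at hc
  refine ⟨c none, fun h0 => ?_, fun η hη => ?_⟩
  · have := LinearMap.finrank_le_finrank_of_injective (f := LinearMap.pi f)
      ((injective_iff_map_eq_zero _).2 fun X hX => hW X (congrFun hX) (by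
        rw [hc, h0, zero_mul, zero_add]
        exact sum_eq_zero fun i _ => by rw [show f i X = 0 from congrFun hX i, mul_zero]))
    simp [Module.finrank_matrix, hι] at this
  obtain ⟨C, h0, hC⟩ := lower v _ h1
  obtain ⟨C', h0', hC'⟩ := bnd v f (W - c none • U) fun X h => by
    simp [hc, h]
  filter_upwards [ev_small C one_pos, ev_small (C' * C) hη, self_mem_nhdsWithin]
    with ε h2 h3 h4 X hX h5
  have h6 := nm_pos v hX
  have h7 : nm v X ≤ C * v (U X) := by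
    rcases le_total (v (U X)) (ε * nm v X) with h | h
    · have := hC X (ε * nm v X) fun o => by cases o; exacts [h, h5 _]
      nlinarith
    · exact hC X _ fun o => by cases o; exacts [le_rfl, (h5 _).trans h]
  refine ⟨fun h => by simp [h] at h7; linarith, ?_⟩
  have h8 : v (W X - c none * U X) ≤ C' * (ε * nm v X) := by simpa using hC' X _ h5
  have h9 := mul_le_mul_of_nonneg_left h7 (mul_nonneg h0' (le_of_lt h4))
  have := v.nonneg (U X)
  nlinarith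

theorem escape {a b U W t : Fn} {R : ℝ} (hR : 1 < R)
    (h : ∀ X, t X = 0 → b X = 0 → U X = 0 → W X = 0 → X = 0) :
    ∀ᶠ ε in 𝓝[>] (0 : ℝ), ∀ᶠ n : ℕ in atTop, ∀ X Z, ε * nm v X < v (a X) →
      v (a Z) = R ^ n * v (a X) → v (b Z) ≤ v (b X) → v (U Z) = v (U X) → v (W Z) = v (W X) →
      v (b Z) ≤ ε * nm v Z ∧ ε * nm v Z < v (t Z) := by
  obtain ⟨C, h0, hC⟩ := lower v ![t, b, U, W] fun X hX => h X (hX 0) (hX 1) (hX 2) (hX 3)
  obtain ⟨Ca, a0, ha⟩ := upper v a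
  obtain ⟨Cb, b0, hb⟩ := upper v b
  obtain ⟨CU, U0, hU⟩ := upper v U
  obtain ⟨CW, W0, hW⟩ := upper v W
  filter_upwards [ev_small C one_pos, self_mem_nhdsWithin] with ε h1 (h2 : 0 < ε)
  filter_upwards [(tendsto_pow_atTop_atTop_of_one_lt hR).eventually_ge_atTop
    ((Cb + CU + CW) * Ca / ε ^ 2)] with n hn X Z h3 h4 h5 h6 h7
  rw [div_le_iff₀ (by positivity)] at hn
  have n0 : 0 ≤ nm v X := sum_nonneg fun _ _ => v.nonneg _
  have hRn : 0 < R ^ n := by positivity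
  have h8 : R ^ n * (ε * nm v X) < Ca * nm v Z := by
    have := ha Z
    nlinarith
  have n1 : 0 < nm v Z := by
    refine nm_pos v fun e => ?_
    rw [e] at h8
    have : 0 ≤ R ^ n * (ε * nm v X) := by positivity
    simp [nm] at h8 this
    linarith
  have h9 : (Cb + CU + CW) * nm v X ≤ ε * nm v Z := by
    have c0 : 0 < Ca := by
      by_contra! h
      have : 0 ≤ R ^ n * (ε * nm v X) := by positivity
      nlinarith
    refine le_of_mul_le_mul_left ?_ c0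
    have := mul_le_mul_of_nonneg_right hn n0
    nlinarith
  have k1 := hb X
  have k2 := hU X
  have k3 := hW X
  have k4 := mul_nonneg b0 n0
  have k5 := mul_nonneg U0 n0
  have k6 := mul_nonneg W0 n0
  refine ⟨by linarith, ?_⟩
  by_contra! h10
  have := hC Z (ε * nm v Z) fun i => by fin_cases i <;> simp <;> linarith
  nlinarith

theorem avoid {σ : ℂ} (h1 : v σ = 1) (hσ : ∀ n, 0 < n → σ ^ n ≠ 1) {ι : Type} [Fintype ι]
    (r : ι → ℂ) : ∃ η > 0, ∃ᶠ n : ℕ in atTop, ∀ i, η < v (r i - σ ^ n) := by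
  have h0 : σ ≠ 0 := fun h => by simp [h] at h1
  have h2 : ∀ i j : ℕ, i < j → 0 < v (σ ^ i - σ ^ j) := fun i j h => v.pos fun e => by
    obtain ⟨d, rfl⟩ := Nat.exists_eq_add_of_lt h
    rw [sub_eq_zero, add_assoc, pow_add] at e
    exact hσ (d + 1) (by omega) (mul_left_cancel₀ (pow_ne_zero i h0) (by rw [← e, mul_one]))
  obtain ⟨η, hη, h3⟩ : ∃ η > 0, ∀ p : Fin (Fintype.card ι + 1) × Fin (Fintype.card ι + 1),
      p.1 < p.2 → 2 * η < v (σ ^ (p.1 : ℕ) - σ ^ (p.2 : ℕ)) := by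
    have : ∀ᶠ η in 𝓝[>] (0 : ℝ), ∀ p : Fin (Fintype.card ι + 1) × Fin (Fintype.card ι + 1),
        p.1 < p.2 → 2 * η < v (σ ^ (p.1 : ℕ) - σ ^ (p.2 : ℕ)) := eventually_all.2 fun p => by
      by_cases h : p.1 < p.2
      · exact (ev_small 2 (h2 _ _ h)).mono fun _ h' _ => h'
      · exact Eventually.of_forall fun _ h' => absurd h' h
    obtain ⟨η, h3, h4⟩ := (this.and self_mem_nhdsWithin).exists
    exact ⟨η, h4, h3⟩
  refine ⟨η, hη, frequently_atTop.2 fun N => ?_⟩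
  by_contra! h4
  choose f hf using fun j : Fin (Fintype.card ι + 1) => h4 (N + j) (by omega)
  obtain ⟨i, j, hij, e⟩ := Fintype.exists_ne_map_eq_of_card_lt f (by simp)
  have key : ∀ i j, i < j → f i ≠ f j := fun i j h e => by
    have k1 := h3 (i, j) h
    have k2 := v.sub_le (σ ^ (N + i)) (r (f j)) (σ ^ (N + j))
    have k3 := hf i
    have k4 := hf j
    rw [e, v.map_sub] at k3
    rw [pow_add, pow_add, ← mul_sub, map_mul, map_pow, h1, one_pow, one_mul,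
      ← pow_add, ← pow_add] at k2
    linarith
  rcases lt_or_gt_of_ne hij with h | h
  exacts [key _ _ h e, key _ _ h e.symm]

theorem dyn {ψ : Let → Fn} {U W : Fin 3 → Fn} {Λ ρ : ℂ} (hΛ : 1 < v Λ) (hρ : v ρ = 1)
    (hρ' : ∀ n, 0 < n → ρ ^ n ≠ 1)
    (K1 : ∀ s t : Let, t ≠ s.inv → ∀ X, ψ t X = 0 → ψ s.inv X = 0 → U s.1 X = 0 → W s.1 X = 0 →
      X = 0)
    (K4 : ∀ T : Fin 4 → Let, Function.Injective T → ∀ X, (∀ i, ψ (T i) X = 0) → X = 0)
    (K3 : ∀ T : Finset Let, T.card = 3 → ∀ s ∈ T, ∀ X, (∀ t ∈ T, ψ t X = 0) →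
      U s.1 X = 0 ∨ W s.1 X = 0 → X = 0) :
    ∃ (n : ℕ) (D : M2 → Finset Let), (∀ X ≠ 0, (D X).card ≤ 3) ∧ ∀ k X Z, X ≠ 0 → Z ≠ 0 →
      ψ (k, true) Z = Λ ^ n * ψ (k, true) X → ψ (k, false) X = Λ ^ n * ψ (k, false) Z →
      U k Z = ρ ^ n * U k X → W k X = ρ ^ n * W k Z →
      ((k, true) ∉ D X → D Z = {(k, false)}) ∧ ((k, false) ∉ D Z → D X = {(k, true)}) ∧
      ((k, true) ∈ D X → (k, false) ∈ D Z → (D X).card ≠ 3 ∨ (D Z).card ≠ 3) := by
  classical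
  choose κ k0 hκ using fun p : {p : Finset Let × Let // p.1.card = 3 ∧ p.2 ∈ p.1} =>
    slope v (fun t : p.1.1 => ψ t) (by simpa using p.2.1) (U p.1.2.1) (W p.1.2.1)
      (fun X h h' => K3 _ p.2.1 _ p.2.2 X (by simpa using h) (Or.inl h'))
      fun X h h' => K3 _ p.2.1 _ p.2.2 X (by simpa using h) (Or.inr h')
  obtain ⟨η, hη, hfr⟩ := avoid v (σ := ρ ^ 2) (by simp [hρ])
    (fun n hn => by rw [← pow_mul]; exact hρ' _ (by omega)) fun p : _ × _ => κ p.1 / κ p.2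
  have e1 := eventually_all.2 fun T : {T : Fin 4 → Let // Function.Injective T} =>
    few v _ (K4 T T.2)
  have e2 := eventually_all.2 fun p : {p : Let × Let // p.2 ≠ p.1.inv} =>
    escape v (a := ψ p.1.1) hΛ (K1 _ _ p.2)
  have e3 := eventually_all.2 fun p : _ × _ =>
    hκ p.1 (v (κ p.2) * η / 2) (by have := v.pos (k0 p.2); positivity)
  obtain ⟨ε, e1, e2, e3⟩ := (e1.and (e2.and e3)).exists
  obtain ⟨n, e4, e2⟩ := (hfr.and_eventually (eventually_all.2 e2)).exists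
  have hD : ∀ X t, t ∈ (univ.filter fun t => v (ψ t X) ≤ ε * nm v X) ↔ v (ψ t X) ≤ ε * nm v X := by
    simp
  have esc : ∀ (s : Let) X Z, ψ s Z = Λ ^ n * ψ s X → ψ s.inv X = Λ ^ n * ψ s.inv Z →
      v (U s.1 Z) = v (U s.1 X) → v (W s.1 Z) = v (W s.1 X) →
      s ∉ (univ.filter fun t => v (ψ t X) ≤ ε * nm v X) →
      (univ.filter fun t => v (ψ t Z) ≤ ε * nm v Z) = {s.inv} := fun s X Z h1 h2 h3 h4 h5 => by
    have h6 := fun t (ht : t ≠ s.inv) => e2 ⟨(s, t), ht⟩ X Z (by simpa using h5)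
      (by rw [h1, map_mul, map_pow]) (by
        rw [h2, map_mul, map_pow]
        exact le_mul_of_one_le_left (v.nonneg _) (one_le_pow₀ hΛ.le)) h3 h4
    refine eq_singleton_iff_unique_mem.2 ⟨(hD _ _).2 (h6 s (by simp [Let.inv, Prod.ext_iff])).1,
      fun t ht => by_contra fun h => ((hD _ _).1 ht).not_gt (h6 t h).2⟩
  refine ⟨n, fun X => univ.filter fun t => v (ψ t X) ≤ ε * nm v X, fun X hX => ?_,
    fun k X Z hX hZ h1 h2 h3 h4 => ?_⟩
  · by_contra! h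
    obtain ⟨T, hT⟩ := Function.Embedding.exists_of_card_le_finset (α := Fin 4)
      ((Fintype.card_fin 4).le.trans (Nat.succ_le_of_lt h))
    exact e1 ⟨T, T.injective⟩ X hX fun i => (hD _ _).1 (hT ⟨i, rfl⟩)
  have h5 : v (U k Z) = v (U k X) := by rw [h3, map_mul, map_pow, hρ, one_pow, one_mul]
  have h6 : v (W k X) = v (W k Z) := by rw [h4, map_mul, map_pow, hρ, one_pow, one_mul]
  refine ⟨esc (k, true) X Z h1 h2 h5 h6.symm, esc (k, false) Z X h2 h1 h5.symm h6,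
    fun a b => ?_⟩
  by_contra! h
  obtain ⟨k1, k2⟩ := e3 (⟨(_, _), h.1, a⟩, ⟨(_, _), h.2, b⟩) X hX fun t => (hD _ _).1 t.2
  obtain ⟨-, k3⟩ := e3 (⟨(_, _), h.2, b⟩, ⟨(_, _), h.2, b⟩) Z hZ fun t => (hD _ _).1 t.2
  have k4 := e4 (⟨(_, _), h.1, a⟩, ⟨(_, _), h.2, b⟩)
  have k5 := k0 ⟨(_, _), h.2, b⟩
  dsimp only at k1 k2 k3 k4
  generalize κ ⟨(_, _), h.1, a⟩ = x at *
  generalize κ ⟨(_, _), h.2, b⟩ = y at *
  have k6 : y * (x / y - (ρ ^ 2) ^ n) * U k X =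
      ρ ^ n * (W k Z - y * U k Z) - (W k X - x * U k X) := by
    rw [h3, h4]; field_simp; ring
  have k7 := v.sub_le_add (ρ ^ n * (W k Z - y * U k Z)) (W k X - x * U k X)
  rw [← k6, map_mul, map_mul, map_mul, map_pow, hρ, one_pow, one_mul] at k7
  rw [h5] at k3
  have := mul_lt_mul_of_pos_right (mul_lt_mul_of_pos_left k4 (v.pos k5)) (v.pos k1)
  linarith

end Pool.Agent.Lib.MP_bdc574_al
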