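import Mathlib

/-!
A local criterion for a paradoxical decomposition with five pieces.
-/

namespace Pool.Agent.Lib.MP_bdc574_al

open Finset

/-- letters: three generators and their inverses -/
abbrev Let := Fin 3 × Bool

def Let.inv (s : Let) : Let := (s.1, !s.2)

/-- the share of an edge received by one of its ends -/
def wt (D : Finset Let) (t : Let) : ℕ :=
  if t ∈ D then (if D.card = 1 then 2 else if t.1 = 0 ∨ D.card = 2 then 1 else 0) else 0

theorem sum_wt : ∀ D : Finset Let, D.card ≤ 3 → ∑ t, wt D t ≤ 2 := by decide +kernel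

theorem wt_single : ∀ t : Let, wt {t} t = 2 := by decide +kernel

theorem wt_zero : ∀ (D : Finset Let) (t : Let), t ∈ D → t.1 = 0 → 1 ≤ wt D t := by decide +kernel

theorem wt_two : ∀ (D : Finset Let) (t : Let), t ∈ D → D.card ≤ 3 → D.card ≠ 3 → 1 ≤ wt D t := by
  decide +kernel

theorem five_of_dir {X : Type*} (g : Fin 3 → Equiv.Perm X) (D : X → Finset Let)
    (h3 : ∀ x, (D x).card ≤ 3) (h1 : ∀ k x, (k, true) ∉ D x → D (g k x) = {(k, false)})
    (h2 : ∀ k x, (k, false) ∉ D (g k x) → D x = {(k, true)})
    (h4 : ∀ k x, k ≠ 0 → (k, true) ∈ D x → (k, false) ∈ D (g k x) →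
      (D x).card ≠ 3 ∨ (D (g k x)).card ≠ 3) :
    ∃ φ : X × Bool → X, Function.Injective φ ∧ (∀ x, φ (x, true) = x ∨ φ (x, true) = g 0 x) ∧
      ∀ x, φ (x, false) = x ∨ φ (x, false) = g 1 x ∨ φ (x, false) = g 2 x := by
  classical
  have m : ∀ k x, (if k = 0 then 2 else 1) ≤ wt (D x) (k, true) + wt (D (g k x)) (k, false) := by
    intro k x
    by_cases a : (k, true) ∈ D x
    · by_cases b : (k, false) ∈ D (g k x)
      · split_ifs with c
        · have := wt_zero _ _ a c
          have := wt_zero _ _ b c
          omega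
        · rcases h4 k x c a b with d | d
          · have := wt_two _ _ a (h3 _) d
            omega
          · have := wt_two _ _ b (h3 _) d
            omega
      · rw [h2 k x b, wt_single]; split_ifs <;> omega
    · rw [h1 k x a, wt_single]; split_ifs <;> omega
  obtain ⟨φ, hφ, h⟩ := (Finset.all_card_le_biUnion_card_iff_exists_injective fun u : X × Bool =>
      if u.2 then {u.1, g 0 u.1} else {u.1, g 1 u.1, g 2 u.1}).1 fun S => by
    set V := S.biUnion fun u : X × Bool =>
      if u.2 then ({u.1, g 0 u.1} : Finset X) else {u.1, g 1 u.1, g 2 u.1}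
    let A : Bool → Finset X := fun b => (S.filter fun u => u.2 = b).image Prod.fst
    have hA : ∀ b x, x ∈ A b → (x, b) ∈ S := fun b x hx => by
      obtain ⟨⟨y, c⟩, hu, rfl⟩ := mem_image.1 hx
      obtain ⟨hu', rfl⟩ := mem_filter.1 hu
      exact hu'
    have hc : S.card ≤ (A true).card + (A false).card := by
      rw [← card_image_of_injective (A true) (Prod.mk_left_injective true),
        ← card_image_of_injective (A false) (Prod.mk_left_injective false)]
      refine le_trans (card_le_card ?_) (card_union_le _ _)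
      rintro ⟨x, b⟩ hu
      have : x ∈ A b := mem_image.2 ⟨(x, b), mem_filter.2 ⟨hu, rfl⟩, rfl⟩
      cases b <;> simp [this]
    have key : ∀ k, (if k = 0 then 2 else 1) * (A (decide (k = 0))).card ≤
        ∑ x ∈ V, (wt (D x) (k, true) + wt (D x) (k, false)) := fun k => by
      have hV : ∀ x ∈ A (decide (k = 0)), x ∈ V ∧ g k x ∈ V := fun x hx => by
        have := hA _ _ hx
        constructor <;> refine mem_biUnion.2 ⟨_, this, ?_⟩ <;> fin_cases k <;> simp
      rw [mul_comm, ← smul_eq_mul, ← sum_const, sum_add_distrib]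
      refine (sum_le_sum fun x _ => m k x).trans ?_
      rw [sum_add_distrib]
      refine add_le_add (sum_le_sum_of_subset fun x hx => (hV x hx).1) ?_
      rw [← sum_image (f := fun y => wt (D y) (k, false)) (g k).injective.injOn]
      refine sum_le_sum_of_subset fun y hy => ?_
      obtain ⟨x, hx, rfl⟩ := mem_image.1 hy
      exact (hV x hx).2
    have h5 := sum_le_sum fun k (_ : k ∈ univ) => key k
    rw [sum_comm] at h5
    have h6 : ∑ x ∈ V, ∑ k, (wt (D x) (k, true) + wt (D x) (k, false)) ≤ ∑ x ∈ V, 2 :=
      sum_le_sum fun x _ => by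
        have := sum_wt _ (h3 x)
        rw [Fintype.sum_prod_type] at this
        simpa using this
    simp [Fin.sum_univ_three] at h5 h6
    omega
  exact ⟨φ, hφ, fun x => by simpa using h (x, true), fun x => by simpa using h (x, false)⟩

end Pool.Agent.Lib.MP_bdc574_al
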